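import Pool.Agent.J4.H83.OO.Defs

/-!
# The translations along two lattice directions commute
-/

set_option autoImplicit false

open MeasureTheory Set

namespace Pool.Agent.J4.H83.OO

open Pool.Agent.J4.H83.FV Pool.Agent.J4.H83.HD

theorem Comm.ze_norm : ‖ze‖ = 1 := Pool.Agent.J4.H83.HD.Hex.om1_norm

theorem Comm.ze_sq : ze ^ 2 = ze - 1 := by
  have h3 : (√3 : ℝ) ^ 2 = 3 := Real.sq_sqrt (by norm_num)
  apply Complex.ext
  · simp only [ze, om, pow_two, Complex.mul_re, Complex.add_re, Complex.one_re, Complex.add_im,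
      Complex.one_im, Complex.sub_re]
    nlinarith
  · simp only [ze, om, pow_two, Complex.mul_im, Complex.add_re, Complex.one_re, Complex.add_im,
      Complex.one_im, Complex.sub_im]
    ring

theorem Comm.ze_cube : ze ^ 3 = -1 := by
  have h := Comm.ze_sq
  have e : ze ^ 3 = ze ^ 2 * ze := by ring
  rw [e, h]
  linear_combination h

theorem Comm.mem_Bd {N : ℕ} {x : Fin N → ℂ} {p : Fin N × Fin N} :
    p ∈ Bd x ↔ p.2 ≠ p.1 ∧ ‖x p.2 - x p.1‖ < 2 * R := by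
  unfold Bd Nbr
  rw [Finset.mem_filter, Finset.mem_filter]
  exact ⟨fun h => h.2.2, fun h => ⟨Finset.mem_univ _, Finset.mem_univ _, h⟩⟩

theorem Comm.swp_mem {N : ℕ} {x : Fin N → ℂ} {p : Fin N × Fin N} (hp : p ∈ Bd x) :
    swp N p ∈ Bd x := by
  rw [Comm.mem_Bd] at *
  refine ⟨hp.1.symm, ?_⟩
  show ‖x p.1 - x p.2‖ < 2 * R
  rw [norm_sub_rev]
  exact hp.2

theorem Comm.swp_fst {N : ℕ} (p : Fin N × Fin N) : (swp N p).1 = p.2 := rfl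

theorem Comm.swp_bv {N : ℕ} (x : Fin N → ℂ) (p : Fin N × Fin N) : bv x (swp N p) = -bv x p := by
  show x p.1 - x p.2 = -(x p.2 - x p.1)
  ring

theorem Comm.fw_apply {N : ℕ} (ρ : Equiv.Perm (Fin N × Fin N)) (γ : Fin N × Fin N) :
    fw ρ γ = ρ (ρ (ρ (swp N γ))) := rfl

theorem Comm.up_apply {N : ℕ} (ρ : Equiv.Perm (Fin N × Fin N)) (γ : Fin N × Fin N) :
    up ρ γ = ρ (ρ (swp N (ρ γ))) := rfl

theorem fw_vec {N : ℕ} {x : Fin N → ℂ} (hx : Sep x) {τ C : ℝ} (hC : 0 ≤ C)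
    {ρ : Equiv.Perm (Fin N × Fin N)} (hρ : IsRot x τ C ρ) {γ : Fin N × Fin N} (hγ : γ ∈ Bd x)
    (h : ex x γ.2 ≤ τ) : fw ρ γ ∈ Bd x ∧ (fw ρ γ).1 = γ.2 ∧
      ‖bv x (fw ρ γ) - bv x γ‖ ≤ 3 * (C * ex x γ.2) := by
  have m0 := Comm.swp_mem hγ
  have m1 := hρ.mem _ m0
  have m2 := hρ.mem _ m1
  have m3 := hρ.mem _ m2
  have f0 : (swp N γ).1 = γ.2 := rfl
  have f1 : (ρ (swp N γ)).1 = γ.2 := (hρ.fst _).trans f0
  have f2 : (ρ (ρ (swp N γ))).1 = γ.2 := (hρ.fst _).trans f1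
  have f3 : (ρ (ρ (ρ (swp N γ)))).1 = γ.2 := (hρ.fst _).trans f2
  have v1 := hρ.vec _ m0 (by rw [f0]; exact h)
  have v2 := hρ.vec _ m1 (by rw [f1]; exact h)
  have v3 := hρ.vec _ m2 (by rw [f2]; exact h)
  rw [f0, Comm.swp_bv] at v1
  rw [f1] at v2
  rw [f2] at v3
  refine ⟨m3, f3, ?_⟩
  rw [Comm.fw_apply]
  have e : bv x (ρ (ρ (ρ (swp N γ)))) - bv x γ =
      (bv x (ρ (ρ (ρ (swp N γ)))) - ze * bv x (ρ (ρ (swp N γ)))) +
      ze * (bv x (ρ (ρ (swp N γ))) - ze * bv x (ρ (swp N γ))) +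
      ze ^ 2 * (bv x (ρ (swp N γ)) - ze * -bv x γ) := by
    linear_combination (-bv x γ) * Comm.ze_cube
  rw [e]
  refine (norm_add₃_le).trans ?_
  rw [norm_mul, norm_mul, norm_pow, Comm.ze_norm, one_pow, one_mul, one_mul]
  linarith

theorem Comm.up_vec {N : ℕ} {x : Fin N → ℂ} {τ C : ℝ}
    {ρ : Equiv.Perm (Fin N × Fin N)} (hρ : IsRot x τ C ρ) {γ : Fin N × Fin N} (hγ : γ ∈ Bd x)
    (h : ex x γ.1 ≤ τ) (h' : ex x (ρ γ).2 ≤ τ) : up ρ γ ∈ Bd x ∧ (up ρ γ).1 = (ρ γ).2 ∧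
      ‖bv x (up ρ γ) - bv x γ‖ ≤ C * ex x γ.1 + 2 * (C * ex x (ρ γ).2) := by
  have mρ := hρ.mem _ hγ
  have vρ := hρ.vec _ hγ h
  have m0 := Comm.swp_mem mρ
  have m1 := hρ.mem _ m0
  have m2 := hρ.mem _ m1
  have f0 : (swp N (ρ γ)).1 = (ρ γ).2 := rfl
  have f1 : (ρ (swp N (ρ γ))).1 = (ρ γ).2 := (hρ.fst _).trans f0
  have f2 : (ρ (ρ (swp N (ρ γ)))).1 = (ρ γ).2 := (hρ.fst _).trans f1
  have v1 := hρ.vec _ m0 (by rw [f0]; exact h')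
  have v2 := hρ.vec _ m1 (by rw [f1]; exact h')
  rw [f0, Comm.swp_bv] at v1
  rw [f1] at v2
  refine ⟨m2, f2, ?_⟩
  rw [Comm.up_apply]
  have e : bv x (ρ (ρ (swp N (ρ γ)))) - bv x γ =
      (bv x (ρ (ρ (swp N (ρ γ)))) - ze * bv x (ρ (swp N (ρ γ)))) +
      ze * (bv x (ρ (swp N (ρ γ))) - ze * -bv x (ρ γ)) +
      ze ^ 2 * -(bv x (ρ γ) - ze * bv x γ) := by
    linear_combination (-bv x γ) * Comm.ze_cube
  rw [e]
  refine (norm_add₃_le).trans ?_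
  rw [norm_mul, norm_mul, norm_pow, Comm.ze_norm, one_pow, one_mul, one_mul, norm_neg]
  linarith

theorem Comm.eq_of {N : ℕ} {x : Fin N → ℂ} (hx : Sep x) {i j : Fin N} (h : ‖x i - x j‖ < 1) :
    i = j := by
  by_contra hij
  exact absurd (hx i j hij) (not_le.2 h)

theorem comm {N : ℕ} {x : Fin N → ℂ} (hx : Sep x) {τ C : ℝ} (hC : 0 ≤ C) (hCτ : C * τ ≤ 1 / 100)
    {ρ : Equiv.Perm (Fin N × Fin N)} (hρ : IsRot x τ C ρ) {γ : Fin N × Fin N} (hγ : γ ∈ Bd x)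
    (h1 : ex x γ.1 ≤ τ) (h2 : ex x γ.2 ≤ τ) (h3 : ex x (up ρ γ).1 ≤ τ) (h4 : ex x (up ρ γ).2 ≤ τ) :
    up ρ (fw ρ γ) = fw ρ (up ρ γ) := by
  have hb : ∀ i, ex x i ≤ τ → C * ex x i ≤ 1 / 100 := fun i hi =>
    (mul_le_mul_of_nonneg_left hi hC).trans hCτ
  have eu : (up ρ γ).1 = (ρ γ).2 := by
    rw [Comm.up_apply, hρ.fst, hρ.fst, Comm.swp_fst]
  obtain ⟨u1, u2, u3⟩ := Comm.up_vec hρ hγ h1 (by rw [← eu]; exact h3)
  obtain ⟨a1, a2, a3⟩ := fw_vec hx hC hρ hγ h2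
  obtain ⟨b1, b2, b3⟩ := fw_vec hx hC hρ u1 h4
  have vρ := hρ.vec _ hγ h1
  have vf := hρ.vec _ a1 (by rw [a2]; exact h2)
  rw [a2] at vf
  have k1 := hb _ h1
  have k2 := hb _ h2
  have k3 := hb _ h3
  have k4 := hb _ h4
  rw [eu] at k3
  -- the first particle
  have hq : (ρ (fw ρ γ)).2 = (up ρ γ).2 := by
    refine Comm.eq_of hx ?_
    have e : x (ρ (fw ρ γ)).2 - x (up ρ γ).2 =
        (bv x (ρ (fw ρ γ)) - ze * bv x (fw ρ γ)) + ze * (bv x (fw ρ γ) - bv x γ) -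
        (bv x (up ρ γ) - bv x γ) - (bv x (ρ γ) - ze * bv x γ) := by
      have e1 : bv x (ρ (fw ρ γ)) = x (ρ (fw ρ γ)).2 - x γ.2 := by
        unfold bv
        rw [hρ.fst, a2]
      have e2 : bv x (up ρ γ) = x (up ρ γ).2 - x (ρ γ).2 := by
        unfold bv
        rw [eu]
      have e3 : bv x (ρ γ) = x (ρ γ).2 - x γ.1 := by
        unfold bv
        rw [hρ.fst]
      have e4 : bv x γ = x γ.2 - x γ.1 := rfl
      rw [e1, e2, e3]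
      linear_combination (-1 : ℂ) * e4
    rw [e]
    have n1 := norm_sub_le ((bv x (ρ (fw ρ γ)) - ze * bv x (fw ρ γ)) +
      ze * (bv x (fw ρ γ) - bv x γ) - (bv x (up ρ γ) - bv x γ)) (bv x (ρ γ) - ze * bv x γ)
    have n2 := norm_sub_le ((bv x (ρ (fw ρ γ)) - ze * bv x (fw ρ γ)) +
      ze * (bv x (fw ρ γ) - bv x γ)) (bv x (up ρ γ) - bv x γ)
    have n3 := norm_add_le (bv x (ρ (fw ρ γ)) - ze * bv x (fw ρ γ))
      (ze * (bv x (fw ρ γ) - bv x γ))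
    rw [norm_mul, Comm.ze_norm, one_mul] at n3
    linarith
  obtain ⟨w1, w2, w3⟩ := Comm.up_vec hρ a1 (by rw [a2]; exact h2) (by rw [hq]; exact h4)
  rw [a2, hq] at w3
  have hf : (up ρ (fw ρ γ)).1 = (fw ρ (up ρ γ)).1 := by rw [w2, hq, b2]
  have hs : (up ρ (fw ρ γ)).2 = (fw ρ (up ρ γ)).2 := by
    refine Comm.eq_of hx ?_
    have e : x (up ρ (fw ρ γ)).2 - x (fw ρ (up ρ γ)).2 =
        (bv x (up ρ (fw ρ γ)) - bv x (fw ρ γ)) + (bv x (fw ρ γ) - bv x γ) -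
        (bv x (fw ρ (up ρ γ)) - bv x (up ρ γ)) - (bv x (up ρ γ) - bv x γ) := by
      have e1 : bv x (up ρ (fw ρ γ)) = x (up ρ (fw ρ γ)).2 - x (up ρ (fw ρ γ)).1 := rfl
      have e2 : bv x (fw ρ (up ρ γ)) = x (fw ρ (up ρ γ)).2 - x (fw ρ (up ρ γ)).1 := rfl
      rw [e1, e2, hf]
      ring
    rw [e]
    have n1 := norm_sub_le ((bv x (up ρ (fw ρ γ)) - bv x (fw ρ γ)) + (bv x (fw ρ γ) - bv x γ) -
        (bv x (fw ρ (up ρ γ)) - bv x (up ρ γ))) (bv x (up ρ γ) - bv x γ)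
    have n2 := norm_sub_le ((bv x (up ρ (fw ρ γ)) - bv x (fw ρ γ)) + (bv x (fw ρ γ) - bv x γ))
        (bv x (fw ρ (up ρ γ)) - bv x (up ρ γ))
    have n3 := norm_add_le (bv x (up ρ (fw ρ γ)) - bv x (fw ρ γ)) (bv x (fw ρ γ) - bv x γ)
    linarith
  exact Prod.ext hf hs

end Pool.Agent.J4.H83.OO
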