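import Pool.Agent.J4.H83.OO.Defs

/-!
# The number of bonds which violate the hypotheses on the strip
-/

set_option autoImplicit false

open MeasureTheory Set

namespace Pool.Agent.J4.H83.OO

open Pool.Agent.J4.H83.FV Pool.Agent.J4.H83.HD

namespace CountO

variable {N : ℕ} {x : Fin N → ℂ}

lemma mem_Bd {p : Fin N × Fin N} : p ∈ Bd x ↔ p.2 ∈ Nbr x p.1 := by
  unfold Bd
  rw [Finset.mem_filter]
  exact ⟨fun h => h.2, fun h => ⟨Finset.mem_univ _, h⟩⟩

lemma nbr_symm {i j : Fin N} (h : j ∈ Nbr x i) : i ∈ Nbr x j := by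
  unfold Nbr at h ⊢
  rw [Finset.mem_filter] at h ⊢
  refine ⟨Finset.mem_univ _, h.2.1.symm, ?_⟩
  rw [norm_sub_rev]
  exact h.2.2

lemma swp_mem {p : Fin N × Fin N} (h : p ∈ Bd x) : swp N p ∈ Bd x := by
  rw [mem_Bd] at h ⊢
  exact nbr_symm h

/-- at most twelve neighbours: the disks of radius `1/2` are disjoint and in a disk of radius `1.66` -/
lemma nbr_card' (hx : Sep x) (i : Fin N) : (Nbr x i).card ≤ 12 := by
  have hd : Set.PairwiseDisjoint (↑(Nbr x i)) fun j => Metric.ball (x j) (1 / 2 : ℝ) := by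
    intro j _ k _ hjk
    refine Metric.ball_disjoint_ball ?_
    rw [dist_eq_norm]
    have := hx j k hjk
    linarith
  have hsub : (⋃ j ∈ Nbr x i, Metric.ball (x j) (1 / 2 : ℝ)) ⊆ Metric.ball (x i) (1.66 : ℝ) := by
    refine iUnion₂_subset fun j hj => ?_
    refine Metric.ball_subset_ball' ?_
    unfold Nbr at hj
    rw [Finset.mem_filter] at hj
    rw [dist_eq_norm]
    have h1 := hj.2.2
    have h2 := R_lt
    linarith
  have h1 := measure_mono (μ := volume) hsub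
  rw [measure_biUnion_finset hd fun j _ => measurableSet_ball] at h1
  simp only [Complex.volume_ball] at h1
  rw [Finset.sum_const, nsmul_eq_mul] at h1
  have h3 : ((Nbr x i).card : ℝ) * ((1 / 2) ^ 2 * Real.pi) ≤ 1.66 ^ 2 * Real.pi := by
    have h4 := ENNReal.toReal_mono (by
      exact ENNReal.mul_ne_top (ENNReal.pow_ne_top ENNReal.ofReal_ne_top) ENNReal.coe_ne_top) h1
    rw [ENNReal.toReal_mul, ENNReal.toReal_mul, ENNReal.toReal_mul, ENNReal.toReal_pow,
      ENNReal.toReal_pow, ENNReal.toReal_ofReal (by norm_num), ENNReal.toReal_ofReal (by norm_num),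
      ENNReal.toReal_natCast, ENNReal.coe_toReal, NNReal.coe_real_pi] at h4
    exact h4
  have hpi := Real.pi_pos
  have h5 : ((Nbr x i).card : ℝ) * (1 / 2) ^ 2 ≤ 1.66 ^ 2 := by
    rw [← mul_assoc] at h3
    exact le_of_mul_le_mul_right h3 hpi
  have h6 : ((Nbr x i).card : ℝ) < 12 := by
    norm_num at h5
    linarith
  have h7 : (Nbr x i).card < 12 := by exact_mod_cast h6
  exact h7.le

lemma sum_Bd (hx : Sep x) (g : Fin N → ℝ) (hg : ∀ i, 0 ≤ g i) :
    ∑ β ∈ Bd x, g β.1 ≤ 12 * ∑ i, g i := by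
  have h1 : ∑ β ∈ Bd x, g β.1 = ∑ i, ((Nbr x i).card : ℝ) * g i := by
    unfold Bd
    rw [Finset.sum_filter, ← Finset.univ_product_univ, Finset.sum_product]
    refine Finset.sum_congr rfl fun i _ => ?_
    dsimp only
    rw [← Finset.sum_filter, Finset.sum_const, nsmul_eq_mul, Finset.filter_mem_eq_inter,
      Finset.univ_inter]
  rw [h1, Finset.mul_sum]
  refine Finset.sum_le_sum fun i _ => ?_
  refine mul_le_mul_of_nonneg_right ?_ (hg i)
  exact_mod_cast nbr_card' hx i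

/-- a permutation which preserves the bonds -/
lemma sum_perm (σ : Equiv.Perm (Fin N × Fin N)) (h : ∀ p ∈ Bd x, σ p ∈ Bd x)
    (g : Fin N × Fin N → ℝ) : ∑ β ∈ Bd x, g (σ β) = ∑ β ∈ Bd x, g β := by
  have himg : (Bd x).image σ = Bd x := by
    refine Finset.eq_of_subset_of_card_le (Finset.image_subset_iff.2 h) ?_
    rw [Finset.card_image_of_injective _ σ.injective]
  have h1 := Finset.sum_image (s := Bd x) (g := σ) (f := g) fun a _ b _ hab => σ.injective hab
  rw [himg] at h1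
  exact h1.symm

lemma pow_mem (σ : Equiv.Perm (Fin N × Fin N)) (h : ∀ p ∈ Bd x, σ p ∈ Bd x) (n : ℕ) :
    ∀ p ∈ Bd x, (σ ^ n) p ∈ Bd x := by
  induction n with
  | zero => intro p hp; exact hp
  | succ n ih =>
    intro p hp
    rw [pow_succ, Equiv.Perm.mul_apply]
    exact ih _ (h p hp)

variable {τ C : ℝ} {ρ : Equiv.Perm (Fin N × Fin N)}

lemma fw_mem (hρ : IsRot x τ C ρ) : ∀ p ∈ Bd x, fw ρ p ∈ Bd x := by
  intro p hp
  unfold fw
  simp only [Equiv.Perm.mul_apply]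
  exact hρ.mem _ (hρ.mem _ (hρ.mem _ (swp_mem hp)))

lemma up_mem (hρ : IsRot x τ C ρ) : ∀ p ∈ Bd x, up ρ p ∈ Bd x := by
  intro p hp
  unfold up
  simp only [Equiv.Perm.mul_apply]
  exact hρ.mem _ (hρ.mem _ (swp_mem (hρ.mem _ hp)))

lemma sum_shift (hx : Sep x) (hρ : IsRot x τ C ρ) (g : Fin N → ℝ) (hg : ∀ i, 0 ≤ g i) (n y : ℕ) :
    ∑ β ∈ Bd x, g ((fw ρ ^ n) ((up ρ ^ y) β)).1 ≤ 12 * ∑ i, g i := by
  rw [sum_perm (up ρ ^ y) (pow_mem _ (up_mem hρ) y) fun β => g ((fw ρ ^ n) β).1,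
    sum_perm (fw ρ ^ n) (pow_mem _ (fw_mem hρ) n) fun β => g β.1]
  exact sum_Bd hx g hg

/-- Markov's inequality -/
lemma markov {α : Type*} (s : Finset α) (G : α → ℝ) (hG : ∀ a ∈ s, 0 ≤ G a) (a : ℝ) (ha : 0 < a)
    (M : ℝ) (hM : ∑ b ∈ s, G b ≤ M) : ((s.filter fun b => a ≤ G b).card : ℝ) ≤ M / a := by
  rw [le_div_iff₀ ha]
  have h1 : ∑ b ∈ s.filter (fun b => a ≤ G b), a ≤ ∑ b ∈ s.filter (fun b => a ≤ G b), G b :=
    Finset.sum_le_sum fun b hb => (Finset.mem_filter.1 hb).2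
  have h2 : ∑ b ∈ s.filter (fun b => a ≤ G b), G b ≤ ∑ b ∈ s, G b :=
    Finset.sum_le_sum_of_subset_of_nonneg (Finset.filter_subset _ _) fun b hb _ => hG b hb
  rw [Finset.sum_const, nsmul_eq_mul] at h1
  linarith

end CountO

open CountO in
theorem count_fail {N : ℕ} (x : Fin N → ℂ) (hx : Sep x) (τ C : ℝ) (ρ : Equiv.Perm (Fin N × Fin N))
    (hex0 : ∀ i, 0 ≤ ex x i) (hρ : IsRot x τ C ρ) (X H : ℕ) (A S D : ℝ) (hH : 1 ≤ H) (hA : 0 < A)
    (hS : ∑ i, ex x i ≤ S) (hD : ((Finset.univ.filter fun i => τ < ex x i).card : ℝ) ≤ D)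
    (B : Finset (Fin N × Fin N)) (hB : ∀ β ∈ B, β ∈ Bd x ∧ ¬ Cond x ρ X H A τ β) :
    (B.card : ℝ) ≤ 12 * (X + 2) * ((H + 1) * D + 4 * S / A) := by
  classical
  have hS0 : 0 ≤ S := (Finset.sum_nonneg fun i _ => hex0 i).trans hS
  have hHr : (1 : ℝ) ≤ H := by exact_mod_cast hH
  -- the bad events
  obtain ⟨g1, hg1⟩ : ∃ g : Fin N → ℝ, g = fun i => if τ < ex x i then 1 else 0 := ⟨_, rfl⟩
  have hg1n : ∀ i, 0 ≤ g1 i := by
    intro i
    rw [hg1]
    dsimp only
    split_ifs <;> norm_num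
  have hg1s : ∑ i, g1 i ≤ D := by
    rw [hg1, Finset.sum_boole]
    exact hD
  obtain ⟨G1, hG1⟩ : ∃ G : Fin N × Fin N → ℝ, G = fun β => ∑ n ∈ Finset.range (X + 2),
    ∑ y ∈ Finset.range (H + 1), g1 ((fw ρ ^ n) ((up ρ ^ y) β)).1 := ⟨_, rfl⟩
  obtain ⟨G2, hG2⟩ : ∃ G : Fin N × Fin N → ℝ, G = fun β => ∑ n ∈ Finset.range (X + 1),
    ex x ((fw ρ ^ n) β).1 := ⟨_, rfl⟩
  obtain ⟨G3, hG3⟩ : ∃ G : Fin N × Fin N → ℝ, G = fun β => ∑ n ∈ Finset.range (X + 1),
    ex x ((fw ρ ^ n) ((up ρ ^ H) β)).1 := ⟨_, rfl⟩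
  obtain ⟨G4, hG4⟩ : ∃ G : Fin N × Fin N → ℝ, G = fun β => ∑ y ∈ Finset.range (H + 1),
    ∑ n ∈ Finset.range (X + 1), ex x ((fw ρ ^ n) ((up ρ ^ y) β)).1 := ⟨_, rfl⟩
  have s1 : ∑ β ∈ Bd x, G1 β ≤ (X + 2) * ((H + 1) * (12 * D)) := by
    rw [hG1]
    rw [Finset.sum_comm]
    refine (Finset.sum_le_card_nsmul _ _ ((H + 1) * (12 * D)) fun n _ => ?_).trans_eq ?_
    · rw [Finset.sum_comm]
      refine (Finset.sum_le_card_nsmul _ _ (12 * D) fun y _ => ?_).trans_eq ?_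
      · exact (sum_shift hx hρ g1 hg1n n y).trans (by linarith)
      · rw [Finset.card_range, nsmul_eq_mul]
        push_cast
        ring
    · rw [Finset.card_range, nsmul_eq_mul]
      push_cast
      ring
  have s2 : ∑ β ∈ Bd x, G2 β ≤ (X + 1) * (12 * S) := by
    rw [hG2]
    rw [Finset.sum_comm]
    refine (Finset.sum_le_card_nsmul _ _ (12 * S) fun n _ => ?_).trans_eq ?_
    · exact (sum_shift hx hρ (ex x) hex0 n 0).trans (by linarith)
    · rw [Finset.card_range, nsmul_eq_mul]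
      push_cast
      ring
  have s3 : ∑ β ∈ Bd x, G3 β ≤ (X + 1) * (12 * S) := by
    rw [hG3]
    rw [Finset.sum_comm]
    refine (Finset.sum_le_card_nsmul _ _ (12 * S) fun n _ => ?_).trans_eq ?_
    · exact (sum_shift hx hρ (ex x) hex0 n H).trans (by linarith)
    · rw [Finset.card_range, nsmul_eq_mul]
      push_cast
      ring
  have s4 : ∑ β ∈ Bd x, G4 β ≤ (H + 1) * ((X + 1) * (12 * S)) := by
    rw [hG4]
    rw [Finset.sum_comm]
    refine (Finset.sum_le_card_nsmul _ _ ((X + 1) * (12 * S)) fun y _ => ?_).trans_eq ?_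
    · rw [Finset.sum_comm]
      refine (Finset.sum_le_card_nsmul _ _ (12 * S) fun n _ => ?_).trans_eq ?_
      · exact (sum_shift hx hρ (ex x) hex0 n y).trans (by linarith)
      · rw [Finset.card_range, nsmul_eq_mul]
        push_cast
        ring
    · rw [Finset.card_range, nsmul_eq_mul]
      push_cast
      ring
  have n1 : ∀ β, 0 ≤ G1 β := fun β => by
    rw [hG1]
    exact Finset.sum_nonneg fun n _ => Finset.sum_nonneg fun y _ => hg1n _
  have n2 : ∀ β, 0 ≤ G2 β := fun β => by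
    rw [hG2]
    exact Finset.sum_nonneg fun n _ => hex0 _
  have n3 : ∀ β, 0 ≤ G3 β := fun β => by
    rw [hG3]
    exact Finset.sum_nonneg fun n _ => hex0 _
  have n4 : ∀ β, 0 ≤ G4 β := fun β => by
    rw [hG4]
    exact Finset.sum_nonneg fun y _ => Finset.sum_nonneg fun n _ => hex0 _
  have hAH : 0 < A * H := by positivity
  have m1 := markov (Bd x) G1 (fun β _ => n1 β) 1 one_pos _ s1
  have m2 := markov (Bd x) G2 (fun β _ => n2 β) A hA _ s2
  have m3 := markov (Bd x) G3 (fun β _ => n3 β) A hA _ s3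
  have m4 := markov (Bd x) G4 (fun β _ => n4 β) (A * H) hAH _ s4
  have hsub : B ⊆ ((Bd x).filter fun b => 1 ≤ G1 b) ∪ (((Bd x).filter fun b => A ≤ G2 b) ∪
      (((Bd x).filter fun b => A ≤ G3 b) ∪ ((Bd x).filter fun b => A * H ≤ G4 b))) := by
    intro β hβ
    obtain ⟨hb, hc⟩ := hB β hβ
    simp only [Finset.mem_union, Finset.mem_filter]
    by_contra hcon
    push Not at hcon
    obtain ⟨c1, c2, c3, c4⟩ := hcon
    apply hc
    refine ⟨fun n hn y hy => ?_, ?_, ?_, ?_⟩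
    · by_contra hlt
      push Not at hlt
      have hc1 := c1 hb
      have h1 : (1 : ℝ) ≤ G1 β := by
        have hv : g1 ((fw ρ ^ n) ((up ρ ^ y) β)).1 = 1 := by
          rw [hg1]
          exact if_pos hlt
        have ha : g1 ((fw ρ ^ n) ((up ρ ^ y) β)).1 ≤
            ∑ y ∈ Finset.range (H + 1), g1 ((fw ρ ^ n) ((up ρ ^ y) β)).1 :=
          Finset.single_le_sum (f := fun y => g1 ((fw ρ ^ n) ((up ρ ^ y) β)).1)
            (fun y _ => hg1n _) (Finset.mem_range.2 (by omega))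
        have hb' : ∑ y ∈ Finset.range (H + 1), g1 ((fw ρ ^ n) ((up ρ ^ y) β)).1 ≤ G1 β := by
          rw [hG1]
          exact Finset.single_le_sum
            (f := fun n => ∑ y ∈ Finset.range (H + 1), g1 ((fw ρ ^ n) ((up ρ ^ y) β)).1)
            (fun n _ => Finset.sum_nonneg fun y _ => hg1n _) (Finset.mem_range.2 (by omega))
        linarith
      linarith
    · have := c2 hb
      rw [hG2] at this
      exact this.le
    · have := c3 hb
      rw [hG3] at this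
      exact this.le
    · have := c4 hb
      rw [hG4] at this
      exact this.le
  have hcard : (B.card : ℝ) ≤ (((Bd x).filter fun b => 1 ≤ G1 b).card : ℝ) +
      ((((Bd x).filter fun b => A ≤ G2 b).card : ℝ) + ((((Bd x).filter fun b => A ≤ G3 b).card : ℝ) +
      (((Bd x).filter fun b => A * H ≤ G4 b).card : ℝ))) := by
    have h1 := Finset.card_le_card hsub
    have h2 := Finset.card_union_le ((Bd x).filter fun b => 1 ≤ G1 b)
      (((Bd x).filter fun b => A ≤ G2 b) ∪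
      (((Bd x).filter fun b => A ≤ G3 b) ∪ ((Bd x).filter fun b => A * H ≤ G4 b)))
    have h3 := Finset.card_union_le ((Bd x).filter fun b => A ≤ G2 b)
      (((Bd x).filter fun b => A ≤ G3 b) ∪ ((Bd x).filter fun b => A * H ≤ G4 b))
    have h4 := Finset.card_union_le ((Bd x).filter fun b => A ≤ G3 b)
      ((Bd x).filter fun b => A * H ≤ G4 b)
    exact_mod_cast (show B.card ≤ ((Bd x).filter fun b => 1 ≤ G1 b).card +
      (((Bd x).filter fun b => A ≤ G2 b).card + (((Bd x).filter fun b => A ≤ G3 b).card +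
      ((Bd x).filter fun b => A * H ≤ G4 b).card)) by omega)
  have hX : (0 : ℝ) ≤ X := Nat.cast_nonneg X
  have hq : 0 ≤ S / A := div_nonneg hS0 hA.le
  have k2 : ((X : ℝ) + 1) * (12 * S) / A = 12 * (X + 1) * (S / A) := by ring
  have k4 : ((H : ℝ) + 1) * ((X + 1) * (12 * S)) / (A * H) ≤ 24 * (X + 1) * (S / A) := by
    have hH0 : (0 : ℝ) < H := by linarith
    have e : ((H : ℝ) + 1) * ((X + 1) * (12 * S)) / (A * H) =
        ((H + 1) / H) * (12 * (X + 1) * (S / A)) := by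
      field_simp
    have h2 : ((H : ℝ) + 1) / H ≤ 2 := by
      rw [div_le_iff₀ hH0]
      linarith
    have h0 : 0 ≤ 12 * ((X : ℝ) + 1) * (S / A) := by positivity
    rw [e]
    calc ((H : ℝ) + 1) / H * (12 * (X + 1) * (S / A)) ≤ 2 * (12 * (X + 1) * (S / A)) :=
          mul_le_mul_of_nonneg_right h2 h0
      _ = 24 * (X + 1) * (S / A) := by ring
  have k5 : 12 * ((X : ℝ) + 2) * ((H + 1) * D + 4 * S / A) =
      (X + 2) * ((H + 1) * (12 * D)) + 48 * (X + 1) * (S / A) + 48 * (S / A) := by ring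
  rw [div_one] at m1
  rw [k2] at m2 m3
  rw [k5]
  have k6 : 12 * ((X : ℝ) + 1) * (S / A) + (12 * (X + 1) * (S / A) + 24 * (X + 1) * (S / A)) =
      48 * (X + 1) * (S / A) := by ring
  linarith

end Pool.Agent.J4.H83.OO
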