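import Pool.Agent.J4.H83.OO.Defs

/-! Piece BEND of project OO (helper83), by helper46: a long strip of lattice rows does not bend. -/

set_option autoImplicit false

namespace Pool.Agent.J4.H83.OO.Bend

open Finset

/-- the direction of a vector -/
noncomputable def dir (b : ℂ) : ℂ := b / (‖b‖ : ℂ)

theorem dir_norm {b : ℂ} (h : 1 ≤ ‖b‖) : ‖dir b‖ = 1 := by
  unfold dir
  rw [norm_div, Complex.norm_real, Real.norm_eq_abs, abs_of_nonneg (norm_nonneg b), div_self (by linarith)]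

theorem dir_mul {b : ℂ} (h : 1 ≤ ‖b‖) : (‖b‖ : ℂ) * dir b = b := by
  have h1 : (‖b‖ : ℂ) ≠ 0 := by
    rw [Ne, Complex.ofReal_eq_zero]; linarith
  unfold dir
  field_simp

theorem dir_sub {b b' : ℂ} (h : 1 ≤ ‖b‖) (h' : 1 ≤ ‖b'‖) : ‖dir b' - dir b‖ ≤ 2 * ‖b' - b‖ := by
  have e1 : (‖b'‖ : ℂ) * (dir b' - dir b) = (b' - b) + ((‖b‖ - ‖b'‖ : ℝ) : ℂ) * dir b := by
    have h1 := dir_mul h
    have h2 := dir_mul h'
    push_cast
    linear_combination h2 - h1
  have h3 : ‖(‖b'‖ : ℂ) * (dir b' - dir b)‖ ≤ 2 * ‖b' - b‖ := by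
    rw [e1]
    refine (norm_add_le _ _).trans ?_
    rw [norm_mul, dir_norm h, mul_one, Complex.norm_real, Real.norm_eq_abs]
    have := abs_norm_sub_norm_le b b'
    rw [norm_sub_rev b b'] at this
    linarith
  rw [norm_mul, Complex.norm_real, Real.norm_eq_abs, abs_of_nonneg (norm_nonneg b')] at h3
  have h4 := norm_nonneg (dir b' - dir b)
  nlinarith

/-- the angle from `t` to `t'` -/
noncomputable def ang (t t' : ℂ) : ℝ := Complex.arg (t' / t)

theorem ang_spec {t t' : ℂ} (h : ‖t‖ = 1) (h' : ‖t'‖ = 1) : Complex.exp (ang t t' * Complex.I) * t = t' := by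
  have h0 : t ≠ 0 := by
    intro h0; rw [h0, norm_zero] at h; norm_num at h
  have h1 := Complex.norm_mul_exp_arg_mul_I (t' / t)
  rw [norm_div, h, h', div_one, Complex.ofReal_one, one_mul] at h1
  unfold ang
  rw [h1, div_mul_cancel₀ _ h0]

theorem ang_le {t t' : ℂ} (h : ‖t‖ = 1) (h' : ‖t'‖ = 1) : |ang t t'| ≤ 2 * ‖t' - t‖ := by
  set φ := ang t t' with hφ
  have h1 : ‖t' - t‖ = 2 * |Real.sin (φ / 2)| := by
    have e1 : t' - t = (Complex.exp (Complex.I * φ) - 1) * t := by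
      rw [sub_mul, one_mul, mul_comm Complex.I, ang_spec h h']
    rw [e1, norm_mul, h, mul_one, Complex.norm_exp_I_mul_ofReal_sub_one, Real.norm_eq_abs, abs_mul, abs_two]
  have h2 : |φ| ≤ Real.pi := Complex.abs_arg_le_pi _
  have h3 : 2 / Real.pi * (|φ| / 2) ≤ Real.sin (|φ| / 2) :=
    Real.mul_le_sin (by positivity) (by linarith)
  have h4 : Real.sin (|φ| / 2) ≤ |Real.sin (φ / 2)| := by
    rcases abs_cases φ with ⟨h5, _⟩ | ⟨h5, _⟩
    · rw [h5]; exact le_abs_self _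
    · rw [h5, neg_div, Real.sin_neg]; exact neg_le_abs _
  have h5 : |φ| ≤ Real.pi * Real.sin (|φ| / 2) := by
    have hp := Real.pi_pos
    have h6 : Real.pi * (2 / Real.pi * (|φ| / 2)) = |φ| := by field_simp
    have h7 := mul_le_mul_of_nonneg_left h3 hp.le
    linarith
  have h6 := Real.pi_le_four
  have h7 : 0 ≤ |Real.sin (φ / 2)| := abs_nonneg _
  rw [h1]
  calc |φ| ≤ Real.pi * Real.sin (|φ| / 2) := h5
    _ ≤ Real.pi * |Real.sin (φ / 2)| := mul_le_mul_of_nonneg_left h4 Real.pi_pos.le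
    _ ≤ 2 * (2 * |Real.sin (φ / 2)|) := by nlinarith

theorem ang_comm {a b c d : ℂ} (ha : ‖a‖ = 1) (hb : ‖b‖ = 1) (hc : ‖c‖ = 1) (hd : ‖d‖ = 1)
    (h1 : |ang a b| ≤ 1) (h2 : |ang b d| ≤ 1) (h3 : |ang a c| ≤ 1) (h4 : |ang c d| ≤ 1) :
    ang a b + ang b d = ang a c + ang c d := by
  have h0 : a ≠ 0 := by
    intro h0; rw [h0, norm_zero] at ha; norm_num at ha
  have e1 : Complex.exp ((ang a b + ang b d : ℝ) * Complex.I) * a = d := by
    push_cast
    rw [add_mul, Complex.exp_add, mul_comm (Complex.exp (ang a b * Complex.I)), mul_assoc, ang_spec ha hb,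
      ang_spec hb hd]
  have e2 : Complex.exp ((ang a c + ang c d : ℝ) * Complex.I) * a = d := by
    push_cast
    rw [add_mul, Complex.exp_add, mul_comm (Complex.exp (ang a c * Complex.I)), mul_assoc, ang_spec ha hc,
      ang_spec hc hd]
  have e3 := mul_right_cancel₀ h0 (e1.trans e2.symm)
  rw [Complex.exp_eq_exp_iff_exists_int] at e3
  obtain ⟨n, hn⟩ := e3
  have e4 := congrArg Complex.im hn
  have e5 : ang a b + ang b d = ang a c + ang c d + n * (2 * Real.pi) := by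
    simpa using e4
  have h5 := abs_le.1 h1
  have h6 := abs_le.1 h2
  have h7 := abs_le.1 h3
  have h8 := abs_le.1 h4
  have hp := Real.pi_gt_three
  have hn0 : n = 0 := by
    by_contra hne
    rcases Int.lt_or_gt_of_ne hne with hlt | hgt
    · have : (n : ℝ) ≤ -1 := by exact_mod_cast Int.le_sub_one_of_lt hlt
      nlinarith
    · have : (1 : ℝ) ≤ n := by exact_mod_cast hgt
      nlinarith
  rw [e5, hn0]; simp

/-- first order expansion of the norm -/
theorem norm_exp {b w : ℂ} (h : 1 ≤ ‖b‖) (hw : ‖w‖ ≤ 1 / 2) :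
    |‖b + w‖ - ‖b‖ - ((starRingEnd ℂ) (dir b) * w).re| ≤ ‖w‖ ^ 2 := by
  set s := ((starRingEnd ℂ) (dir b) * w).re with hs
  have h1 : |s| ≤ ‖w‖ := by
    refine (Complex.abs_re_le_norm _).trans (le_of_eq ?_)
    rw [norm_mul, Complex.norm_conj, dir_norm h, one_mul]
  have h2 : ‖b + w‖ ^ 2 = ‖b‖ ^ 2 + 2 * (‖b‖ * s) + ‖w‖ ^ 2 := by
    have e1 : ‖b‖ * s = ((starRingEnd ℂ) b * w).re := by
      have : (starRingEnd ℂ) b = (‖b‖ : ℂ) * (starRingEnd ℂ) (dir b) := by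
        conv_lhs => rw [← dir_mul h]
        rw [map_mul, Complex.conj_ofReal]
      rw [this, mul_assoc, Complex.re_ofReal_mul]
    rw [e1, ← Complex.normSq_eq_norm_sq, ← Complex.normSq_eq_norm_sq, ← Complex.normSq_eq_norm_sq, Complex.normSq_add]
    have : (b * (starRingEnd ℂ) w).re = ((starRingEnd ℂ) b * w).re := by
      simp [Complex.mul_re]
    rw [this]; ring
  have h3 := abs_le.1 h1
  have h4 : 1 / 2 ≤ ‖b + w‖ := by
    have := norm_sub_le (b + w) w
    rw [add_sub_cancel_right] at this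
    linarith
  have h5 : s ^ 2 ≤ ‖w‖ ^ 2 := by
    have := pow_le_pow_left₀ (abs_nonneg s) h1 2
    rwa [sq_abs] at this
  have h6 : (‖b + w‖ - ‖b‖ - s) * (‖b + w‖ + ‖b‖ + s) = ‖w‖ ^ 2 - s ^ 2 := by
    have : (‖b + w‖ - ‖b‖ - s) * (‖b + w‖ + ‖b‖ + s) = ‖b + w‖ ^ 2 - (‖b‖ + s) ^ 2 := by ring
    rw [this, h2]; ring
  have h7 : 1 ≤ ‖b + w‖ + ‖b‖ + s := by linarith
  have h8 : 0 ≤ ‖b + w‖ - ‖b‖ - s := by
    by_contra hneg
    push Not at hneg
    nlinarith
  rw [abs_of_nonneg h8]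
  have h9 : 0 ≤ s ^ 2 := sq_nonneg s
  nlinarith

/-- trigonometric expansion -/
theorem trig (z : ℂ) (hz1 : z.re = 1 / 2) (hz2 : z.im = √3 / 2) (φ : ℝ) (h : |φ| ≤ 1) :
    |(z * (1 - Complex.exp (φ * Complex.I))).re - √3 / 2 * φ| ≤ 2 * φ ^ 2 := by
  have e1 : (z * (1 - Complex.exp (φ * Complex.I))).re = 1 / 2 * (1 - Real.cos φ) + √3 / 2 * Real.sin φ := by
    rw [Complex.mul_re, hz1, hz2, Complex.sub_re, Complex.sub_im, Complex.one_re, Complex.one_im,
      Complex.exp_ofReal_mul_I_re, Complex.exp_ofReal_mul_I_im]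
    ring
  rw [e1]
  have h1 := Real.one_sub_sq_div_two_le_cos (x := φ)
  have h2 := Real.cos_le_one φ
  have h3 : |Real.sin φ - φ| ≤ φ ^ 2 := by
    have h4 : |Real.sin φ - (φ - φ ^ 3 / 6)| ≤ |φ| ^ 5 / 100 := Real.sin_bound h
    have h5 : Real.sin φ - φ = (Real.sin φ - (φ - φ ^ 3 / 6)) - φ ^ 3 / 6 := by ring
    rw [h5]
    refine (abs_sub _ _).trans ?_
    have h6 : |φ ^ 3 / 6| = |φ| ^ 3 / 6 := by rw [abs_div, abs_pow]; norm_num
    rw [h6]
    have h0 := abs_nonneg φ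
    have h7 : |φ| ^ 3 ≤ |φ| ^ 2 := pow_le_pow_of_le_one h0 h (by norm_num)
    have h8 : |φ| ^ 5 ≤ |φ| ^ 2 := pow_le_pow_of_le_one h0 h (by norm_num)
    rw [← sq_abs φ]
    have := sq_nonneg |φ|
    linarith
  have h9 : √3 ≤ 2 := by
    rw [Real.sqrt_le_left (by norm_num)]; norm_num
  have h10 : 0 ≤ √3 := Real.sqrt_nonneg 3
  have e2 : 1 / 2 * (1 - Real.cos φ) + √3 / 2 * Real.sin φ - √3 / 2 * φ =
      1 / 2 * (1 - Real.cos φ) + √3 / 2 * (Real.sin φ - φ) := by ring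
  rw [e2]
  refine (abs_add_le _ _).trans ?_
  rw [abs_mul, abs_mul, abs_of_nonneg (by positivity : (0 : ℝ) ≤ √3 / 2), abs_of_nonneg (by norm_num : (0 : ℝ) ≤ 1 / 2),
    abs_of_nonneg (by linarith : 0 ≤ 1 - Real.cos φ)]
  have := sq_nonneg φ
  nlinarith [abs_nonneg (Real.sin φ - φ)]

/-- one row -/
theorem row (z : ℂ) (hz0 : ‖z‖ = 1) (hz1 : z.re = 1 / 2) (hz2 : z.im = √3 / 2) (X : ℕ) (b b' v : ℕ → ℂ)
    (E : ℕ → ℝ) (e : ℝ) (he : e ≤ 1 / 100) (hE : ∀ n, 0 ≤ E n ∧ E n ≤ e)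
    (hb : ∀ n ≤ X, 1 ≤ ‖b n‖ ∧ ‖b n‖ ≤ 1 + E n) (hb' : ∀ n < X, b' n = b n + (v (n + 1) - v n))
    (hv : ∀ n ≤ X, ‖v n - z * b n‖ ≤ E n) (hd : ∀ n < X, ‖b (n + 1) - b n‖ ≤ 3 * E (n + 1)) :
    |∑ n ∈ range X, (‖b' n‖ - ‖b n‖) + √3 / 2 * ∑ n ∈ range X, ang (dir (b n)) (dir (b (n + 1)))| ≤
      325 * e * ∑ n ∈ range (X + 1), E n + 2 * (E X + E 0) := by
  have he0 : 0 ≤ e := (hE 0).1.trans (hE 0).2
  set t : ℕ → ℂ := fun n => dir (b n) with ht
  have ht1 : ∀ n ≤ X, ‖t n‖ = 1 := fun n hn => dir_norm (hb n hn).1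
  -- increments
  have hw : ∀ n < X, ‖v (n + 1) - v n‖ ≤ 4 * E (n + 1) + E n := by
    intro n hn
    have e1 : v (n + 1) - v n = (v (n + 1) - z * b (n + 1)) - (v n - z * b n) + z * (b (n + 1) - b n) := by ring
    rw [e1]
    refine (norm_add_le _ _).trans ?_
    have h1 := norm_sub_le (v (n + 1) - z * b (n + 1)) (v n - z * b n)
    have h2 := hv (n + 1) (by omega)
    have h3 := hv n (by omega)
    have h4 := hd n hn
    rw [norm_mul, hz0, one_mul]
    linarith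
  -- first step
  have s1 : |∑ n ∈ range X, (‖b' n‖ - ‖b n‖) -
      ∑ n ∈ range X, ((starRingEnd ℂ) (t n) * (v (n + 1) - v n)).re| ≤
      ∑ n ∈ range X, 5 * e * (4 * E (n + 1) + E n) := by
    rw [← sum_sub_distrib]
    refine (abs_sum_le_sum_abs _ _).trans (sum_le_sum fun n hn => ?_)
    rw [mem_range] at hn
    have h1 := hw n hn
    have h2 := hE n
    have h3 := hE (n + 1)
    have h4 := norm_exp (b := b n) (w := v (n + 1) - v n) (hb n hn.le).1 (by linarith)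
    rw [hb' n hn]
    refine h4.trans ?_
    have h5 := norm_nonneg (v (n + 1) - v n)
    have h6 : ‖v (n + 1) - v n‖ ≤ 5 * e := by linarith
    rw [sq]
    exact mul_le_mul h6 h1 h5 (by linarith)
  -- summation by parts
  have s2 : ∑ n ∈ range X, ((starRingEnd ℂ) (t n) * (v (n + 1) - v n)).re =
      (((starRingEnd ℂ) (t X) * v X).re - ((starRingEnd ℂ) (t 0) * v 0).re) -
      ∑ n ∈ range X, (((starRingEnd ℂ) (t (n + 1)) - (starRingEnd ℂ) (t n)) * v (n + 1)).re := by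
    rw [← sum_range_sub (fun n => ((starRingEnd ℂ) (t n) * v n).re), ← sum_sub_distrib]
    refine sum_congr rfl fun n _ => ?_
    rw [← Complex.sub_re, ← Complex.sub_re]
    congr 1; ring
  -- boundary terms
  have s3 : ∀ n ≤ X, |((starRingEnd ℂ) (t n) * v n).re - 1 / 2| ≤ 2 * E n := by
    intro n hn
    have h1 := hb n hn
    have h2 := hE n
    have e1 : (starRingEnd ℂ) (t n) * v n = (starRingEnd ℂ) (t n) * (v n - z * b n) + (‖b n‖ : ℂ) * z := by
      have e2 : (starRingEnd ℂ) (t n) * b n = (‖b n‖ : ℂ) := by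
        conv_lhs => rw [← dir_mul h1.1]
        rw [mul_left_comm]
        change (‖b n‖ : ℂ) * ((starRingEnd ℂ) (t n) * t n) = _
        rw [mul_comm ((starRingEnd ℂ) (t n)), Complex.mul_conj, Complex.normSq_eq_norm_sq, ht1 n hn]
        simp
      linear_combination z * e2
    rw [e1, Complex.add_re, Complex.re_ofReal_mul, hz1]
    have h3 : |((starRingEnd ℂ) (t n) * (v n - z * b n)).re| ≤ E n := by
      refine (Complex.abs_re_le_norm _).trans ?_
      rw [norm_mul, Complex.norm_conj, ht1 n hn, one_mul]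
      exact hv n hn
    have h4 := abs_le.1 h3
    rw [abs_le]
    constructor <;> linarith [h1.1, h1.2, h4.1, h4.2, h2.1]
  -- the main terms
  have s4 : ∀ n < X, |(((starRingEnd ℂ) (t (n + 1)) - (starRingEnd ℂ) (t n)) * v (n + 1)).re -
      √3 / 2 * ang (t n) (t (n + 1))| ≤ 300 * (e * E (n + 1)) := by
    intro n hn
    have h1 := hb (n + 1) hn
    have h2 := hE (n + 1)
    have hn1 := ht1 n hn.le
    have hn2 := ht1 (n + 1) hn
    have hts : ‖t (n + 1) - t n‖ ≤ 6 * E (n + 1) := by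
      have := dir_sub (hb n hn.le).1 h1.1
      have := hd n hn
      change ‖dir (b (n + 1)) - dir (b n)‖ ≤ _
      linarith
    have hang : |ang (t n) (t (n + 1))| ≤ 12 * E (n + 1) := by
      have := ang_le hn1 hn2
      linarith
    set φ := ang (t n) (t (n + 1)) with hφ
    -- the perturbation
    have e1 : v (n + 1) = z * t (n + 1) + ((v (n + 1) - z * b (n + 1)) +
        z * (((‖b (n + 1)‖ - 1 : ℝ) : ℂ) * t (n + 1))) := by
      have := dir_mul h1.1
      push_cast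
      linear_combination (-z) * this
    set dl := (v (n + 1) - z * b (n + 1)) + z * (((‖b (n + 1)‖ - 1 : ℝ) : ℂ) * t (n + 1)) with hdl
    have hdl1 : ‖dl‖ ≤ 2 * E (n + 1) := by
      refine (norm_add_le _ _).trans ?_
      rw [norm_mul, norm_mul, hz0, hn2, Complex.norm_real, Real.norm_eq_abs, abs_of_nonneg (by linarith [h1.1])]
      have := hv (n + 1) hn
      linarith [h1.2]
    have e2 : ((starRingEnd ℂ) (t (n + 1)) - (starRingEnd ℂ) (t n)) * v (n + 1) =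
        z * (1 - Complex.exp (φ * Complex.I)) +
          ((starRingEnd ℂ) (t (n + 1)) - (starRingEnd ℂ) (t n)) * dl := by
      have e3 : (starRingEnd ℂ) (t (n + 1)) * t (n + 1) = 1 := by
        rw [mul_comm, Complex.mul_conj, Complex.normSq_eq_norm_sq, hn2]; simp
      have e4 : (starRingEnd ℂ) (t n) * t (n + 1) = Complex.exp (φ * Complex.I) := by
        rw [← ang_spec hn1 hn2, mul_left_comm, mul_comm ((starRingEnd ℂ) (t n)), Complex.mul_conj,
          Complex.normSq_eq_norm_sq, hn1]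
        simp [hφ]
      rw [e1]
      linear_combination z * e3 - z * e4
    rw [e2, Complex.add_re]
    have h3 : |(((starRingEnd ℂ) (t (n + 1)) - (starRingEnd ℂ) (t n)) * dl).re| ≤ 12 * (e * E (n + 1)) := by
      refine (Complex.abs_re_le_norm _).trans ?_
      rw [norm_mul, ← map_sub, Complex.norm_conj]
      have h5 : ‖t (n + 1) - t n‖ * ‖dl‖ ≤ (6 * e) * (2 * E (n + 1)) :=
        mul_le_mul (by linarith) hdl1 (norm_nonneg _) (by linarith)
      linarith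
    have h4 := trig z hz1 hz2 φ (by linarith)
    have h5 : φ ^ 2 ≤ 144 * (e * E (n + 1)) := by
      rw [← sq_abs, sq]
      have : |φ| * |φ| ≤ (12 * e) * (12 * E (n + 1)) := mul_le_mul (by linarith) hang (abs_nonneg _) (by linarith)
      linarith
    have e5 : (z * (1 - Complex.exp (φ * Complex.I))).re +
        (((starRingEnd ℂ) (t (n + 1)) - (starRingEnd ℂ) (t n)) * dl).re - √3 / 2 * φ =
        ((z * (1 - Complex.exp (φ * Complex.I))).re - √3 / 2 * φ) +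
        (((starRingEnd ℂ) (t (n + 1)) - (starRingEnd ℂ) (t n)) * dl).re := by ring
    rw [e5]
    refine (abs_add_le _ _).trans ?_
    linarith
  -- sums of errors
  have hS0 : ∑ n ∈ range X, E n ≤ ∑ n ∈ range (X + 1), E n := by
    rw [sum_range_succ]; linarith [(hE X).1]
  have hS1 : ∑ n ∈ range X, E (n + 1) ≤ ∑ n ∈ range (X + 1), E n := by
    rw [sum_range_succ' (fun n => E n)]; linarith [(hE 0).1]
  have s5 : ∑ n ∈ range X, 5 * e * (4 * E (n + 1) + E n) ≤ 25 * e * ∑ n ∈ range (X + 1), E n := by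
    rw [← mul_sum, sum_add_distrib, ← mul_sum]
    have : 4 * ∑ n ∈ range X, E (n + 1) + ∑ n ∈ range X, E n ≤ 5 * ∑ n ∈ range (X + 1), E n := by linarith
    calc 5 * e * (4 * ∑ n ∈ range X, E (n + 1) + ∑ n ∈ range X, E n)
        ≤ 5 * e * (5 * ∑ n ∈ range (X + 1), E n) := mul_le_mul_of_nonneg_left this (by linarith)
      _ = _ := by ring
  have s6 : |∑ n ∈ range X, (((starRingEnd ℂ) (t (n + 1)) - (starRingEnd ℂ) (t n)) * v (n + 1)).re -
      √3 / 2 * ∑ n ∈ range X, ang (t n) (t (n + 1))| ≤ 300 * e * ∑ n ∈ range (X + 1), E n := by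
    rw [mul_sum, ← sum_sub_distrib]
    refine (abs_sum_le_sum_abs _ _).trans ((sum_le_sum fun n hn => s4 n (mem_range.1 hn)).trans ?_)
    rw [← mul_sum, ← mul_sum, mul_assoc]
    exact mul_le_mul_of_nonneg_left (mul_le_mul_of_nonneg_left hS1 he0) (by norm_num)
  have b1 := abs_le.1 (s3 X le_rfl)
  have b2 := abs_le.1 (s3 0 (Nat.zero_le X))
  have b3 := abs_le.1 (s1.trans s5)
  have b4 := abs_le.1 s6
  rw [s2] at b3
  change |∑ n ∈ range X, (‖b' n‖ - ‖b n‖) + √3 / 2 * ∑ n ∈ range X, ang (t n) (t (n + 1))| ≤ _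
  rw [abs_le]
  constructor <;> linarith [b1.1, b1.2, b2.1, b2.2, b3.1, b3.2, b4.1, b4.2]

/-- the key lemma, for a given `z` -/
theorem bend_aux (z : ℂ) (hz0 : ‖z‖ = 1) (hz1 : z.re = 1 / 2) (hz2 : z.im = √3 / 2) (X H : ℕ)
    (P : ℕ → ℕ → ℂ) (E : ℕ → ℕ → ℝ) (e : ℝ) (hH : 1 ≤ H) (he0 : 0 ≤ e) (he : e ≤ 1 / 100)
    (hE : ∀ n y, 0 ≤ E n y ∧ E n y ≤ e)
    (hb : ∀ n ≤ X, ∀ y ≤ H, 1 ≤ ‖P (n + 1) y - P n y‖ ∧ ‖P (n + 1) y - P n y‖ ≤ 1 + E n y)
    (hv : ∀ n ≤ X, ∀ y < H, ‖(P n (y + 1) - P n y) - z * (P (n + 1) y - P n y)‖ ≤ E n y)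
    (hd : ∀ n < X, ∀ y ≤ H, ‖(P (n + 2) y - P (n + 1) y) - (P (n + 1) y - P n y)‖ ≤ 3 * E (n + 1) y) :
    ‖(P (X + 1) 0 - P X 0) - (P 1 0 - P 0 0)‖ ≤
      650 * ((∑ n ∈ range (X + 1), E n 0 + ∑ n ∈ range (X + 1), E n H) / H + H * e +
        e / H * ∑ y ∈ range (H + 1), ∑ n ∈ range (X + 1), E n y) := by
  set b : ℕ → ℕ → ℂ := fun n y => P (n + 1) y - P n y with hbd
  set v : ℕ → ℕ → ℂ := fun n y => P n (y + 1) - P n y with hvd
  set t : ℕ → ℕ → ℂ := fun n y => dir (b n y) with htd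
  have hb1 : ∀ n ≤ X, ∀ y ≤ H, 1 ≤ ‖b n y‖ ∧ ‖b n y‖ ≤ 1 + E n y := hb
  have hd1 : ∀ n < X, ∀ y ≤ H, ‖b (n + 1) y - b n y‖ ≤ 3 * E (n + 1) y := hd
  have hv1 : ∀ n ≤ X, ∀ y < H, ‖v n y - z * b n y‖ ≤ E n y := hv
  have ht1 : ∀ n ≤ X, ∀ y ≤ H, ‖t n y‖ = 1 := fun n hn y hy => dir_norm (hb1 n hn y hy).1
  have hsq : ∀ n y, b n (y + 1) = b n y + (v (n + 1) y - v n y) := by
    intro n y; simp only [hbd, hvd]; ring
  -- vertical increments
  have hver : ∀ n < X, ∀ y < H, ‖b n (y + 1) - b n y‖ ≤ 5 * e := by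
    intro n hn y hy
    have e1 : b n (y + 1) - b n y = (v (n + 1) y - z * b (n + 1) y) - (v n y - z * b n y) +
        z * (b (n + 1) y - b n y) := by rw [hsq]; ring
    rw [e1]
    refine (norm_add_le _ _).trans ?_
    have h1 := norm_sub_le (v (n + 1) y - z * b (n + 1) y) (v n y - z * b n y)
    have h2 := hv1 (n + 1) hn y hy
    have h3 := hv1 n hn.le y hy
    have h4 := hd1 n hn y hy.le
    have h5 := hE n y
    have h6 := hE (n + 1) y
    rw [norm_mul, hz0, one_mul]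
    linarith
  have hver' : 1 ≤ X → ∀ n ≤ X, ∀ y < H, ‖b n (y + 1) - b n y‖ ≤ 11 * e := by
    intro hX n hn y hy
    rcases Nat.lt_or_ge n X with h | h
    · exact (hver n h y hy).trans (by linarith)
    · obtain ⟨m, hm⟩ : ∃ m, X = m + 1 := ⟨X - 1, by omega⟩
      have hnX : n = m + 1 := by omega
      have h1 := hver m (by omega) y hy
      have h2 := hd1 m (by omega) y hy.le
      have h3 := hd1 m (by omega) (y + 1) hy
      have h4 := hE (m + 1) y
      have h5 := hE (m + 1) (y + 1)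
      rw [hnX]
      have e1 : b (m + 1) (y + 1) - b (m + 1) y = (b (m + 1) (y + 1) - b m (y + 1)) +
          (b m (y + 1) - b m y) - (b (m + 1) y - b m y) := by ring
      rw [e1]
      have h6 := norm_sub_le ((b (m + 1) (y + 1) - b m (y + 1)) + (b m (y + 1) - b m y)) (b (m + 1) y - b m y)
      have h7 := norm_add_le (b (m + 1) (y + 1) - b m (y + 1)) (b m (y + 1) - b m y)
      linarith
  set Θ : ℕ → ℝ := fun y => ∑ n ∈ range X, ang (t n y) (t (n + 1) y) with hΘ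
  -- angles
  have hφ : ∀ n < X, ∀ y ≤ H, |ang (t n y) (t (n + 1) y)| ≤ 12 * e := by
    intro n hn y hy
    have h1 := ang_le (ht1 n hn.le y hy) (ht1 (n + 1) hn y hy)
    have h2 := dir_sub (hb1 n hn.le y hy).1 (hb1 (n + 1) hn y hy).1
    have h3 := hd1 n hn y hy
    have h4 := hE (n + 1) y
    change |ang (dir (b n y)) (dir (b (n + 1) y))| ≤ _
    change |ang (dir (b n y)) (dir (b (n + 1) y))| ≤ 2 * ‖dir (b (n + 1) y) - dir (b n y)‖ at h1
    linarith
  have hα : 1 ≤ X → ∀ n ≤ X, ∀ y < H, |ang (t n y) (t n (y + 1))| ≤ 44 * e := by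
    intro hX n hn y hy
    have h1 := ang_le (ht1 n hn y hy.le) (ht1 n hn (y + 1) hy)
    have h2 := dir_sub (hb1 n hn y hy.le).1 (hb1 n hn (y + 1) hy).1
    have h3 := hver' hX n hn y hy
    change |ang (dir (b n y)) (dir (b n (y + 1)))| ≤ _
    change |ang (dir (b n y)) (dir (b n (y + 1)))| ≤ 2 * ‖dir (b n (y + 1)) - dir (b n y)‖ at h1
    linarith
  have hstep : ∀ y < H, |Θ (y + 1) - Θ y| ≤ 88 * e := by
    intro y hy
    rcases Nat.eq_zero_or_pos X with hX | hX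
    · simp only [hΘ, hX, range_zero, sum_empty, sub_self, abs_zero]
      linarith
    · have e1 : Θ (y + 1) - Θ y = ang (t X y) (t X (y + 1)) - ang (t 0 y) (t 0 (y + 1)) := by
        rw [← sum_range_sub (fun n => ang (t n y) (t n (y + 1))), hΘ]
        dsimp only
        rw [← sum_sub_distrib]
        refine sum_congr rfl fun n hn => ?_
        rw [mem_range] at hn
        have h1 := hφ n hn y hy.le
        have h2 := hφ n hn (y + 1) hy
        have h3 := hα hX n hn.le y hy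
        have h4 := hα hX (n + 1) hn y hy
        have h5 := ang_comm (ht1 n hn.le y hy.le) (ht1 (n + 1) hn y hy.le) (ht1 n hn.le (y + 1) hy)
          (ht1 (n + 1) hn (y + 1) hy) (by linarith) (by linarith) (by linarith) (by linarith)
        linarith
      rw [e1]
      refine (abs_sub _ _).trans ?_
      have h1 := hα hX X le_rfl y hy
      have h2 := hα hX 0 (Nat.zero_le _) y hy
      linarith
  have hΘ0 : ∀ y ≤ H, |Θ y - Θ 0| ≤ 88 * e * y := by
    intro y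
    induction y with
    | zero => intro _; simp
    | succ y ih =>
      intro hy
      have h1 := ih (by omega)
      have h2 := hstep y (by omega)
      have e1 : Θ (y + 1) - Θ 0 = (Θ (y + 1) - Θ y) + (Θ y - Θ 0) := by ring
      rw [e1]
      refine (abs_add_le _ _).trans ?_
      push_cast
      linarith
  -- rows
  set S : ℕ → ℝ := fun y => ∑ n ∈ range (X + 1), E n y with hS
  have hS0 : ∀ y, 0 ≤ S y := fun y => sum_nonneg fun n _ => (hE n y).1
  have hrow : ∀ y < H, |∑ n ∈ range X, (‖b n (y + 1)‖ - ‖b n y‖) + √3 / 2 * Θ y| ≤ 325 * e * S y + 4 * e := by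
    intro y hy
    have h1 := row z hz0 hz1 hz2 X (fun n => b n y) (fun n => b n (y + 1)) (fun n => v n y) (fun n => E n y) e he
      (fun n => hE n y) (fun n hn => hb1 n hn y hy.le) (fun n _ => hsq n y) (fun n hn => hv1 n hn y hy)
      (fun n hn => hd1 n hn y hy.le)
    refine h1.trans ?_
    have h2 := hE X y
    have h3 := hE 0 y
    have : 2 * (E X y + E 0 y) ≤ 4 * e := by linarith
    exact add_le_add le_rfl this
  -- total length
  have hlen : |∑ y ∈ range H, ∑ n ∈ range X, (‖b n (y + 1)‖ - ‖b n y‖)| ≤ S 0 + S H := by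
    have e1 : ∑ y ∈ range H, ∑ n ∈ range X, (‖b n (y + 1)‖ - ‖b n y‖) =
        ∑ n ∈ range X, (‖b n H‖ - ‖b n 0‖) := by
      rw [sum_comm]
      exact sum_congr rfl fun n _ => sum_range_sub (fun y => ‖b n y‖) H
    rw [e1]
    refine (abs_sum_le_sum_abs _ _).trans ?_
    have h1 : ∀ n ∈ range X, |‖b n H‖ - ‖b n 0‖| ≤ E n 0 + E n H := by
      intro n hn
      rw [mem_range] at hn
      have h2 := hb1 n hn.le H le_rfl
      have h3 := hb1 n hn.le 0 (Nat.zero_le _)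
      have h4 := hE n 0
      have h5 := hE n H
      rw [abs_le]; constructor <;> linarith [h2.1, h2.2, h3.1, h3.2, h4.1, h5.1]
    refine (sum_le_sum h1).trans ?_
    rw [sum_add_distrib]
    have h2 : ∀ y, ∑ n ∈ range X, E n y ≤ S y := by
      intro y
      rw [hS]; dsimp only
      rw [sum_range_succ]; linarith [(hE X y).1]
    exact add_le_add (h2 0) (h2 H)
  have hHr : (1 : ℝ) ≤ H := by exact_mod_cast hH
  have h3l : (1 : ℝ) ≤ √3 := by
    rw [Real.one_le_sqrt]; norm_num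
  have h3u : √3 ≤ 2 := by
    rw [Real.sqrt_le_left (by norm_num)]; norm_num
  have hmain : (H : ℝ) * |Θ 0| ≤ 2 * (S 0 + S H) + 650 * e * ∑ y ∈ range (H + 1), S y + 8 * e * H +
      176 * e * H * H := by
    have e1 : (H : ℝ) * (√3 / 2 * Θ 0) = ∑ y ∈ range H, (∑ n ∈ range X, (‖b n (y + 1)‖ - ‖b n y‖) + √3 / 2 * Θ y) -
        ∑ y ∈ range H, ∑ n ∈ range X, (‖b n (y + 1)‖ - ‖b n y‖) - ∑ y ∈ range H, √3 / 2 * (Θ y - Θ 0) := by
      rw [sum_add_distrib, ← mul_sum, ← mul_sum, sum_sub_distrib, sum_const, card_range, nsmul_eq_mul]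
      ring
    have h1 : |∑ y ∈ range H, (∑ n ∈ range X, (‖b n (y + 1)‖ - ‖b n y‖) + √3 / 2 * Θ y)| ≤
        325 * e * ∑ y ∈ range (H + 1), S y + 4 * e * H := by
      refine (abs_sum_le_sum_abs _ _).trans ((sum_le_sum fun y hy => hrow y (mem_range.1 hy)).trans ?_)
      rw [sum_add_distrib, ← mul_sum, sum_const, card_range, nsmul_eq_mul]
      have h2 : ∑ y ∈ range H, S y ≤ ∑ y ∈ range (H + 1), S y := by
        rw [sum_range_succ]; linarith [hS0 H]
      have h3 := mul_le_mul_of_nonneg_left h2 (by linarith : 0 ≤ 325 * e)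
      linarith
    have h2 : |∑ y ∈ range H, √3 / 2 * (Θ y - Θ 0)| ≤ 88 * e * H * H := by
      refine (abs_sum_le_sum_abs _ _).trans ?_
      have h3 : ∀ y ∈ range H, |√3 / 2 * (Θ y - Θ 0)| ≤ 88 * e * H := by
        intro y hy
        rw [mem_range] at hy
        rw [abs_mul, abs_of_nonneg (by positivity)]
        have h4 := hΘ0 y hy.le
        have h5 : (y : ℝ) ≤ H := by exact_mod_cast hy.le
        have h6 : 88 * e * y ≤ 88 * e * H := mul_le_mul_of_nonneg_left h5 (by linarith)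
        have h7 := abs_nonneg (Θ y - Θ 0)
        nlinarith
      refine (sum_le_sum h3).trans (le_of_eq ?_)
      rw [sum_const, card_range, nsmul_eq_mul]; ring
    have h3 : (H : ℝ) * (√3 / 2) * |Θ 0| ≤ (S 0 + S H) + (325 * e * ∑ y ∈ range (H + 1), S y + 4 * e * H) +
        88 * e * H * H := by
      have e2 : (H : ℝ) * (√3 / 2) * |Θ 0| = |(H : ℝ) * (√3 / 2 * Θ 0)| := by
        rw [← mul_assoc, abs_mul, abs_of_nonneg (by positivity : (0 : ℝ) ≤ H * (√3 / 2))]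
      rw [e2, e1]
      have h4 := abs_sub (∑ y ∈ range H, (∑ n ∈ range X, (‖b n (y + 1)‖ - ‖b n y‖) + √3 / 2 * Θ y) -
        ∑ y ∈ range H, ∑ n ∈ range X, (‖b n (y + 1)‖ - ‖b n y‖)) (∑ y ∈ range H, √3 / 2 * (Θ y - Θ 0))
      have h5 := abs_sub (∑ y ∈ range H, (∑ n ∈ range X, (‖b n (y + 1)‖ - ‖b n y‖) + √3 / 2 * Θ y))
        (∑ y ∈ range H, ∑ n ∈ range X, (‖b n (y + 1)‖ - ‖b n y‖))
      linarith
    have h4 : (H : ℝ) * (1 / 2) * |Θ 0| ≤ (H : ℝ) * (√3 / 2) * |Θ 0| :=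
      mul_le_mul_of_nonneg_right (mul_le_mul_of_nonneg_left (by linarith) (by positivity)) (abs_nonneg _)
    linarith
  -- the angle of the first row
  have hrot : ∀ n ≤ X, t n 0 = Complex.exp ((∑ m ∈ range n, ang (t m 0) (t (m + 1) 0) : ℝ) * Complex.I) * t 0 0 := by
    intro n
    induction n with
    | zero => intro _; simp
    | succ n ih =>
      intro hn
      have h1 := ih (by omega)
      rw [sum_range_succ, Complex.ofReal_add, add_mul, Complex.exp_add,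
        mul_comm (Complex.exp _) (Complex.exp (((ang (t n 0) (t (n + 1) 0) : ℝ) : ℂ) * Complex.I)), mul_assoc, ← h1]
      exact (ang_spec (ht1 n (by omega) 0 (Nat.zero_le _)) (ht1 (n + 1) hn 0 (Nat.zero_le _))).symm
  have hfin : ‖t X 0 - t 0 0‖ ≤ |Θ 0| := by
    have h1 := hrot X le_rfl
    have e1 : t X 0 - t 0 0 = (Complex.exp (Complex.I * (Θ 0 : ℝ)) - 1) * t 0 0 := by
      rw [h1, sub_mul, one_mul, mul_comm Complex.I]
    rw [e1, norm_mul, ht1 0 (Nat.zero_le _) 0 (Nat.zero_le _), mul_one]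
    have := Real.norm_exp_I_mul_ofReal_sub_one_le (x := Θ 0)
    rwa [Real.norm_eq_abs] at this
  have hbt : ∀ n ≤ X, ‖b n 0 - t n 0‖ ≤ e := by
    intro n hn
    have h1 := hb1 n hn 0 (Nat.zero_le _)
    have h2 := dir_mul h1.1
    have e1 : b n 0 - t n 0 = ((‖b n 0‖ - 1 : ℝ) : ℂ) * t n 0 := by
      push_cast
      linear_combination -h2
    rw [e1, norm_mul, ht1 n hn 0 (Nat.zero_le _), mul_one, Complex.norm_real, Real.norm_eq_abs,
      abs_of_nonneg (by linarith [h1.1])]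
    linarith [h1.2, (hE n 0).2]
  have htot : ‖b X 0 - b 0 0‖ ≤ |Θ 0| + 2 * e := by
    have e1 : b X 0 - b 0 0 = (b X 0 - t X 0) + (t X 0 - t 0 0) - (b 0 0 - t 0 0) := by ring
    rw [e1]
    have h1 := norm_sub_le ((b X 0 - t X 0) + (t X 0 - t 0 0)) (b 0 0 - t 0 0)
    have h2 := norm_add_le (b X 0 - t X 0) (t X 0 - t 0 0)
    have h3 := hbt X le_rfl
    have h4 := hbt 0 (Nat.zero_le _)
    linarith
  have hHp : (0 : ℝ) < H := by linarith
  change ‖b X 0 - b 0 0‖ ≤ 650 * ((S 0 + S H) / H + H * e + e / H * ∑ y ∈ range (H + 1), S y)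
  refine htot.trans ?_
  have hSS : 0 ≤ ∑ y ∈ range (H + 1), S y := sum_nonneg fun y _ => hS0 y
  have e2 : 650 * ((S 0 + S H) / H + H * e + e / H * ∑ y ∈ range (H + 1), S y) =
      (650 * (S 0 + S H) + 650 * e * ∑ y ∈ range (H + 1), S y + 650 * (H * e) * H) / H := by
    field_simp
    ring
  rw [e2, le_div_iff₀ hHp]
  have h5 : e * H ≤ e * H * H := by
    have := mul_le_mul_of_nonneg_left hHr (by positivity : 0 ≤ e * H)
    linarith
  have h6 := hS0 0
  have h7 := hS0 H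
  nlinarith

end Pool.Agent.J4.H83.OO.Bend

namespace Pool.Agent.J4.H83.OO

open Pool.Agent.J4.H83.FV Pool.Agent.J4.H83.HD

theorem Bend.z_re : ze.re = 1 / 2 := by
  have h : om.re = -1 / 2 := rfl
  unfold ze
  rw [Complex.add_re, Complex.one_re, h]; norm_num

theorem Bend.z_im : ze.im = √3 / 2 := by
  have h : om.im = √3 / 2 := rfl
  unfold ze
  rw [Complex.add_im, Complex.one_im, h, zero_add]

theorem Bend.z_norm : ‖ze‖ = 1 := by
  have h1 : ‖ze‖ ^ 2 = 1 := by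
    rw [← Complex.normSq_eq_norm_sq, Complex.normSq_apply, Bend.z_re, Bend.z_im]
    have := Real.mul_self_sqrt (show (0 : ℝ) ≤ 3 by norm_num)
    linarith
  exact (pow_eq_one_iff_of_nonneg (norm_nonneg ze) two_ne_zero).1 h1

/-- **BEND** -/
theorem bend : ∃ C : ℝ, 1 ≤ C ∧ ∀ (X H : ℕ) (P : ℕ → ℕ → ℂ) (E : ℕ → ℕ → ℝ) (e : ℝ), 1 ≤ H →
    0 ≤ e → e ≤ 1 / 100 → (∀ n y, 0 ≤ E n y ∧ E n y ≤ e) →
    (∀ n ≤ X, ∀ y ≤ H, 1 ≤ ‖P (n + 1) y - P n y‖ ∧ ‖P (n + 1) y - P n y‖ ≤ 1 + E n y) →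
    (∀ n ≤ X, ∀ y < H, ‖(P n (y + 1) - P n y) - ze * (P (n + 1) y - P n y)‖ ≤ E n y) →
    (∀ n < X, ∀ y ≤ H, ‖(P (n + 2) y - P (n + 1) y) - (P (n + 1) y - P n y)‖ ≤ 3 * E (n + 1) y) →
    ‖(P (X + 1) 0 - P X 0) - (P 1 0 - P 0 0)‖ ≤
      C * ((∑ n ∈ Finset.range (X + 1), E n 0 + ∑ n ∈ Finset.range (X + 1), E n H) / H + H * e +
        e / H * ∑ y ∈ Finset.range (H + 1), ∑ n ∈ Finset.range (X + 1), E n y) :=
  ⟨650, by norm_num, fun X H P E e hH he0 he hE hb hv hd =>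
    Bend.bend_aux ze Bend.z_norm Bend.z_re Bend.z_im X H P E e hH he0 he hE hb hv hd⟩

end Pool.Agent.J4.H83.OO
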