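import Pool.Agent.J4.H83.OO.StraightA
import Pool.Agent.J4.H83.OO.Bend

/-!
# Lattice lines in a strip without defects are straight
-/

set_option autoImplicit false

namespace Pool.Agent.J4.H83.OO

open Pool.Agent.J4.H83.FV Pool.Agent.J4.H83.HD

theorem straight : ∃ C' : ℝ, 1 ≤ C' ∧ ∀ (N : ℕ) (x : Fin N → ℂ), Sep x → ∀ (τ C : ℝ)
    (ρ : Equiv.Perm (Fin N × Fin N)), 0 < τ → 1 ≤ C → C * τ ≤ 1 / 100 → (∀ i, 0 ≤ ex x i) →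
    IsRot x τ C ρ → ∀ (X H : ℕ) (A : ℝ), 1 ≤ H → ∀ β ∈ Bd x, Cond x ρ X H A τ β →
      ∀ n ≤ X, ‖bv x ((fw ρ ^ n) β) - bv x β‖ ≤ C' * C ^ 2 * (A / H + H * τ + A * τ) :=
  StraightA.straight_of_bend bend

end Pool.Agent.J4.H83.OO
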