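import Pool.Agent.J4.H83.OO.Defs
import Pool.Agent.J4.H83.HD.CountA

/-!
# Counting the types of the configurations with many defects (piece COVERX of project OO, helper81)

Modified copies of `HD.cover` and `HD.count_bound`: if the particles with an excess more than `τ` have a
total excess at least `D`, then the slots, whose excesses are at most `τ`, have a total excess at most
`E - D`.
-/

set_option autoImplicit false

open MeasureTheory Set Filter Topology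

namespace Pool.Agent.J4.H83.OO

open Pool.Agent.J4.H83.FV Pool.Agent.J4.H83.HD

/-- the configurations whose particles with excess more than `τ` have a total excess at least `D` -/
def AD (N : ℕ) (L τ D : ℝ) : Set (Fin N → ℂ) :=
  {x | x ∈ A N L ∧ D ≤ ∑ i, if τ < ex x i then ex x i else 0}

theorem coverD : ∃ C : ℝ, 1 ≤ C ∧ ∃ τ₁ : ℝ, 0 < τ₁ ∧ ∀ (M b m : ℕ) (lam τ L D : ℝ) (N : ℕ), 1 ≤ M →
    0 < b → 0 < lam → 0 < τ → τ ≤ τ₁ → C * (M : ℝ) ^ 2 * τ ≤ 1 → 2000 * M ≤ b →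
    7 / (b : ℝ) ≤ M * τ → M ≤ L → 0 < N → ∀ x ∈ AD N L τ D,
      ∃ (t : Ty (⌊L / M⌋₊ + 1) M b) (s : SS t ↪ Fin N),
        (fun p => x (s p)) ∈ XS (SS t) (rr t) (Dc M) (C * M * τ)
          (√3 * (1 + C * τ) * max 0 ((L + 2 * R) ^ 2 - √3 / 2 * N - D)) ∧
        (N : ℝ) - (625 * (M : ℝ) ^ 2 * (((L + 2 * R) ^ 2 - √3 / 2 * N) / τ) +
          48 * (L ^ 2 / M) * (8 * m + 31 + 2 / lam)) ≤ ∑ p ∈ SS t, ph m lam t p.1 p.2 := by
  obtain ⟨C₁, hC₁, τ₁, hτ₁, hlat⟩ := good_lat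
  obtain ⟨C₂, hC₂, τ₂, hτ₂, hhex⟩ := hex
  obtain ⟨_, _, _, _, hst⟩ := structure_thm
  refine ⟨20 * C₁ + 2 * C₂, by linarith, min τ₁ (min τ₂ (1 / (2 * C₂))), by positivity, ?_⟩
  intro M b m lam τ L D N hM hb hlam hτ hττ hCM hbM hbτ hML hN x hxA
  classical
  obtain ⟨⟨hbox, hx⟩, hD⟩ := hxA
  have hM1 : (1 : ℝ) ≤ M := by exact_mod_cast hM
  have hM0 : (0 : ℝ) < M := by linarith
  have hL0 : 0 ≤ L := by linarith
  have hττ₁ : τ ≤ τ₁ := hττ.trans (min_le_left _ _)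
  have hττ₂ : τ ≤ τ₂ := hττ.trans ((min_le_right _ _).trans (min_le_left _ _))
  have hττ₃ : τ ≤ 1 / (2 * C₂) := hττ.trans ((min_le_right _ _).trans (min_le_right _ _))
  have hC₂τ : C₂ * τ ≤ 1 / 2 := by
    rw [le_div_iff₀ (by positivity)] at hττ₃
    linarith
  have hMsq : 1 ≤ (M : ℝ) ^ 2 := by nlinarith
  have hC1M : C₁ * (M : ℝ) ^ 2 * τ ≤ 1 / 20 := by
    have h0 : 0 ≤ C₂ * (M : ℝ) ^ 2 * τ := by positivity
    nlinarith
  have hex0 : ∀ i, 0 ≤ ex x i := fun i => (hst N x hx i).1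
  have hsum := sum_ex x hL0 hbox hx
  set E := (L + 2 * R) ^ 2 - √3 / 2 * N with hE
  set K := ⌊L / M⌋₊ + 1 with hK
  obtain ⟨t, s, hs1, hs2, hs3⟩ := exists_type (K := K) (M := M) (b := b) x hx (τ := τ)
    (η := C₁ * M * τ) hM hb hN (fun c hc => hlat N x hx M b τ (cn c) hM hτ hττ₁ (by linarith) hbM hbτ hc)
  have htot : ∀ c z, ∀ h : (c, z) ∈ SS t, tot (SS t) (fun p => x (s p)) c z = x (s ⟨_, h⟩) := by
    intro c z h
    unfold tot
    rw [dif_pos h]
  have hη1 : C₁ * M * τ ≤ 1 / 20 := by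
    have : C₁ * τ * M ≤ C₁ * τ * (M : ℝ) ^ 2 :=
      mul_le_mul_of_nonneg_left (by nlinarith) (by positivity)
    nlinarith
  have hηC : C₁ * M * τ ≤ (20 * C₁ + 2 * C₂) * M * τ := by
    have h1 : 0 ≤ C₁ * M * τ := by positivity
    have h2 : 0 ≤ C₂ * M * τ := by positivity
    nlinarith
  refine ⟨t, s, ⟨fun p => (hs1 p).1, ?_, ?_⟩, ?_⟩
  · intro c z k h1 h2
    rw [htot c z h1, htot c _ h2]
    refine ⟨hx _ _ fun h => ?_, (hs2 c z k h1 h2).trans hηC⟩
    have h3 := congrArg (fun p : SS t => p.1.2) (s.injective h)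
    simp only at h3
    exact dr_ne_zero k (by simpa using h3)
  · have hedge : ∀ p p' : SS t, Fw p.1 p'.1 → ‖x (s p') - x (s p)‖ ≤ 1 + C₁ * M * τ := by
      rintro ⟨⟨c, z⟩, hp⟩ ⟨⟨c', z'⟩, hp'⟩ ⟨hF1, k, hk⟩
      simp only at hF1 hk
      subst hF1 hk
      have h1 := hs2 c' z k hp hp'
      have e : x (s ⟨(c', z + dr k), hp'⟩) - x (s ⟨(c', z), hp⟩) =
          (x (s ⟨(c', z + dr k), hp'⟩) - x (s ⟨(c', z), hp⟩) - rr t c' * om ^ (k : ℕ)) +
            rr t c' * om ^ (k : ℕ) := by ring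
      rw [e]
      refine (norm_add_le _ _).trans ?_
      rw [norm_mul, norm_rr, norm_pow, norm_om_k, one_pow, one_mul]
      linarith
    have h := gap_sum (SS t) x hx s (η := C₁ * M * τ) (by linarith [R_gt]) hedge (τ := τ) (C₂ := C₂)
      (by linarith) (by linarith) (fun p => ⟨hex0 _, (hs1 p).2.1⟩) (fun p =>
        (hhex N x hx (s p) ((hs1 p).2.1.trans hττ₂)).2.2.2)
    refine h.trans ?_
    have h3 : ∑ p : SS t, ex x (s p) ≤ max 0 (E - D) := by
      refine le_trans ?_ (le_max_right _ _)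
      have h31 : ∑ p : SS t, ex x (s p) ≤ ∑ i, if τ < ex x i then 0 else ex x i := by
        rw [← Finset.sum_map Finset.univ s (fun i => ex x i)]
        calc ∑ i ∈ Finset.univ.map s, ex x i
            = ∑ i ∈ Finset.univ.map s, (if τ < ex x i then 0 else ex x i) := by
              refine Finset.sum_congr rfl fun i hi => ?_
              obtain ⟨p, -, rfl⟩ := Finset.mem_map.1 hi
              rw [if_neg (not_lt.2 (hs1 p).2.1)]
          _ ≤ _ := Finset.sum_le_sum_of_subset_of_nonneg (Finset.subset_univ _) fun i _ _ => by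
              split_ifs
              · exact le_rfl
              · exact hex0 i
      have h32 : (∑ i, if τ < ex x i then 0 else ex x i) + (∑ i, if τ < ex x i then ex x i else 0) =
          ∑ i, ex x i := by
        rw [← Finset.sum_add_distrib]
        refine Finset.sum_congr rfl fun i _ => ?_
        split_ifs
        · exact zero_add _
        · exact add_zero _
      linarith
    have h4 : 0 ≤ ∑ p : SS t, ex x (s p) := Finset.sum_nonneg fun p _ => hex0 _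
    have h5 : √3 / (1 - C₂ * τ) ≤ √3 * (1 + (20 * C₁ + 2 * C₂) * τ) := by
      rw [div_le_iff₀ (by linarith), mul_assoc]
      refine le_mul_of_one_le_right (Real.sqrt_nonneg _) ?_
      have h6 : 0 ≤ C₁ * τ := by positivity
      have h7 : 0 ≤ C₂ * τ := by positivity
      nlinarith
    calc √3 / (1 - C₂ * τ) * ∑ p : SS t, ex x (s p)
        ≤ √3 * (1 + (20 * C₁ + 2 * C₂) * τ) * ∑ p : SS t, ex x (s p) :=
          mul_le_mul_of_nonneg_right h5 h4
      _ ≤ _ := mul_le_mul_of_nonneg_left h3 (by positivity)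
  · -- the lost particles
    set w : ℝ := 4 * m + 15 + 1 / lam with hw
    have hw0 : 0 ≤ w := by positivity
    set P : Finset (SS t) := Finset.univ.filter fun p => ph m lam t p.1.1 p.1.2 = 1 with hP
    have hcl := count_lost x hx hM hML hbox hex0 (τ := τ) (w := w) (E := E) hτ hw0 hsum (P.map s) (by
      intro i hi
      by_contra hcon
      push Not at hcon
      obtain ⟨hc1, hc2⟩ := hcon
      have hc := fc_lt hM (hbox i)
      obtain ⟨⟨b1, -⟩, b2, -⟩ := hbox i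
      have hin := fc_in hM b1 b2
      set c : Fin K × Fin K := (⟨(fc M (x i)).1, hc.1⟩, ⟨(fc M (x i)).2, hc.2⟩) with hcdef
      have hcn : cn c = fc M (x i) := rfl
      have hgood : GoodC x M τ (cn c) := ⟨i, hin, fun j hj => hc1 j hj⟩
      have hm0 : (0 : ℝ) ≤ m := Nat.cast_nonneg _
      have hl0 : 0 < 1 / lam := by positivity
      obtain ⟨p, hp⟩ := hs3 i c hin hgood (by rw [hcn]; linarith)
      apply hi
      rw [Finset.mem_map]
      refine ⟨p, ?_, hp⟩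
      rw [hP, Finset.mem_filter]
      refine ⟨Finset.mem_univ _, ?_⟩
      obtain ⟨a1, a2, a3⟩ := hs1 p
      rw [hp] at a1 a2 a3
      have hpc : p.1.1 = c := by
        apply cn_inj
        refine dep_inj (w := x i) (w' := 0) hM0 ?_ ?_
        · obtain ⟨q, hq⟩ := isSome_of_mem p.2
          have h1 : 1 ≤ dep M (cn p.1.1) (lp t p.1.1 p.1.2) := by
            rw [lp_some _ hq]
            exact (mem_SS q hq).1 p.2
          have h2 := dep_lip M (cn p.1.1) (x i) (lp t p.1.1 p.1.2)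
          linarith
        · rw [hcn]; linarith
      obtain ⟨q, hq⟩ := isSome_of_mem p.2
      unfold ph
      rw [if_pos (by rw [hq]; rfl)]
      have h2 := dep_lip M (cn c) (lp t p.1.1 p.1.2) (x i)
      rw [norm_sub_rev] at h2
      rw [hpc] at h2 ⊢
      rw [hcn] at h2 ⊢
      rw [hpc] at a3
      have h3 : 1 / lam ≤ dep M (fc M (x i)) (lp t c p.1.2) - (4 * m + 14) := by linarith
      have h4 : 1 ≤ lam * (dep M (fc M (x i)) (lp t c p.1.2) - (4 * m + 14)) := by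
        calc (1 : ℝ) = lam * (1 / lam) := by field_simp
          _ ≤ _ := mul_le_mul_of_nonneg_left h3 hlam.le
      rw [min_eq_left]
      exact h4.trans (le_max_right _ _))
    rw [Finset.card_map] at hcl
    have hPc : (P.card : ℝ) ≤ ∑ p ∈ SS t, ph m lam t p.1 p.2 := by
      rw [← Finset.sum_coe_sort (SS t)]
      calc (P.card : ℝ) = ∑ p ∈ P, ph m lam t p.1.1 p.1.2 := by
            rw [Finset.sum_congr rfl fun p hp => (Finset.mem_filter.1 hp).2, Finset.sum_const,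
              nsmul_eq_mul, mul_one]
        _ ≤ _ := Finset.sum_le_sum_of_subset_of_nonneg (Finset.subset_univ _)
            fun p _ _ => ph_nonneg _ _ _ _ _
    have e : 2 * w + 1 = 8 * m + 31 + 2 / lam := by
      rw [hw]; field_simp; ring
    rw [e] at hcl
    exact hcl.trans hPc

/-- COUNT -/
theorem count_boundD : ∃ C : ℝ, 1 ≤ C ∧ ∃ τ₁ : ℝ, 0 < τ₁ ∧ ∀ (m M b : ℕ) (lam τ L : ℝ) (N : ℕ),
    2 ≤ m → 1 ≤ M → 0 < b → 0 < lam → 0 < τ → τ ≤ τ₁ → C * (M : ℝ) ^ 2 * τ ≤ 1 → 2000 * M ≤ b →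
    7 / (b : ℝ) ≤ M * τ → m * (C * M * τ) ≤ 1 / 4 → M ≤ L → 0 < N → ∀ E F B D : ℝ,
      E = (L + 2 * R) ^ 2 - √3 / 2 * N → 0 ≤ D →
      F = 625 * (M : ℝ) ^ 2 * (E / τ) + 48 * (L ^ 2 / M) * (8 * m + 31 + 2 / lam) → F < N → 0 ≤ B →
      (∀ (n : ℕ) (Φ : ℝ), n ≤ N → N - F ≤ Φ → Φ ≤ n → 0 < Φ →
        (L ^ 2) ^ (N - n) / (N - n).factorial *
          (((M : ℝ) ^ 2) ^ (2 * (n : ℝ) / m + (n - Φ)) *
            (W m pt).toReal ^ (Φ / (m : ℝ) ^ 2) *
            ((1 / 3 + 32 * (m : ℝ) ^ 2 * lam) * (√3 * (1 + C * τ) * max 0 (E - D) +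
              2 * n * (C * M * τ) ^ 2) / Φ) ^ (2 * ((m : ℝ) - 1) ^ 2 / (m : ℝ) ^ 2 * Φ)) ≤ B) →
      (volume (AD N L τ D)).toReal / N.factorial ≤
        (1 + (100 * (M : ℝ)) ^ 2 * b) ^ ((⌊L / M⌋₊ + 1) ^ 2) * B := by
  classical
  obtain ⟨C, hC, τ₁, hτ₁, hcov⟩ := coverD
  refine ⟨C, hC, τ₁, hτ₁, ?_⟩
  intro m M b lam τ L N hm hM hb hlam hτ hττ hCM hbM hbτ hmC hML hN E F B D hE hD0 hF hFN hB0 hB
  have hM1 : (1 : ℝ) ≤ M := by exact_mod_cast hM
  have hL : 0 ≤ L := by linarith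
  have hE0 : 0 ≤ max 0 (E - D) := le_max_left _ _
  set K := ⌊L / M⌋₊ + 1 with hK
  set η := C * M * τ with hη
  set G := √3 * (1 + C * τ) * max 0 (E - D) with hG
  have hη0 : 0 < η := by rw [hη]; positivity
  have hG0 : 0 ≤ G := by rw [hG]; positivity
  -- the good types
  set T : Finset (Ty K M b) := Finset.univ.filter fun t =>
    (N : ℝ) - F ≤ ∑ p ∈ SS t, ph m lam t p.1 p.2 with hT
  have hsub : AD N L τ D ⊆ ⋃ t ∈ T, ⋃ s : SS t ↪ Fin N, {x : Fin N → ℂ | (∀ i, x i ∈ box 0 L) ∧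
      (fun p => x (s p)) ∈ XS (SS t) (rr t) (Dc M) η G} := by
    intro x hx
    obtain ⟨t, s, h1, h2⟩ := hcov M b m lam τ L D N hM hb hlam hτ hττ hCM hbM hbτ hML hN x hx
    rw [← hE, ← hF] at h2
    rw [← hE] at h1
    refine mem_iUnion₂.2 ⟨t, Finset.mem_filter.2 ⟨Finset.mem_univ _, h2⟩, mem_iUnion.2 ⟨s, hx.1.1, h1⟩⟩
  have hone : ∀ t ∈ T, ∑ s : SS t ↪ Fin N, volume {x : Fin N → ℂ | (∀ i, x i ∈ box 0 L) ∧
      (fun p => x (s p)) ∈ XS (SS t) (rr t) (Dc M) η G} ≤ ENNReal.ofReal (N.factorial * B) := by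
    intro t ht
    have hΦ1 := (Finset.mem_filter.1 ht).2
    set Φ := ∑ p ∈ SS t, ph m lam t p.1 p.2 with hΦ
    have hΦ0 : 0 < Φ := by linarith
    have hΦn : Φ ≤ (SS t).card := by
      rw [hΦ]
      refine (Finset.sum_le_sum fun p _ => ph_le_one m lam t p.1 p.2).trans ?_
      rw [Finset.sum_const, nsmul_eq_mul, mul_one]
    have hV := V_bound m hm lam η ((M : ℝ) ^ 2) G hlam.le hη0 hmC (one_le_pow₀ hM1) hG0 (SS t)
      (rr t) (norm_rr t) (Dc M) Dc_meas vol_Dc (ph m lam t) (ph_nonneg m lam t)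
      (ph_le_one m lam t) (ph_supp m lam hlam t) (ph_lip m lam hlam t) hΦ0
    rw [← hΦ] at hV
    refine vol_type _ (XS_meas _ _ _ Dc_meas _ _) hL hV fun hc => ?_
    rw [Fintype.card_coe] at hc ⊢
    exact hB (SS t).card Φ hc hΦ1 hΦn hΦ0
  have hvol : volume (AD N L τ D) ≤ ENNReal.ofReal (((1 + (100 * (M : ℝ)) ^ 2 * b) ^ (K ^ 2)) *
      (N.factorial * B)) := by
    calc volume (AD N L τ D) ≤ volume (⋃ t ∈ T, ⋃ s : SS t ↪ Fin N, {x : Fin N → ℂ |
          (∀ i, x i ∈ box 0 L) ∧ (fun p => x (s p)) ∈ XS (SS t) (rr t) (Dc M) η G}) :=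
          measure_mono hsub
      _ ≤ ∑ t ∈ T, volume (⋃ s : SS t ↪ Fin N, {x : Fin N → ℂ |
          (∀ i, x i ∈ box 0 L) ∧ (fun p => x (s p)) ∈ XS (SS t) (rr t) (Dc M) η G}) :=
          measure_biUnion_finset_le _ _
      _ ≤ ∑ t ∈ T, ENNReal.ofReal (N.factorial * B) := by
          refine Finset.sum_le_sum fun t ht => le_trans ?_ (hone t ht)
          exact measure_iUnion_fintype_le _ _
      _ ≤ ∑ t : Ty K M b, ENNReal.ofReal (N.factorial * B) :=
          Finset.sum_le_sum_of_subset (Finset.subset_univ _)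
      _ = _ := by
          rw [Finset.sum_const, Finset.card_univ, card_Ty, nsmul_eq_mul, ← ENNReal.ofReal_natCast,
            ← ENNReal.ofReal_mul (Nat.cast_nonneg _)]
          congr 1
          push_cast
          ring
  rw [div_le_iff₀ (by exact_mod_cast Nat.factorial_pos N)]
  refine (ENNReal.toReal_mono ENNReal.ofReal_ne_top hvol).trans ?_
  rw [ENNReal.toReal_ofReal (by positivity)]
  refine le_of_eq ?_
  ring

end Pool.Agent.J4.H83.OO
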