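import Pool.Agent.J4.H83.HD.Hex

/-!
# Orientational order of hard disks near close packing: definitions

Bonds of a configuration of unit-diameter disks, the rotation of the bonds by 60 degrees as a permutation of
the pairs of particles, the translation along a lattice line and to the next lattice line.
-/

set_option autoImplicit false

open MeasureTheory Set

namespace Pool.Agent.J4.H83.OO

open Pool.Agent.J4.H83.FV Pool.Agent.J4.H83.HD

/-- `e^{iπ/3}` -/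
noncomputable def ze : ℂ := 1 + om

/-- configurations of disks of diameter one -/
def Sep {N : ℕ} (x : Fin N → ℂ) : Prop := ∀ i j, i ≠ j → 1 ≤ ‖x i - x j‖

/-- the bonds: ordered pairs of particles at a distance less than `2 R = 2 / √3` -/
noncomputable def Bd {N : ℕ} (x : Fin N → ℂ) : Finset (Fin N × Fin N) :=
  Finset.univ.filter fun p => p.2 ∈ Nbr x p.1

/-- the vector of a bond -/
def bv {N : ℕ} (x : Fin N → ℂ) (p : Fin N × Fin N) : ℂ := x p.2 - x p.1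

/-- `ρ` rotates the bonds by 60 degrees -/
structure IsRot {N : ℕ} (x : Fin N → ℂ) (τ C : ℝ) (ρ : Equiv.Perm (Fin N × Fin N)) : Prop where
  fst : ∀ p, (ρ p).1 = p.1
  mem : ∀ p ∈ Bd x, ρ p ∈ Bd x
  vec : ∀ p ∈ Bd x, ex x p.1 ≤ τ → ‖bv x (ρ p) - ze * bv x p‖ ≤ C * ex x p.1
  len : ∀ p ∈ Bd x, ex x p.1 ≤ τ → ‖bv x p‖ ≤ 1 + C * ex x p.1
  six : ∀ i, ex x i ≤ τ → (Nbr x i).card = 6

/-- the exchange of the ends of a bond -/
def swp (N : ℕ) : Equiv.Perm (Fin N × Fin N) := Equiv.prodComm (Fin N) (Fin N)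

/-- the next bond on the same line: `(i, j) ↦ (j, l)`, `x l ≈ 2 x j - x i` -/
def fw {N : ℕ} (ρ : Equiv.Perm (Fin N × Fin N)) : Equiv.Perm (Fin N × Fin N) :=
  ρ * ρ * ρ * swp N

/-- the parallel bond on the next line -/
def up {N : ℕ} (ρ : Equiv.Perm (Fin N × Fin N)) : Equiv.Perm (Fin N × Fin N) :=
  ρ * ρ * swp N * ρ

/-- the bond `β` is on a line which is straight up to `θ` for `X` steps in both directions -/
def BS {N : ℕ} (x : Fin N → ℂ) (ρ : Equiv.Perm (Fin N × Fin N)) (X : ℕ) (θ τ : ℝ)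
    (β : Fin N × Fin N) : Prop :=
  β ∈ Bd x ∧ ∀ m : ℤ, |m| ≤ X → ex x ((fw ρ ^ m) β).1 ≤ τ ∧
    ‖bv x ((fw ρ ^ m) β) - bv x β‖ ≤ θ

/-- the hypotheses on the strip of `H` lines over the first `X` steps from `β` -/
def Cond {N : ℕ} (x : Fin N → ℂ) (ρ : Equiv.Perm (Fin N × Fin N)) (X H : ℕ) (A τ : ℝ)
    (β : Fin N × Fin N) : Prop :=
  (∀ n ≤ X + 1, ∀ y ≤ H, ex x ((fw ρ ^ n) ((up ρ ^ y) β)).1 ≤ τ) ∧
  ∑ n ∈ Finset.range (X + 1), ex x ((fw ρ ^ n) β).1 ≤ A ∧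
  ∑ n ∈ Finset.range (X + 1), ex x ((fw ρ ^ n) ((up ρ ^ H) β)).1 ≤ A ∧
  ∑ y ∈ Finset.range (H + 1), ∑ n ∈ Finset.range (X + 1), ex x ((fw ρ ^ n) ((up ρ ^ y) β)).1 ≤ A * H

/-- the local bond-orientational order parameter -/
noncomputable def psi {N : ℕ} (x : Fin N → ℂ) (i : Fin N) : ℂ :=
  (1 / ((Nbr x i).card : ℂ)) * ∑ j ∈ Nbr x i, ((x j - x i) / (‖x j - x i‖ : ℂ)) ^ 6

end Pool.Agent.J4.H83.OO
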