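import Pool.Agent.J4.H83.OO.Order

/-!
# Orientational order of configurations with few defects: choice of the parameters
-/

set_option autoImplicit false

open MeasureTheory Set Filter Topology

namespace Pool.Agent.J4.H83.OO

open Pool.Agent.J4.H83.FV Pool.Agent.J4.H83.HD

lemma num2 {K Q e H κ A δ N X : ℝ} (hK : 1 ≤ K) (hQ : 1 ≤ Q) (he : 0 < e) (he1 : e ≤ 1) (hH : 1 ≤ H)
    (hκ : κ = e / (240 * K * Q * (H + 1))) (hA : A = 1920 * K * Q / e) (hδ : 0 < δ) (hδ1 : δ ≤ 1)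
    (hN : 0 ≤ N) (hX : 2 * X + 2 ≤ 5 * K / δ) :
    κ * δ * N + Q * (12 * (2 * X + 2) * ((H + 1) * (κ * δ * N) + 4 * (2 * δ * N) / A)) ≤ e * N := by
  have hA0 : 0 < A := by rw [hA]; positivity
  have hκ0 : 0 < κ := by rw [hκ]; positivity
  have h1 : (H + 1) * (κ * δ * N) + 4 * (2 * δ * N) / A = δ * N * ((H + 1) * κ + 8 / A) := by
    field_simp
    ring
  have h2 : (2 * X + 2) * (δ * N * ((H + 1) * κ + 8 / A)) ≤
      5 * K / δ * (δ * N * ((H + 1) * κ + 8 / A)) :=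
    mul_le_mul_of_nonneg_right hX (by positivity)
  have h3 : 5 * K / δ * (δ * N * ((H + 1) * κ + 8 / A)) = 5 * K * N * ((H + 1) * κ + 8 / A) := by
    field_simp
  have h4 : Q * (12 * (5 * K * N * ((H + 1) * κ + 8 / A))) = e / 2 * N := by
    rw [hκ, hA]
    field_simp
    ring
  have h5 : κ ≤ e / 4 := by
    rw [hκ]
    rw [div_le_div_iff_of_pos_left he (by positivity) (by norm_num)]
    have : 1 ≤ K * Q * (H + 1) := by
      have : 1 ≤ K * Q := one_le_mul_of_one_le_of_one_le hK hQ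
      nlinarith
    nlinarith
  have h6 : κ * δ * N ≤ e / 4 * N := by
    have : κ * δ ≤ e / 4 := by nlinarith
    exact mul_le_mul_of_nonneg_right this hN
  rw [h1]
  have h7 : Q * (12 * (2 * X + 2) * (δ * N * ((H + 1) * κ + 8 / A))) ≤ e / 2 * N := by
    rw [← h4]
    apply mul_le_mul_of_nonneg_left _ (by linarith)
    rw [h3] at h2
    nlinarith
  nlinarith

theorem order_det (K ε : ℝ) (hK : 1 ≤ K) (hε : 0 < ε) : ∃ τ κ δ₀ r₀ : ℝ, 0 < τ ∧ 0 < κ ∧ 0 < δ₀ ∧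
    1 ≤ r₀ ∧ ∀ δ, 0 < δ → δ < δ₀ → ∀ (N : ℕ) (x : Fin N → ℂ), Sep x → ∑ i, ex x i ≤ 2 * δ * N →
      ((Finset.univ.filter fun i => τ < ex x i).card : ℝ) ≤ κ * δ * N → ∀ r, r₀ ≤ r → r ≤ K / δ →
      ((Finset.univ.filter fun i =>
        ‖∑ j ∈ Finset.univ.filter (fun j => ‖x j - x i‖ ≤ r), psi x j‖ <
          (1 - ε) * ((Finset.univ.filter fun j => ‖x j - x i‖ ≤ r).card : ℝ)).card : ℝ) ≤ ε * N := by
  obtain ⟨C, hC, τ₁, hτ₁, hCτ₁, hrot⟩ := exists_rot
  obtain ⟨C', hC', hstr⟩ := straight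
  have hC0 : 0 < C := by linarith
  have hC'0 : 0 < C' := by linarith
  set e : ℝ := min ε 1 with he
  have he0 : 0 < e := by positivity
  have he1 : e ≤ 1 := min_le_right _ _
  have heε : e ≤ ε := min_le_left _ _
  set θ : ℝ := e / 24000 with hθ
  have hθ0 : 0 < θ := by positivity
  have hθ1 : θ ≤ 1 / 100 := by rw [hθ]; linarith
  set ε' : ℝ := e / 1024 with hε'
  have hε'0 : 0 < ε' := by positivity
  have hε'1 : ε' ≤ 1 / 100 := by rw [hε']; linarith
  set Q : ℝ := 1 + 1 / ε' with hQ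
  have hQ1 : 1 ≤ Q := by
    have : 0 < 1 / ε' := by positivity
    linarith
  set A : ℝ := 1920 * K * Q / e with hA
  have hA0 : 0 < A := by positivity
  set H : ℕ := ⌈6 * C' * C ^ 2 * A / θ⌉₊ + 1 with hH
  have hH1 : 1 ≤ H := by omega
  have hH2 : 6 * C' * C ^ 2 * A / θ ≤ H := by
    have h1 := Nat.le_ceil (6 * C' * C ^ 2 * A / θ)
    rw [hH]; push_cast
    linarith
  have hHr : (1 : ℝ) ≤ H := by exact_mod_cast hH1
  have hH0 : (0 : ℝ) < H := by linarith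
  set τ : ℝ := min τ₁ (min (θ / C) (θ / (6 * C' * C ^ 2 * (H + A)))) with hτ
  have hτ0 : 0 < τ := by positivity
  have hττ₁ : τ ≤ τ₁ := min_le_left _ _
  have hτ2 : C * τ ≤ θ := by
    have h1 : τ ≤ θ / C := (min_le_right _ _).trans (min_le_left _ _)
    rw [le_div_iff₀ hC0] at h1
    linarith
  have hτ3 : 6 * C' * C ^ 2 * (H + A) * τ ≤ θ := by
    have h1 : τ ≤ θ / (6 * C' * C ^ 2 * (H + A)) := (min_le_right _ _).trans (min_le_right _ _)
    rw [le_div_iff₀ (by positivity)] at h1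
    linarith
  have hCτ : C * τ ≤ 1 / 100 := hτ2.trans hθ1
  have hθA : 2 * (C' * C ^ 2 * (A / H + H * τ + A * τ)) ≤ θ := by
    have h1 : C' * C ^ 2 * (A / H) ≤ θ / 6 := by
      rw [div_le_iff₀ hθ0] at hH2
      have h2 : C' * C ^ 2 * (A / H) = C' * C ^ 2 * A / H := by ring
      rw [h2, div_le_div_iff₀ hH0 (by norm_num)]
      linarith
    have h2 : C' * C ^ 2 * ((H + A) * τ) ≤ θ / 6 := by linarith
    have h3 : C' * C ^ 2 * (A / H + H * τ + A * τ) = C' * C ^ 2 * (A / H) +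
        C' * C ^ 2 * ((H + A) * τ) := by ring
    rw [h3]
    linarith
  set κ : ℝ := e / (240 * K * Q * (H + 1)) with hκ
  refine ⟨τ, κ, 1 / 2, 4096 / e + 100, hτ0, by positivity, by norm_num, ?_, ?_⟩
  · have : 0 < 4096 / e := by positivity
    linarith
  intro δ hδ hδ₀ N x hx hS hD r hr1 hr2
  obtain ⟨hex0, ρ, hρ⟩ := hrot N x hx τ hτ0 hττ₁
  have h4096 : 0 < 4096 / e := by positivity
  have hr100 : 100 ≤ r := by linarith
  have h3p : 0 < √3 := by positivity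
  have h3a : (1.7 : ℝ) < √3 := by
    rw [Real.lt_sqrt (by norm_num)]; norm_num
  have h3b : √3 < 1.8 := by
    rw [Real.sqrt_lt' (by norm_num)]; norm_num
  set X : ℕ := ⌈2 / √3 * r⌉₊ with hX
  have hX1 : 2 / √3 * r ≤ X := Nat.le_ceil _
  have hX2 : (X : ℝ) < 2 / √3 * r + 1 := Nat.ceil_lt_add_one (by positivity)
  have hq : 2 / √3 ≤ 1.2 := by
    rw [div_le_iff₀ h3p]; linarith
  have hq1 : 1 ≤ 2 / √3 := by
    rw [le_div_iff₀ h3p]; linarith
  have hXr : r ≤ X := by nlinarith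
  have hXu : (X : ℝ) ≤ 1.2 * r + 1 := by nlinarith
  have hX100 : 100 ≤ X := by
    have : (100 : ℝ) ≤ X := by linarith
    exact_mod_cast this
  have hX0 : (0 : ℝ) < X := by linarith
  have hr2' : r ≤ √3 / 2 * X := by
    rw [div_mul_eq_mul_div, div_le_iff₀ h3p] at hX1
    linarith
  have hr1' : (X : ℝ) / 2 ≤ r := by linarith
  have hmain := order_param x hx τ C θ ε' C' A (2 * δ * N) (κ * δ * N) r ρ X H hC hτ2 hτ0 hθ0 hθ1
    hex0 hρ (fun β hβ hc n hn =>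
      hstr N x hx τ C ρ hτ0 hC hCτ hex0 hρ (2 * X) H A hH1 β hβ hc n hn)
    hθA hH1 hA0 hX100 hε'0 hε'1 hS hD hr1' hr2'
  have hnum : κ * δ * N + (1 + 1 / ε') * (12 * (2 * X + 2) * ((H + 1) * (κ * δ * N) +
      4 * (2 * δ * N) / A)) ≤ e * N := by
    refine num2 hK hQ1 he0 he1 hHr hκ hA hδ (by linarith) (Nat.cast_nonneg _) ?_
    have h1 : 5 * K / δ = 5 * (K / δ) := by ring
    rw [h1]
    linarith
  have hsub : (Finset.univ.filter fun i =>
        ‖∑ j ∈ Finset.univ.filter (fun j => ‖x j - x i‖ ≤ r), psi x j‖ <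
          (1 - ε) * ((Finset.univ.filter fun j => ‖x j - x i‖ ≤ r).card : ℝ)) ⊆
      (Finset.univ.filter fun i =>
        ‖∑ j ∈ Finset.univ.filter (fun j => ‖x j - x i‖ ≤ r), psi x j‖ <
          (1 - (6000 * θ + 1024 / X + 256 * ε')) *
            ((Finset.univ.filter fun j => ‖x j - x i‖ ≤ r).card : ℝ)) := by
    intro i hi
    rw [Finset.mem_filter] at hi ⊢
    refine ⟨hi.1, hi.2.trans_le ?_⟩
    apply mul_le_mul_of_nonneg_right _ (Nat.cast_nonneg _)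
    have h1 : 1024 / (X : ℝ) ≤ e / 4 := by
      rw [div_le_div_iff₀ hX0 (by norm_num)]
      have h2 : 4096 / e ≤ X := by linarith
      rw [div_le_iff₀ he0] at h2
      linarith
    rw [hθ, hε']
    linarith
  refine (Nat.cast_le.2 (Finset.card_le_card hsub)).trans (hmain.trans (hnum.trans ?_))
  exact mul_le_mul_of_nonneg_right heε (Nat.cast_nonneg _)

end Pool.Agent.J4.H83.OO
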