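import Pool.Agent.J4.H83.OO.ProbA
import Pool.Agent.J4.H83.OO.CoverX
import Pool.Agent.J4.H83.OO.UasyD
import Pool.Agent.J4.H83.HD.Norm2
import Pool.Agent.J4.H83.HD.Klim

/-!
# PROB: few defects outside an event of exponentially small probability
-/

set_option autoImplicit false

open MeasureTheory Set Filter Topology

namespace Pool.Agent.J4.H83.OO

open Pool.Agent.J4.H83.FV Pool.Agent.J4.H83.HD

theorem few_defects (τ κ : ℝ) (hτ : 0 < τ) (hκ : 0 < κ) : ∃ δ₀ : ℝ, 0 < δ₀ ∧ ∀ δ : ℝ, 0 < δ →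
    δ < δ₀ → ∃ c : ℝ, 0 < c ∧ ∀ (L : ℕ → ℝ) (N : ℕ → ℕ), Tendsto L atTop atTop →
      Tendsto (fun k => (N k : ℝ) / L k ^ 2) atTop (𝓝 (1 / (√3 / 2 + δ))) →
      ∀ᶠ k in atTop, 0 < volume (A (N k) (L k)) ∧
        volume {x | x ∈ A (N k) (L k) ∧
          κ * δ * N k < ((Finset.univ.filter fun i => τ < ex x i).card : ℝ)} ≤
          ENNReal.ofReal (Real.exp (-c * N k)) * volume (A (N k) (L k)) := by
  obtain ⟨B, hB⟩ := kappa_bdd
  obtain ⟨S, hS⟩ := klim B hB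
  exact Prob.few_of count_boundD (fun w h1 h2 C τ₁ h3 h4 ε κ h5 h6 h7 =>
    uasyD w h1 h2 C τ₁ h3 h4 ε κ h5 h6 h7) lower_asym S hS τ κ hτ hκ

end Pool.Agent.J4.H83.OO
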