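import Pool.Agent.J4.H83.OO.Det
import Pool.Agent.J4.H83.OO.Prob
import Pool.Agent.J4.H83.FV.Scale

/-!
# Orientational order of hard disks near close packing: the normalised theorem
-/

set_option autoImplicit false

open MeasureTheory Set Filter Topology
open scoped Pointwise

namespace Pool.Agent.J4.H83.OO

open Pool.Agent.J4.H83.FV Pool.Agent.J4.H83.HD

/-- the particle `i` has exactly six neighbours, and they form a regular hexagon up to `ε` -/
def Hx {N : ℕ} (x : Fin N → ℂ) (ε : ℝ) (i : Fin N) : Prop :=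
  (Nbr x i).card = 6 ∧ ∀ j ∈ Nbr x i, ‖x j - x i‖ ≤ 1 + ε ∧
    ∃ k ∈ Nbr x i, ‖(x k - x i) - ze * (x j - x i)‖ ≤ ε

open Classical in
/-- the exceptional configurations -/
def BadS (N : ℕ) (L ε δ r₀ r₁ : ℝ) : Set (Fin N → ℂ) :=
  {x | x ∈ A N L ∧ (ε * δ * N < ((Finset.univ.filter fun i => ¬ Hx x ε i).card : ℝ) ∨
    ∃ r, r₀ ≤ r ∧ r ≤ r₁ ∧ ε * N < ((Finset.univ.filter fun i =>
      ‖∑ j ∈ Finset.univ.filter (fun j => ‖x j - x i‖ ≤ r), psi x j‖ <
        (1 - ε) * ((Finset.univ.filter fun j => ‖x j - x i‖ ≤ r).card : ℝ)).card : ℝ))}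

/-- the sum of the excess areas is eventually at most `2 δ N` -/
lemma ev_ex {δ : ℝ} (hδ : 0 < δ) (L : ℕ → ℝ) (N : ℕ → ℕ) (hL : Tendsto L atTop atTop)
    (hN : Tendsto (fun k => (N k : ℝ) / L k ^ 2) atTop (𝓝 (1 / (√3 / 2 + δ)))) :
    ∀ᶠ k in atTop, 0 ≤ L k ∧ (L k + 2 * R) ^ 2 - √3 / 2 * N k ≤ 2 * δ * N k := by
  have h3p : 0 < √3 := by positivity
  have h1 : Tendsto (fun k => (1 + 2 * R / L k) ^ 2 - (√3 / 2 + 2 * δ) * ((N k : ℝ) / L k ^ 2)) atTop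
      (𝓝 ((1 + 0) ^ 2 - (√3 / 2 + 2 * δ) * (1 / (√3 / 2 + δ)))) :=
    Tendsto.sub (Tendsto.pow (tendsto_const_nhds.add (hL.const_div_atTop _)) 2) (hN.const_mul _)
  have h2 : ((1 : ℝ) + 0) ^ 2 - (√3 / 2 + 2 * δ) * (1 / (√3 / 2 + δ)) < 0 := by
    have h3 : 0 < √3 / 2 + δ := by positivity
    have h4 : ((1 : ℝ) + 0) ^ 2 - (√3 / 2 + 2 * δ) * (1 / (√3 / 2 + δ)) = -δ / (√3 / 2 + δ) := by
      field_simp
      ring
    rw [h4]
    exact div_neg_of_neg_of_pos (by linarith) h3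
  filter_upwards [h1.eventually (gt_mem_nhds h2), hL.eventually_gt_atTop 0] with k hk hk0
  refine ⟨hk0.le, ?_⟩
  have h5 : 0 < L k ^ 2 := by positivity
  have h6 := mul_neg_of_neg_of_pos hk h5
  have h7 : ((1 + 2 * R / L k) ^ 2 - (√3 / 2 + 2 * δ) * ((N k : ℝ) / L k ^ 2)) * L k ^ 2 =
      (L k + 2 * R) ^ 2 - (√3 / 2 + 2 * δ) * N k := by
    have := hk0.ne'
    field_simp
  rw [h7] at h6
  linarith

theorem norm_order (K ε : ℝ) (hK : 1 ≤ K) (hε : 0 < ε) : ∃ δ₀ r₀ : ℝ, 0 < δ₀ ∧ 1 ≤ r₀ ∧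
    ∀ δ : ℝ, 0 < δ → δ < δ₀ → ∃ c : ℝ, 0 < c ∧ ∀ (L : ℕ → ℝ) (N : ℕ → ℕ), Tendsto L atTop atTop →
      Tendsto (fun k => (N k : ℝ) / L k ^ 2) atTop (𝓝 (1 / (√3 / 2 + δ))) →
      ∀ᶠ k in atTop, 0 < volume (A (N k) (L k)) ∧
        volume (BadS (N k) (L k) ε δ r₀ (K / δ)) ≤
          ENNReal.ofReal (Real.exp (-c * N k)) * volume (A (N k) (L k)) := by
  classical
  obtain ⟨τ, κ, δ₁, r₀, hτ, hκ, hδ₁, hr₀, hdet⟩ := order_det K ε hK hε
  obtain ⟨C, hC, τ₁, hτ₁, hhex⟩ := hex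
  have hC0 : 0 < C := by linarith
  set τ' : ℝ := min τ (min τ₁ (ε / C)) with hτ'
  have hτ'0 : 0 < τ' := by positivity
  have hτ'1 : τ' ≤ τ := min_le_left _ _
  have hτ'2 : τ' ≤ τ₁ := (min_le_right _ _).trans (min_le_left _ _)
  have hτ'3 : C * τ' ≤ ε := by
    have h1 : τ' ≤ ε / C := (min_le_right _ _).trans (min_le_right _ _)
    rw [le_div_iff₀ hC0] at h1
    linarith
  set κ' : ℝ := min κ ε with hκ'
  have hκ'0 : 0 < κ' := by positivity
  obtain ⟨δ₂, hδ₂, hfew⟩ := few_defects τ' κ' hτ'0 hκ'0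
  refine ⟨min δ₁ δ₂, r₀, by positivity, hr₀, ?_⟩
  intro δ hδ hδ₀
  have hδa : δ < δ₁ := hδ₀.trans_le (min_le_left _ _)
  have hδb : δ < δ₂ := hδ₀.trans_le (min_le_right _ _)
  obtain ⟨c, hc, hseq⟩ := hfew δ hδ hδb
  refine ⟨c, hc, ?_⟩
  intro L N hL hN
  filter_upwards [hseq L N hL hN, ev_ex hδ L N hL hN] with k hk hkx
  refine ⟨hk.1, (measure_mono ?_).trans hk.2⟩
  rintro x ⟨hxA, hbad⟩
  refine ⟨hxA, ?_⟩
  by_contra hcon
  push Not at hcon
  have hsep : Sep x := hxA.2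
  have hNk : (0 : ℝ) ≤ N k := Nat.cast_nonneg _
  have hδN : 0 ≤ δ * N k := by positivity
  rcases hbad with h | ⟨r, hr1, hr2, h⟩
  · -- hexagonal neighbourhoods
    have hsub : (Finset.univ.filter fun i => ¬ Hx x ε i) ⊆
        (Finset.univ.filter fun i => τ' < ex x i) := by
      intro i hi
      rw [Finset.mem_filter] at hi ⊢
      refine ⟨hi.1, ?_⟩
      by_contra hle
      push Not at hle
      apply hi.2
      obtain ⟨h1, h2, h3, -⟩ := hhex _ x hsep i (hle.trans hτ'2)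
      have h4 : C * ex x i ≤ ε := (mul_le_mul_of_nonneg_left hle hC0.le).trans hτ'3
      refine ⟨h1, fun j hj => ⟨(h2 j hj).trans (by linarith), ?_⟩⟩
      obtain ⟨k', hk', h5⟩ := h3 j hj
      exact ⟨k', hk', h5.trans h4⟩
    have h1 : ((Finset.univ.filter fun i => ¬ Hx x ε i).card : ℝ) ≤
        ((Finset.univ.filter fun i => τ' < ex x i).card : ℝ) := by
      exact_mod_cast Finset.card_le_card hsub
    have h2 : κ' * δ * N k ≤ ε * δ * N k := by
      have : κ' ≤ ε := min_le_right _ _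
      have := mul_le_mul_of_nonneg_right this hδN
      linarith
    linarith
  · -- orientational order
    have hsub : (Finset.univ.filter fun i => τ < ex x i) ⊆
        (Finset.univ.filter fun i => τ' < ex x i) := by
      intro i hi
      rw [Finset.mem_filter] at hi ⊢
      exact ⟨hi.1, hτ'1.trans_lt hi.2⟩
    have h1 : ((Finset.univ.filter fun i => τ < ex x i).card : ℝ) ≤
        ((Finset.univ.filter fun i => τ' < ex x i).card : ℝ) := by
      exact_mod_cast Finset.card_le_card hsub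
    have h2 : κ' * δ * N k ≤ κ * δ * N k := by
      have : κ' ≤ κ := min_le_left _ _
      have := mul_le_mul_of_nonneg_right this hδN
      linarith
    have hs := sum_ex x hkx.1 hxA.1 hxA.2
    have h3 := hdet δ hδ hδa (N k) x hsep (hs.trans hkx.2) (by linarith) r hr1 hr2
    linarith

/-- the configurations of disks of radius `a` in the square `[0, L]²` -/
def CF (a : ℝ) (N : ℕ) (L : ℝ) : Set (Fin N → ℂ) :=
  {x | (∀ i, (0 ≤ (x i).re ∧ (x i).re ≤ L) ∧ 0 ≤ (x i).im ∧ (x i).im ≤ L) ∧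
    ∀ i j, i ≠ j → 2 * a ≤ ‖x i - x j‖}

/-- scaling of volumes -/
lemma vol_smul {N : ℕ} {a : ℝ} (ha : 0 < a) (s : Set (Fin N → ℂ)) :
    volume {x : Fin N → ℂ | ((2 * a)⁻¹ : ℝ) • x ∈ s} =
      ENNReal.ofReal ((2 * a) ^ (2 * N)) * volume s := by
  have h2a : 0 < 2 * a := by positivity
  have hset : {x : Fin N → ℂ | ((2 * a)⁻¹ : ℝ) • x ∈ s} = (2 * a) • s := by
    ext x
    rw [Set.mem_smul_set_iff_inv_smul_mem₀ h2a.ne']
    rfl
  rw [hset, Measure.addHaar_smul]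
  have hfr : Module.finrank ℝ (Fin N → ℂ) = 2 * N := by
    rw [Module.finrank_pi_fintype]
    simp [Complex.finrank_real_complex, mul_comm]
  rw [hfr, abs_of_pos (by positivity)]

lemma mem_CF {N : ℕ} {a : ℝ} (ha : 0 < a) (L : ℝ) (x : Fin N → ℂ) :
    x ∈ CF a N L ↔ ((2 * a)⁻¹ : ℝ) • x ∈ A N (L / (2 * a)) := by
  have h2a : 0 < 2 * a := by positivity
  simp only [CF, A, box, Set.mem_ofPred_eq, Pi.smul_apply, mem_Icc]
  have e1 : ∀ i, ((2 * a)⁻¹ • x i).re = (2 * a)⁻¹ * (x i).re := fun i => by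
    rw [Complex.smul_re, smul_eq_mul]
  have e2 : ∀ i, ((2 * a)⁻¹ • x i).im = (2 * a)⁻¹ * (x i).im := fun i => by
    rw [Complex.smul_im, smul_eq_mul]
  refine and_congr (forall_congr' fun i => ?_) (forall_congr' fun i => forall_congr' fun j =>
    imp_congr_right fun _ => ?_)
  · rw [e1, e2]
    have c1 : ∀ y : ℝ, (0 ≤ (2 * a)⁻¹ * y ∧ (2 * a)⁻¹ * y ≤ L / (2 * a)) ↔ (0 ≤ y ∧ y ≤ L) := by
      intro y
      rw [inv_mul_eq_div, div_le_div_iff_of_pos_right h2a]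
      refine and_congr ⟨fun h => ?_, fun h => by positivity⟩ Iff.rfl
      by_contra hc
      push Not at hc
      have := div_neg_of_neg_of_pos hc h2a
      linarith
    rw [c1, c1]
  · rw [← smul_sub, norm_smul, Real.norm_eq_abs, abs_of_pos (inv_pos.2 h2a)]
    rw [inv_mul_eq_div, le_div_iff₀ h2a, one_mul]

end Pool.Agent.J4.H83.OO
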