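import Pool.Agent.J4.H83.OO.Defs

/-!
# The grid formed by the lattice lines through the particles of a straight lattice line
-/

set_option autoImplicit false

open MeasureTheory Set

namespace Pool.Agent.J4.H83.OO

open Pool.Agent.J4.H83.FV Pool.Agent.J4.H83.HD

namespace Grid

/-- sums along an orbit -/
lemma walk_nat {α : Type*} (T : Equiv.Perm α) (f g : α → ℂ) (hfg : ∀ p, f (T p) = f p + g p)
    (v : ℂ) (e : ℝ) (p : α) (n : ℕ) (h : ∀ k < n, ‖g ((T ^ k) p) - v‖ ≤ e) :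
    ‖f ((T ^ n) p) - f p - n * v‖ ≤ n * e := by
  induction n with
  | zero => simp
  | succ n ih =>
    have h1 := ih fun k hk => h k (by omega)
    have h2 := h n (by omega)
    have h3 : f ((T ^ (n + 1)) p) = f ((T ^ n) p) + g ((T ^ n) p) := by
      rw [pow_succ', Equiv.Perm.mul_apply, hfg]
    rw [h3]
    have h4 : f ((T ^ n) p) + g ((T ^ n) p) - f p - ((n + 1 : ℕ) : ℂ) * v =
      (f ((T ^ n) p) - f p - n * v) + (g ((T ^ n) p) - v) := by push_cast; ring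
    rw [h4]
    refine (norm_add_le _ _).trans ?_
    have h5 : ((n + 1 : ℕ) : ℝ) = n + 1 := by push_cast; ring
    rw [h5]
    linarith

lemma zadd {α : Type*} (T : Equiv.Perm α) (m n : ℤ) (p : α) :
    (T ^ m) ((T ^ n) p) = (T ^ (m + n)) p := by
  rw [zpow_add, Equiv.Perm.mul_apply]

lemma walk {α : Type*} (T : Equiv.Perm α) (f g : α → ℂ) (hfg : ∀ p, f (T p) = f p + g p)
    (v : ℂ) (e : ℝ) (p : α) (m : ℤ)
    (h : ∀ k : ℤ, min 0 m ≤ k → k ≤ max 0 m → ‖g ((T ^ k) p) - v‖ ≤ e) :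
    ‖f ((T ^ m) p) - f p - m * v‖ ≤ |(m : ℝ)| * e := by
  rcases le_total 0 m with hm | hm
  · obtain ⟨n, rfl⟩ := Int.eq_ofNat_of_zero_le hm
    have h1 := walk_nat T f g hfg v e p n fun k hk => by
      have := h k (by omega) (by omega)
      rwa [zpow_natCast] at this
    rw [zpow_natCast]
    have h2 : |(((n : ℕ) : ℤ) : ℝ)| = n := by
      rw [Int.cast_natCast, abs_of_nonneg (Nat.cast_nonneg n)]
    rw [h2]
    simpa using h1
  · obtain ⟨n, hn⟩ := Int.eq_ofNat_of_zero_le (neg_nonneg.2 hm)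
    obtain rfl : m = -n := by omega
    have h1 := walk_nat T f g hfg v e ((T ^ (-n : ℤ)) p) n fun k hk => by
      have h5 := h (k + -n) (by omega) (by omega)
      have e1 : (T ^ k) ((T ^ (-n : ℤ)) p) = (T ^ ((k : ℤ) + -n)) p := by
        rw [zpow_add, Equiv.Perm.mul_apply, zpow_natCast]
      rwa [e1]
    have e2 : (T ^ n) ((T ^ (-n : ℤ)) p) = p := by
      rw [← zpow_natCast T n, ← Equiv.Perm.mul_apply, ← zpow_add]
      simp
    rw [e2, ← norm_neg] at h1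
    have h2 : |((-(n : ℤ) : ℤ) : ℝ)| = n := by
      rw [Int.cast_neg, Int.cast_natCast, abs_neg, abs_of_nonneg (Nat.cast_nonneg n)]
    rw [h2]
    refine le_of_eq_of_le ?_ h1
    congr 1
    push_cast
    ring

lemma bd_iff {N : ℕ} {x : Fin N → ℂ} {p : Fin N × Fin N} :
    p ∈ Bd x ↔ p.2 ≠ p.1 ∧ ‖bv x p‖ < 2 * R := by
  simp [Bd, Nbr, bv]

lemma swp_mem {N : ℕ} {x : Fin N → ℂ} {p : Fin N × Fin N} (hp : p ∈ Bd x) : swp N p ∈ Bd x := by
  rw [bd_iff] at hp ⊢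
  refine ⟨hp.1.symm, ?_⟩
  have : bv x (swp N p) = -bv x p := by
    show x p.1 - x p.2 = -(x p.2 - x p.1)
    ring
  rw [this, norm_neg]
  exact hp.2

lemma fw_mem {N : ℕ} {x : Fin N → ℂ} {τ C : ℝ} {ρ : Equiv.Perm (Fin N × Fin N)}
    (hρ : IsRot x τ C ρ) {p : Fin N × Fin N} (hp : p ∈ Bd x) : fw ρ p ∈ Bd x :=
  hρ.mem _ (hρ.mem _ (hρ.mem _ (swp_mem hp)))

/-- a permutation preserving a finite set, and its integer powers -/
lemma zpow_mem {α : Type*} (S : Finset α) (T : Equiv.Perm α)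
    (hT : ∀ p ∈ S, T p ∈ S) (m : ℤ) : ∀ p ∈ S, (T ^ m) p ∈ S := by
  have h0 : S.map T.toEmbedding = S := by
    apply Finset.eq_of_subset_of_card_le
    · intro p hp
      rw [Finset.mem_map] at hp
      obtain ⟨q, hq, rfl⟩ := hp
      exact hT q hq
    · rw [Finset.card_map]
  have h1 : ∀ p ∈ S, T⁻¹ p ∈ S := by
    intro p hp
    rw [← h0, Finset.mem_map] at hp
    obtain ⟨q, hq, rfl⟩ := hp
    have : T⁻¹ (T.toEmbedding q) = q := T.symm_apply_apply q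
    rw [this]
    exact hq
  induction m with
  | zero => simp
  | succ n ih =>
    intro p hp
    rw [zpow_add_one, Equiv.Perm.mul_apply]
    exact ih _ (hT p hp)
  | pred n ih =>
    intro p hp
    rw [zpow_sub_one, Equiv.Perm.mul_apply]
    exact ih _ (h1 p hp)

lemma fw_fst {N : ℕ} {x : Fin N → ℂ} {τ C : ℝ} {ρ : Equiv.Perm (Fin N × Fin N)}
    (hρ : IsRot x τ C ρ) (p : Fin N × Fin N) : (fw ρ p).1 = p.2 := by
  show (ρ (ρ (ρ (swp N p)))).1 = p.2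
  rw [hρ.fst, hρ.fst, hρ.fst]
  rfl

lemma fw_pos {N : ℕ} {x : Fin N → ℂ} {τ C : ℝ} {ρ : Equiv.Perm (Fin N × Fin N)}
    (hρ : IsRot x τ C ρ) (p : Fin N × Fin N) : x (fw ρ p).1 = x p.1 + bv x p := by
  rw [fw_fst hρ]
  unfold bv
  ring

lemma ze_re : ze.re = 1 / 2 := by
  unfold ze om
  norm_num

lemma ze_im : ze.im = √3 / 2 := by
  unfold ze om
  simp

lemma norm_ze : ‖ze‖ = 1 := by
  have h : ‖ze‖ ^ 2 = 1 := by
    rw [← Complex.normSq_eq_norm_sq, Complex.normSq_apply, ze_re, ze_im]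
    have := Real.mul_self_sqrt (show (0 : ℝ) ≤ 3 by norm_num)
    nlinarith
  have h0 := norm_nonneg ze
  nlinarith

/-- the lattice vectors are independent -/
lemma indep {w : ℂ} (hw : 1 ≤ ‖w‖) {θ : ℝ} (hθ : θ ≤ 1 / 100) (m n : ℤ)
    (h : ‖(m : ℂ) * (ze * w) - n * w‖ ≤ 3 * θ * |(m : ℝ)| + θ * |(n : ℝ)|) : m = 0 ∧ n = 0 := by
  have h1 : ‖(m : ℂ) * ze - n‖ ^ 2 = (m : ℝ) ^ 2 - m * n + n ^ 2 := by
    rw [← Complex.normSq_eq_norm_sq, Complex.normSq_apply]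
    have e1 : ((m : ℂ) * ze - n).re = m / 2 - n := by
      simp [ze_re]
      ring
    have e2 : ((m : ℂ) * ze - n).im = m * (√3 / 2) := by
      simp [ze_im]
    rw [e1, e2]
    have := Real.mul_self_sqrt (show (0 : ℝ) ≤ 3 by norm_num)
    linear_combination (m : ℝ) ^ 2 / 4 * this
  have h2 : ‖(m : ℂ) * ze - n‖ ≤ 3 / 100 * |(m : ℝ)| + 1 / 100 * |(n : ℝ)| := by
    have e : (m : ℂ) * (ze * w) - n * w = ((m : ℂ) * ze - n) * w := by ring
    rw [e, norm_mul] at h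
    have h3 := norm_nonneg ((m : ℂ) * ze - n)
    have h4 := abs_nonneg (m : ℝ)
    have h5 := abs_nonneg (n : ℝ)
    nlinarith
  have h3 := norm_nonneg ((m : ℂ) * ze - n)
  have h6 : ‖(m : ℂ) * ze - n‖ ^ 2 ≤ (3 / 100 * |(m : ℝ)| + 1 / 100 * |(n : ℝ)|) ^ 2 := by
    gcongr
  rw [h1] at h6
  have h7 : |(m : ℝ)| ^ 2 = (m : ℝ) ^ 2 := sq_abs _
  have h8 : |(n : ℝ)| ^ 2 = (n : ℝ) ^ 2 := sq_abs _
  have h9 : (m : ℝ) ^ 2 + (n : ℝ) ^ 2 ≤ 0 := by
    nlinarith [sq_nonneg (|(m : ℝ)| - |(n : ℝ)|), sq_nonneg ((m : ℝ) - n), h7, h8]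
  have h10 : (m : ℝ) ^ 2 = 0 := by nlinarith [sq_nonneg (m : ℝ), sq_nonneg (n : ℝ)]
  have h11 : (n : ℝ) ^ 2 = 0 := by nlinarith [sq_nonneg (m : ℝ), sq_nonneg (n : ℝ)]
  constructor
  · exact_mod_cast (pow_eq_zero_iff (two_ne_zero)).1 h10
  · exact_mod_cast (pow_eq_zero_iff (two_ne_zero)).1 h11

end Grid

open Grid

theorem grid {N : ℕ} (x : Fin N → ℂ) (hx : Sep x) (τ C θ : ℝ) (ρ : Equiv.Perm (Fin N × Fin N))
    (hC : 1 ≤ C) (hCτ : C * τ ≤ θ) (hθ : θ ≤ 1 / 100) (hex0 : ∀ i, 0 ≤ ex x i) (hρ : IsRot x τ C ρ)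
    (X : ℕ) (β : Fin N × Fin N) (hβ : BS x ρ X θ τ β) (I : Finset ℤ)
    (hI : ∀ a ∈ I, |a| ≤ X ∧ BS x ρ X θ τ (ρ ((fw ρ ^ a) β))) :
    (∀ a ∈ I, ∀ b : ℤ, |b| ≤ X →
      ‖x ((fw ρ ^ b) (ρ ((fw ρ ^ a) β))).1 - x β.1 - ((a : ℂ) + b * ze) * bv x β‖ ≤ 4 * θ * X ∧
      ex x ((fw ρ ^ b) (ρ ((fw ρ ^ a) β))).1 ≤ τ ∧ (fw ρ ^ b) (ρ ((fw ρ ^ a) β)) ∈ Bd x ∧
      ‖bv x ((fw ρ ^ b) (ρ ((fw ρ ^ a) β))) - ze * bv x β‖ ≤ 3 * θ) ∧
    Set.InjOn (fun p : ℤ × ℤ => ((fw ρ ^ p.2) (ρ ((fw ρ ^ p.1) β))).1)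
      {p | p.1 ∈ I ∧ |p.2| ≤ X} := by
  obtain ⟨hβm, hβs⟩ := hβ
  set w := bv x β with hw
  have hw1 : 1 ≤ ‖w‖ := by
    rw [bd_iff] at hβm
    exact hx _ _ hβm.1
  have hstep : ∀ p, x (fw ρ p).1 = x p.1 + bv x p := fw_pos hρ
  have hmem : ∀ (m : ℤ) (p : Fin N × Fin N), p ∈ Bd x → (fw ρ ^ m) p ∈ Bd x :=
    fun m => zpow_mem (Bd x) (fw ρ) (fun p hp => fw_mem hρ hp) m
  -- the direction of the transversal lines
  have hdir : ∀ a ∈ I, ‖bv x (ρ ((fw ρ ^ a) β)) - ze * w‖ ≤ 2 * θ := by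
    intro a ha
    obtain ⟨hexa, hbva⟩ := hβs a (hI a ha).1
    have h1 := hρ.vec _ (hmem a β hβm) hexa
    have h2 : C * ex x ((fw ρ ^ a) β).1 ≤ θ :=
      (mul_le_mul_of_nonneg_left hexa (by linarith)).trans hCτ
    have e : bv x (ρ ((fw ρ ^ a) β)) - ze * w = (bv x (ρ ((fw ρ ^ a) β)) -
      ze * bv x ((fw ρ ^ a) β)) + ze * (bv x ((fw ρ ^ a) β) - w) := by ring
    rw [e]
    refine (norm_add_le _ _).trans ?_
    rw [norm_mul, norm_ze, one_mul]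
    linarith
  have hdir3 : ∀ a ∈ I, ∀ b : ℤ, |b| ≤ X →
      ‖bv x ((fw ρ ^ b) (ρ ((fw ρ ^ a) β))) - ze * w‖ ≤ 3 * θ := by
    intro a ha b hb
    have h1 := hdir a ha
    have h2 := ((hI a ha).2.2 b hb).2
    have e : bv x ((fw ρ ^ b) (ρ ((fw ρ ^ a) β))) - ze * w =
      (bv x ((fw ρ ^ b) (ρ ((fw ρ ^ a) β))) - bv x (ρ ((fw ρ ^ a) β))) +
        (bv x (ρ ((fw ρ ^ a) β)) - ze * w) := by ring
    rw [e]
    refine (norm_add_le _ _).trans ?_
    linarith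
  have hθ0 : 0 ≤ θ := (norm_nonneg _).trans (hβs 0 (by simp)).2
  -- positions
  have hposb : ∀ a ∈ I, ∀ b : ℤ, |b| ≤ X →
      ‖x ((fw ρ ^ b) (ρ ((fw ρ ^ a) β))).1 - x (ρ ((fw ρ ^ a) β)).1 - b * (ze * w)‖ ≤
        |(b : ℝ)| * (3 * θ) := by
    intro a ha b hb
    refine walk (fw ρ) (fun p => x p.1) (bv x) hstep (ze * w) (3 * θ) _ b fun k hk1 hk2 =>
      hdir3 a ha k ?_
    rw [abs_le] at hb ⊢
    constructor <;> omega
  have hposa : ∀ a a' : ℤ, |a| ≤ X → |a'| ≤ X →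
      ‖x ((fw ρ ^ a') β).1 - x ((fw ρ ^ a) β).1 - ((a' - a : ℤ) : ℂ) * w‖ ≤
        |((a' - a : ℤ) : ℝ)| * θ := by
    intro a a' ha ha'
    have h1 := walk (fw ρ) (fun p => x p.1) (bv x) hstep w θ ((fw ρ ^ a) β) (a' - a)
      fun k hk1 hk2 => by
        rw [← Equiv.Perm.mul_apply, ← zpow_add]
        refine (hβs (k + a) ?_).2
        rw [abs_le] at ha ha' ⊢
        constructor <;> omega
    have e : (fw ρ ^ (a' - a)) ((fw ρ ^ a) β) = (fw ρ ^ a') β := by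
      rw [← Equiv.Perm.mul_apply, ← zpow_add, sub_add_cancel]
    rw [e] at h1
    exact h1
  refine ⟨?_, ?_⟩
  · intro a ha b hb
    refine ⟨?_, ((hI a ha).2.2 b hb).1, hmem b _ (hI a ha).2.1, hdir3 a ha b hb⟩
    have h1 := hposb a ha b hb
    have h2 := hposa 0 a (by simp) (hI a ha).1
    rw [zpow_zero, Equiv.Perm.one_apply, sub_zero] at h2
    rw [hρ.fst] at h1
    have e : x ((fw ρ ^ b) (ρ ((fw ρ ^ a) β))).1 - x β.1 - ((a : ℂ) + b * ze) * w =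
      (x ((fw ρ ^ b) (ρ ((fw ρ ^ a) β))).1 - x ((fw ρ ^ a) β).1 - b * (ze * w)) +
        (x ((fw ρ ^ a) β).1 - x β.1 - a * w) := by ring
    rw [e]
    refine (norm_add_le _ _).trans ((add_le_add h1 h2).trans ?_)
    have hb' : |(b : ℝ)| ≤ X := by exact_mod_cast hb
    have ha' : |(a : ℝ)| ≤ X := by exact_mod_cast (hI a ha).1
    nlinarith
  · rintro ⟨a, b⟩ ⟨ha, hb⟩ ⟨a', b'⟩ ⟨ha', hb'⟩ hEq
    simp only at ha hb ha' hb' hEq
    -- the bonds are equal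
    have hd1 := hdir3 a ha b hb
    have hd2 := hdir3 a' ha' b' hb'
    have hsnd : ((fw ρ ^ b) (ρ ((fw ρ ^ a) β))).2 = ((fw ρ ^ b') (ρ ((fw ρ ^ a') β))).2 := by
      by_contra hne
      have h1 := hx _ _ hne
      have e : x ((fw ρ ^ b) (ρ ((fw ρ ^ a) β))).2 - x ((fw ρ ^ b') (ρ ((fw ρ ^ a') β))).2 =
        (bv x ((fw ρ ^ b) (ρ ((fw ρ ^ a) β))) - ze * w) -
          (bv x ((fw ρ ^ b') (ρ ((fw ρ ^ a') β))) - ze * w) := by
        unfold bv
        rw [hEq]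
        ring
      rw [e] at h1
      have h2 := norm_sub_le (bv x ((fw ρ ^ b) (ρ ((fw ρ ^ a) β))) - ze * w)
        (bv x ((fw ρ ^ b') (ρ ((fw ρ ^ a') β))) - ze * w)
      linarith
    have hbond : (fw ρ ^ b) (ρ ((fw ρ ^ a) β)) = (fw ρ ^ b') (ρ ((fw ρ ^ a') β)) :=
      Prod.ext hEq hsnd
    -- the centres on the first line
    have hA := hposa a a' (hI a ha).1 (hI a' ha').1
    have hB : ‖x (ρ ((fw ρ ^ a') β)).1 - x (ρ ((fw ρ ^ a) β)).1 -
        ((b - b' : ℤ) : ℂ) * (ze * w)‖ ≤ |((b - b' : ℤ) : ℝ)| * (3 * θ) := by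
      by_cases hs : |b - b'| ≤ X
      · have h1 := walk (fw ρ) (fun p => x p.1) (bv x) hstep (ze * w) (3 * θ)
          (ρ ((fw ρ ^ a) β)) (b - b') fun k hk1 hk2 => hdir3 a ha k (by
            rw [abs_le] at hs ⊢
            constructor <;> omega)
        have e : (fw ρ ^ (b - b')) (ρ ((fw ρ ^ a) β)) = ρ ((fw ρ ^ a') β) := by
          have h2 : (fw ρ ^ (-b')) ((fw ρ ^ b) (ρ ((fw ρ ^ a) β))) =
            (fw ρ ^ (-b')) ((fw ρ ^ b') (ρ ((fw ρ ^ a') β))) := by rw [hbond]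
          rw [zadd, zadd, neg_add_cancel, zpow_zero, Equiv.Perm.one_apply] at h2
          rw [← h2]
          congr 2
          ring
        rw [e] at h1
        exact h1
      · have h1 := hposb a ha b hb
        have h2 := hposb a' ha' b' hb'
        rw [← hbond] at h2
        have e : x (ρ ((fw ρ ^ a') β)).1 - x (ρ ((fw ρ ^ a) β)).1 -
          ((b - b' : ℤ) : ℂ) * (ze * w) =
          (x ((fw ρ ^ b) (ρ ((fw ρ ^ a) β))).1 - x (ρ ((fw ρ ^ a) β)).1 - b * (ze * w)) -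
          (x ((fw ρ ^ b) (ρ ((fw ρ ^ a) β))).1 - x (ρ ((fw ρ ^ a') β)).1 - b' * (ze * w)) := by
          push_cast
          ring
        rw [e]
        refine (norm_sub_le _ _).trans ((add_le_add h1 h2).trans ?_)
        have h3 : |(b : ℝ)| + |(b' : ℝ)| = |((b - b' : ℤ) : ℝ)| := by
          have : |b| + |b'| = |b - b'| := by
            rw [abs_le] at hb hb' hs
            rcases le_total 0 b with h | h <;> rcases le_total 0 b' with h' | h' <;>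
              rcases le_total 0 (b - b') with h'' | h'' <;>
              first
              | (rw [abs_of_nonneg h, abs_of_nonneg h', abs_of_nonneg h'']; omega)
              | (rw [abs_of_nonneg h, abs_of_nonneg h', abs_of_nonpos h'']; omega)
              | (rw [abs_of_nonneg h, abs_of_nonpos h', abs_of_nonneg h'']; omega)
              | (rw [abs_of_nonneg h, abs_of_nonpos h', abs_of_nonpos h'']; omega)
              | (rw [abs_of_nonpos h, abs_of_nonneg h', abs_of_nonneg h'']; omega)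
              | (rw [abs_of_nonpos h, abs_of_nonneg h', abs_of_nonpos h'']; omega)
              | (rw [abs_of_nonpos h, abs_of_nonpos h', abs_of_nonneg h'']; omega)
              | (rw [abs_of_nonpos h, abs_of_nonpos h', abs_of_nonpos h'']; omega)
          exact_mod_cast this
        rw [← h3]
        linarith
    rw [hρ.fst, hρ.fst] at hB
    have hC' : ‖((b - b' : ℤ) : ℂ) * (ze * w) - ((a' - a : ℤ) : ℂ) * w‖ ≤
        3 * θ * |((b - b' : ℤ) : ℝ)| + θ * |((a' - a : ℤ) : ℝ)| := by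
      have e : ((b - b' : ℤ) : ℂ) * (ze * w) - ((a' - a : ℤ) : ℂ) * w =
        (x ((fw ρ ^ a') β).1 - x ((fw ρ ^ a) β).1 - ((a' - a : ℤ) : ℂ) * w) -
        (x ((fw ρ ^ a') β).1 - x ((fw ρ ^ a) β).1 - ((b - b' : ℤ) : ℂ) * (ze * w)) := by ring
      rw [e]
      refine (norm_sub_le _ _).trans ?_
      linarith
    obtain ⟨h1, h2⟩ := indep hw1 hθ _ _ hC'
    ext <;> simp <;> omega

end Pool.Agent.J4.H83.OO
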