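import Pool.Agent.J4.H83.OO.Defs

/-!
# Piece PACK: the number of particles in a parallelogram
-/

set_option autoImplicit false

open MeasureTheory Set

namespace Pool.Agent.J4.H83.OO

open Pool.Agent.J4.H83.FV Pool.Agent.J4.H83.HD

namespace Pk

/-- the linear map `s + i t ↦ (s + t ζ) w` -/
noncomputable def lin (w : ℂ) : ℂ →ₗ[ℝ] ℂ where
  toFun z := ((z.re : ℂ) + z.im * ze) * w
  map_add' x y := by
    simp only [Complex.add_re, Complex.add_im]
    push_cast
    ring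
  map_smul' r x := by
    simp only [Complex.real_smul, Complex.mul_re, Complex.mul_im, Complex.ofReal_re,
      Complex.ofReal_im, zero_mul, sub_zero, add_zero, RingHom.id_apply]
    push_cast
    ring

lemma ze_re : ze.re = 1 / 2 := by
  unfold ze om
  simp
  norm_num

lemma ze_im : ze.im = √3 / 2 := by
  unfold ze om
  simp

lemma det_lin (w : ℂ) : LinearMap.det (lin w) = √3 / 2 * ‖w‖ ^ 2 := by
  rw [← LinearMap.det_toMatrix Complex.basisOneI, Matrix.det_fin_two]
  simp only [LinearMap.toMatrix_apply, Complex.coe_basisOneI_repr, Complex.coe_basisOneI]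
  simp only [lin, LinearMap.coe_mk, AddHom.coe_mk, Matrix.cons_val_zero, Matrix.cons_val_one,
    Complex.one_re, Complex.one_im, Complex.I_re, Complex.I_im]
  have h1 : ‖w‖ ^ 2 = w.re ^ 2 + w.im ^ 2 := nsq w
  rw [h1]
  simp only [Complex.mul_re, Complex.mul_im, Complex.add_re, Complex.add_im, Complex.ofReal_re,
    Complex.ofReal_im, ze_re, ze_im]
  simp
  ring

/-- the parallelogram -/
def par (c w : ℂ) (Z : ℝ) : Set ℂ := (fun z => c + lin w z) '' box (-Z) Z

lemma vol_par (c w : ℂ) {Z : ℝ} (hZ : 0 ≤ Z) :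
    volume (par c w Z) = ENNReal.ofReal (√3 / 2 * (‖w‖ ^ 2 * (2 * Z) ^ 2)) := by
  have h1 : par c w Z = (fun z => c + z) '' (lin w '' box (-Z) Z) := by
    unfold par
    rw [image_image]
  rw [h1, image_add_left, measure_preimage_add, Measure.addHaar_image_linearMap, det_lin,
    vol_box (by linarith), ← ENNReal.ofReal_mul (abs_nonneg _), abs_of_nonneg (by positivity)]
  congr 1
  ring

lemma exists_coord (w v : ℂ) (hw : 1 ≤ ‖w‖) (hv : ‖v‖ < R) :
    ∃ s t : ℝ, |s| ≤ 1 ∧ |t| ≤ 1 ∧ v = ((s : ℂ) + t * ze) * w := by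
  have hw0 : w ≠ 0 := by
    intro h; rw [h, norm_zero] at hw; linarith
  set ν := v / w with hν
  have hνR : ‖ν‖ < R := by
    rw [hν, norm_div]
    calc ‖v‖ / ‖w‖ ≤ ‖v‖ / 1 := by gcongr
      _ = ‖v‖ := by ring
      _ < R := hv
  have h3 : (0 : ℝ) < √3 := by positivity
  have h33 : √3 ^ 2 = 3 := Real.sq_sqrt (by norm_num)
  have hsq : ν.re ^ 2 + ν.im ^ 2 < 1 / 3 := by
    rw [← nsq, ← R_sq]
    have := norm_nonneg ν
    nlinarith
  refine ⟨ν.re - ν.im / √3, ν.im * (2 / √3), ?_, ?_, ?_⟩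
  · rw [← sq_le_one_iff_abs_le_one]
    have h4 : (ν.re - ν.im / √3) ^ 2 = ν.re ^ 2 - 2 * ν.re * (ν.im / √3) + (ν.im / √3) ^ 2 := by
      ring
    have h5 : (ν.im / √3) ^ 2 = ν.im ^ 2 / 3 := by rw [div_pow, h33]
    nlinarith [sq_nonneg (ν.re + ν.im / √3), sq_nonneg ν.im, sq_nonneg ν.re]
  · rw [← sq_le_one_iff_abs_le_one]
    have h5 : (ν.im * (2 / √3)) ^ 2 = ν.im ^ 2 * 4 / 3 := by
      rw [mul_pow, div_pow, h33]; ring
    rw [h5]
    nlinarith [sq_nonneg ν.re]
  · have h6 : (((ν.re - ν.im / √3 : ℝ) : ℂ) + ((ν.im * (2 / √3) : ℝ) : ℂ) * ze) = ν := by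
      apply Complex.ext
      · simp only [Complex.add_re, Complex.mul_re, Complex.ofReal_re, Complex.ofReal_im, ze_re,
          ze_im]
        field_simp
        ring
      · simp only [Complex.add_im, Complex.mul_im, Complex.ofReal_re, Complex.ofReal_im, ze_re,
          ze_im]
        field_simp
        ring
    rw [h6, hν]
    field_simp

end Pk

theorem pack_par {N : ℕ} (x : Fin N → ℂ) (hx : Sep x) (c w : ℂ) (hw : 1 ≤ ‖w‖) (Y : ℝ) (hY : 0 ≤ Y)
    (J : Finset (Fin N)) (hJ : ∀ i ∈ J, ∃ s t : ℝ, |s| ≤ Y ∧ |t| ≤ Y ∧ x i = c + (s + t * ze) * w) :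
    (J.card : ℝ) ≤ ‖w‖ ^ 2 * (2 * Y + 2) ^ 2 := by
  have hR := R_pos
  obtain ⟨_, _, _, _, hst⟩ := structure_thm
  set V : Fin N → Set ℂ := fun i =>
    (fun p => p - x i) ⁻¹' (T (Finset.univ.erase i) fun j => x j - x i) with hV
  have hvol : ∀ i, volume (V i) = volume (T (Finset.univ.erase i) fun j => x j - x i) := by
    intro i
    exact (measurePreserving_sub_right volume (x i)).measure_preimage (T_meas _ _).nullMeasurableSet
  have hmem : ∀ i p, p ∈ V i ↔ ‖p - x i‖ < R ∧ ∀ j, j ≠ i → ‖p - x i‖ < ‖p - x j‖ := by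
    intro i p
    simp only [hV, mem_preimage, T, mem_setOf_eq, Finset.mem_erase, Finset.mem_univ, and_true,
      sub_sub_sub_cancel_right]
  have hmeas : ∀ i, MeasurableSet (V i) := fun i => (measurable_sub_const _) (T_meas _ _)
  have hdis : Pairwise (Function.onFun Disjoint V) := by
    intro i j hij
    rw [Function.onFun, Set.disjoint_left]
    intro p hp hq
    rw [hmem] at hp hq
    have h1 := hp.2 j hij.symm
    have h2 := hq.2 i hij
    linarith
  have hsub : (⋃ i ∈ J, V i) ⊆ Pk.par c w (Y + 1) := by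
    intro p hp
    rw [mem_iUnion₂] at hp
    obtain ⟨i, hiJ, hi⟩ := hp
    have h1 := ((hmem i p).1 hi).1
    obtain ⟨s, t, hs, ht, hxi⟩ := hJ i hiJ
    obtain ⟨s', t', hs', ht', hv⟩ := Pk.exists_coord w (p - x i) hw h1
    refine ⟨⟨s + s', t + t'⟩, ?_, ?_⟩
    · have a1 := abs_le.1 hs
      have a2 := abs_le.1 ht
      have a3 := abs_le.1 hs'
      have a4 := abs_le.1 ht'
      refine ⟨⟨?_, ?_⟩, ?_, ?_⟩ <;> simp only <;> linarith
    · have h2 : p = x i + (p - x i) := by ring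
      rw [h2, hv, hxi]
      simp only [Pk.lin, LinearMap.coe_mk, AddHom.coe_mk]
      push_cast
      ring
  have hle : ∑ i ∈ J, volume (V i) ≤
      ENNReal.ofReal (√3 / 2 * (‖w‖ ^ 2 * (2 * (Y + 1)) ^ 2)) := by
    calc ∑ i ∈ J, volume (V i) = volume (⋃ i ∈ J, V i) := by
          rw [measure_biUnion_finset (fun i _ j _ hij => hdis hij) fun i _ => hmeas i]
      _ ≤ volume (Pk.par c w (Y + 1)) := measure_mono hsub
      _ = _ := Pk.vol_par c w (by linarith)
  have hfin : ∀ i ∈ J, volume (V i) ≠ ⊤ := fun i hi =>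
    ((Finset.single_le_sum (f := fun i => volume (V i)) (fun j _ => zero_le) hi).trans_lt
      (hle.trans_lt ENNReal.ofReal_lt_top)).ne
  have h1 := ENNReal.toReal_mono ENNReal.ofReal_ne_top hle
  rw [ENNReal.toReal_ofReal (by positivity), ENNReal.toReal_sum fun i hi => hfin i hi] at h1
  have h2 : ∀ i ∈ J, √3 / 2 ≤ (volume (V i)).toReal := by
    intro i _
    have h3 := (hst N x hx i).1
    unfold ex at h3
    rw [hvol]
    linarith
  have h3 := Finset.card_nsmul_le_sum J _ _ h2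
  rw [nsmul_eq_mul] at h3
  have h4 : (0 : ℝ) < √3 := by positivity
  have h5 : (J.card : ℝ) * (√3 / 2) ≤ √3 / 2 * (‖w‖ ^ 2 * (2 * (Y + 1)) ^ 2) := h3.trans h1
  have h6 : (J.card : ℝ) ≤ ‖w‖ ^ 2 * (2 * (Y + 1)) ^ 2 := by
    by_contra h7
    push Not at h7
    nlinarith
  calc (J.card : ℝ) ≤ ‖w‖ ^ 2 * (2 * (Y + 1)) ^ 2 := h6
    _ = _ := by ring

end Pool.Agent.J4.H83.OO
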