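import Pool.Agent.J4.H83.OO.Defs

/-!
# The local bond-orientational order parameter
-/

set_option autoImplicit false

open MeasureTheory Set

namespace Pool.Agent.J4.H83.OO

open Pool.Agent.J4.H83.FV Pool.Agent.J4.H83.HD

namespace Psi

lemma ze_sq : ze ^ 2 = ze - 1 := by
  have h3 : √3 * √3 = 3 := Real.mul_self_sqrt (by norm_num)
  unfold ze om
  apply Complex.ext
  · simp only [pow_two, Complex.mul_re, Complex.add_re, Complex.one_re, Complex.add_im,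
      Complex.one_im, Complex.sub_re]
    linarith
  · simp only [pow_two, Complex.mul_im, Complex.add_re, Complex.one_re, Complex.add_im,
      Complex.one_im, Complex.sub_im]
    ring

lemma ze_cube : ze ^ 3 = -1 := by
  have h : ze ^ 3 = ze * ze ^ 2 := by ring
  rw [h, ze_sq, mul_sub, ← pow_two, ze_sq]
  ring

lemma ze_six : ze ^ 6 = 1 := by
  have h : ze ^ 6 = (ze ^ 3) ^ 2 := by ring
  rw [h, ze_cube]
  norm_num

lemma norm_ze : ‖ze‖ = 1 := by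
  have h : ‖ze‖ ^ 6 = 1 := by rw [← norm_pow, ze_six, norm_one]
  exact (pow_eq_one_iff_of_nonneg (norm_nonneg _) (by norm_num)).1 h

lemma norm_ze_pow (m : ℕ) : ‖ze ^ m‖ = 1 := by rw [norm_pow, norm_ze, one_pow]

lemma gap {k : ℕ} (h0 : 0 < k) (h6 : k < 6) : 1 ≤ ‖ze ^ k - 1‖ := by
  have h2 : ‖(2 : ℂ)‖ = 2 := by norm_num
  have hz := norm_ze
  interval_cases k
  · rw [pow_one, ← ze_sq, norm_ze_pow]
  · rw [ze_sq]
    have h1 : ze - 1 - 1 = ze - 2 := by ring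
    rw [h1, norm_sub_rev]
    have := norm_sub_norm_le (2 : ℂ) ze
    linarith
  · rw [ze_cube]
    have h1 : (-1 : ℂ) - 1 = -2 := by norm_num
    rw [h1, norm_neg, h2]
    norm_num
  · have h1 : ze ^ 4 - 1 = -(2 * ze - (ze - 1)) := by
      have h4 : ze ^ 4 = ze ^ 3 * ze := by ring
      rw [h4, ze_cube]
      ring
    rw [h1, norm_neg, ← ze_sq]
    have h3 := norm_sub_norm_le (2 * ze) (ze ^ 2)
    rw [norm_mul, h2, hz, norm_ze_pow] at h3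
    linarith
  · have h1 : ze ^ 5 - 1 = -ze := by
      have h5 : ze ^ 5 = ze ^ 3 * ze ^ 2 := by ring
      rw [h5, ze_cube, ze_sq]
      ring
    rw [h1, norm_neg, hz]

lemma gap2 {a b : ℕ} (ha : a < 6) (hb : b < 6) (hab : a ≠ b) : 1 ≤ ‖ze ^ a - ze ^ b‖ := by
  have key : ∀ a b : ℕ, a < 6 → b < a → 1 ≤ ‖ze ^ a - ze ^ b‖ := by
    intro a b ha hab
    obtain ⟨c, rfl⟩ := Nat.exists_eq_add_of_lt hab
    have h1 : ze ^ (b + c + 1) - ze ^ b = ze ^ b * (ze ^ (c + 1) - 1) := by ring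
    rw [h1, norm_mul, norm_ze_pow, one_mul]
    exact gap (by omega) (by omega)
  rcases lt_or_gt_of_ne hab with h | h
  · rw [norm_sub_rev]
    exact key b a hb h
  · exact key a b ha h

/-- directions of nearby vectors -/
lemma dir_close {a b : ℂ} (hb : 1 ≤ ‖b‖) (ha : a ≠ 0) :
    ‖a / (‖a‖ : ℂ) - b / (‖b‖ : ℂ)‖ ≤ 2 * ‖a - b‖ := by
  have ha' : 0 < ‖a‖ := norm_pos_iff.2 ha
  have hb' : 0 < ‖b‖ := by linarith
  have h1 : a / (‖a‖ : ℂ) - b / (‖b‖ : ℂ) =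
      ((a - b) + (a / (‖a‖ : ℂ)) * ((‖b‖ - ‖a‖ : ℝ) : ℂ)) / (‖b‖ : ℂ) := by
    have h2 : (‖a‖ : ℂ) ≠ 0 := by exact_mod_cast ha'.ne'
    have h3 : (‖b‖ : ℂ) ≠ 0 := by exact_mod_cast hb'.ne'
    push_cast
    field_simp
    ring
  rw [h1, norm_div, Complex.norm_real, norm_norm, div_le_iff₀ hb']
  have h4 : ‖a / (‖a‖ : ℂ)‖ = 1 := by
    rw [norm_div, Complex.norm_real, norm_norm, div_self ha'.ne']
  have h5 : ‖(a - b) + (a / (‖a‖ : ℂ)) * ((‖b‖ - ‖a‖ : ℝ) : ℂ)‖ ≤ ‖a - b‖ + ‖a - b‖ := by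
    refine (norm_add_le _ _).trans ?_
    gcongr
    rw [norm_mul, h4, one_mul, Complex.norm_real, Real.norm_eq_abs]
    refine (abs_norm_sub_norm_le b a).trans ?_
    rw [norm_sub_rev]
  have h6 : 0 ≤ ‖a - b‖ := norm_nonneg _
  nlinarith

lemma six_close {u v : ℂ} (hu : ‖u‖ ≤ 1) (hv : ‖v‖ ≤ 1) : ‖u ^ 6 - v ^ 6‖ ≤ 6 * ‖u - v‖ := by
  have h1 : u ^ 6 - v ^ 6 = (u - v) * (u ^ 5 + u ^ 4 * v + u ^ 3 * v ^ 2 + u ^ 2 * v ^ 3 +
      u * v ^ 4 + v ^ 5) := by ring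
  have h2 : ∀ a b : ℕ, ‖u ^ a * v ^ b‖ ≤ 1 := by
    intro a b
    rw [norm_mul, norm_pow, norm_pow]
    exact mul_le_one₀ (pow_le_one₀ (norm_nonneg _) hu) (pow_nonneg (norm_nonneg _) _)
      (pow_le_one₀ (norm_nonneg _) hv)
  have h3 : ‖u ^ 5 + u ^ 4 * v + u ^ 3 * v ^ 2 + u ^ 2 * v ^ 3 + u * v ^ 4 + v ^ 5‖ ≤ 6 := by
    have a0 := h2 5 0
    have a1 := h2 4 1
    have a2 := h2 3 2
    have a3 := h2 2 3
    have a4 := h2 1 4
    have a5 := h2 0 5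
    rw [pow_zero, mul_one] at a0
    rw [pow_one] at a1 a4
    rw [pow_zero, one_mul] at a5
    have b1 := norm_add_le (u ^ 5) (u ^ 4 * v)
    have b2 := norm_add_le (u ^ 5 + u ^ 4 * v) (u ^ 3 * v ^ 2)
    have b3 := norm_add_le (u ^ 5 + u ^ 4 * v + u ^ 3 * v ^ 2) (u ^ 2 * v ^ 3)
    have b4 := norm_add_le (u ^ 5 + u ^ 4 * v + u ^ 3 * v ^ 2 + u ^ 2 * v ^ 3) (u * v ^ 4)
    have b5 := norm_add_le (u ^ 5 + u ^ 4 * v + u ^ 3 * v ^ 2 + u ^ 2 * v ^ 3 + u * v ^ 4) (v ^ 5)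
    linarith
  rw [h1, norm_mul]
  have h4 : 0 ≤ ‖u - v‖ := norm_nonneg _
  nlinarith

end Psi

open Psi

theorem psi_le {N : ℕ} (x : Fin N → ℂ) (i : Fin N) : ‖psi x i‖ ≤ 1 := by
  unfold psi
  rw [norm_mul, norm_div, norm_one, Complex.norm_natCast]
  have h1 : ‖∑ j ∈ Nbr x i, ((x j - x i) / (‖x j - x i‖ : ℂ)) ^ 6‖ ≤ (Nbr x i).card := by
    refine (norm_sum_le _ _).trans ?_
    have h2 : ∀ j ∈ Nbr x i, ‖((x j - x i) / (‖x j - x i‖ : ℂ)) ^ 6‖ ≤ 1 := by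
      intro j _
      rw [norm_pow, norm_div, Complex.norm_real, norm_norm]
      exact pow_le_one₀ (by positivity) (div_self_le_one _)
    refine (Finset.sum_le_sum h2).trans ?_
    rw [Finset.sum_const, nsmul_eq_mul, mul_one]
  rcases Nat.eq_zero_or_pos (Nbr x i).card with h0 | h0
  · rw [h0]
    norm_num
  · have h3 : (0 : ℝ) < (Nbr x i).card := by exact_mod_cast h0
    rw [div_mul_eq_mul_div, one_mul, div_le_one h3]
    exact h1

theorem psi_close {N : ℕ} (x : Fin N → ℂ) (hx : Sep x) (τ C θ : ℝ)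
    (ρ : Equiv.Perm (Fin N × Fin N)) (hC : 1 ≤ C) (hCτ : C * τ ≤ θ) (hθ : θ ≤ 1 / 100)
    (hex0 : ∀ i, 0 ≤ ex x i) (hρ : IsRot x τ C ρ) (γ : Fin N × Fin N) (hγ : γ ∈ Bd x)
    (hγ1 : ex x γ.1 ≤ τ) (w : ℂ) (hw : 1 ≤ ‖w‖) (h : ‖bv x γ - ze * w‖ ≤ 3 * θ) :
    ‖psi x γ.1 - (w / (‖w‖ : ℂ)) ^ 6‖ ≤ 400 * θ := by
  classical
  set i := γ.1 with hi
  have hτ0 : 0 ≤ τ := (hex0 i).trans hγ1
  have hθ0 : 0 ≤ θ := le_trans (mul_nonneg (by linarith) hτ0) hCτ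
  have hstep : ∀ m : ℕ, ((ρ ^ m) γ).1 = i ∧ (ρ ^ m) γ ∈ Bd x ∧
      ‖bv x ((ρ ^ m) γ) - ze ^ m * bv x γ‖ ≤ m * θ := by
    intro m
    induction m with
    | zero => refine ⟨rfl, hγ, ?_⟩; simp
    | succ m ih =>
      obtain ⟨h1, h2, h3⟩ := ih
      have h4 : (ρ ^ (m + 1)) γ = ρ ((ρ ^ m) γ) := by
        rw [pow_succ', Equiv.Perm.mul_apply]
      rw [h4]
      refine ⟨(hρ.fst _).trans h1, hρ.mem _ h2, ?_⟩
      have h5 : ex x ((ρ ^ m) γ).1 ≤ τ := by rw [h1]; exact hγ1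
      have h6 := hρ.vec _ h2 h5
      have h7 : C * ex x ((ρ ^ m) γ).1 ≤ θ :=
        (mul_le_mul_of_nonneg_left h5 (by linarith)).trans hCτ
      have h8 : bv x (ρ ((ρ ^ m) γ)) - ze ^ (m + 1) * bv x γ =
          (bv x (ρ ((ρ ^ m) γ)) - ze * bv x ((ρ ^ m) γ)) +
            ze * (bv x ((ρ ^ m) γ) - ze ^ m * bv x γ) := by ring
      rw [h8]
      refine (norm_add_le _ _).trans ?_
      rw [norm_mul, norm_ze, one_mul, Nat.cast_succ]
      linarith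
  have hclose : ∀ m < 6, ‖bv x ((ρ ^ m) γ) - ze ^ (m + 1) * w‖ ≤ 8 * θ := by
    intro m hm
    have h1 := (hstep m).2.2
    have h2 : bv x ((ρ ^ m) γ) - ze ^ (m + 1) * w = (bv x ((ρ ^ m) γ) - ze ^ m * bv x γ) +
        ze ^ m * (bv x γ - ze * w) := by ring
    rw [h2]
    refine (norm_add_le _ _).trans ?_
    rw [norm_mul, norm_ze_pow, one_mul]
    have h3 : (m : ℝ) ≤ 5 := by exact_mod_cast (by omega : m ≤ 5)
    nlinarith
  have hinj : Set.InjOn (fun m : ℕ => ((ρ ^ m) γ).2) (Finset.range 6 : Finset ℕ) := by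
    intro a ha b hb hab
    rw [Finset.mem_coe, Finset.mem_range] at ha hb
    by_contra hne
    have h1 : (ρ ^ a) γ = (ρ ^ b) γ :=
      Prod.ext ((hstep a).1.trans (hstep b).1.symm) hab
    have h2 := hclose a ha
    have h3 := hclose b hb
    rw [h1] at h2
    have h4 : ‖(ze ^ a - ze ^ b) * (ze * w)‖ ≤ 16 * θ := by
      have h5 : (ze ^ a - ze ^ b) * (ze * w) = (bv x ((ρ ^ b) γ) - ze ^ (b + 1) * w) -
          (bv x ((ρ ^ b) γ) - ze ^ (a + 1) * w) := by ring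
      rw [h5]
      refine (norm_sub_le _ _).trans ?_
      linarith
    rw [norm_mul, norm_mul, norm_ze, one_mul] at h4
    have h5 := gap2 ha hb hne
    nlinarith [norm_nonneg w]
  have himg : (Finset.range 6).image (fun m : ℕ => ((ρ ^ m) γ).2) = Nbr x i := by
    refine Finset.eq_of_subset_of_card_le ?_ ?_
    · intro j hj
      rw [Finset.mem_image] at hj
      obtain ⟨m, -, rfl⟩ := hj
      have h1 := (hstep m).2.1
      unfold Bd at h1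
      rw [Finset.mem_filter] at h1
      have h2 := h1.2
      rwa [(hstep m).1] at h2
    · rw [hρ.six i hγ1, Finset.card_image_of_injOn hinj, Finset.card_range]
  have hsum : psi x i - (w / (‖w‖ : ℂ)) ^ 6 = (1 / 6 : ℂ) * ∑ m ∈ Finset.range 6,
      ((bv x ((ρ ^ m) γ) / (‖bv x ((ρ ^ m) γ)‖ : ℂ)) ^ 6 - (w / (‖w‖ : ℂ)) ^ 6) := by
    unfold psi
    rw [hρ.six i hγ1, ← himg, Finset.sum_image hinj, Finset.sum_sub_distrib, Finset.sum_const,
      Finset.card_range, mul_sub]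
    have h1 : ∀ m, bv x ((ρ ^ m) γ) = x ((ρ ^ m) γ).2 - x i := by
      intro m
      unfold bv
      rw [(hstep m).1]
    simp only [h1]
    rw [nsmul_eq_mul]
    have h6 : ((6 : ℕ) : ℂ) = 6 := by norm_num
    rw [h6]
    ring
  rw [hsum, norm_mul]
  have hterm : ∀ m ∈ Finset.range 6,
      ‖(bv x ((ρ ^ m) γ) / (‖bv x ((ρ ^ m) γ)‖ : ℂ)) ^ 6 - (w / (‖w‖ : ℂ)) ^ 6‖ ≤ 96 * θ := by
    intro m hm
    rw [Finset.mem_range] at hm
    have h1 := hclose m hm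
    set a := bv x ((ρ ^ m) γ) with ha
    set b := ze ^ (m + 1) * w with hb
    have hbn : ‖b‖ = ‖w‖ := by rw [hb, norm_mul, norm_ze_pow, one_mul]
    have ha0 : a ≠ 0 := by
      intro h0
      rw [h0, zero_sub, norm_neg, hbn] at h1
      linarith
    have h2 : (b / (‖b‖ : ℂ)) ^ 6 = (w / (‖w‖ : ℂ)) ^ 6 := by
      rw [hbn, hb, mul_div_assoc, mul_pow, ← pow_mul, mul_comm (m + 1) 6, pow_mul, ze_six,
        one_pow, one_mul]
    rw [← h2]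
    have h3 : ∀ c : ℂ, ‖c / (‖c‖ : ℂ)‖ ≤ 1 := by
      intro c
      rw [norm_div, Complex.norm_real, norm_norm]
      exact div_self_le_one _
    have h4 := six_close (h3 a) (h3 b)
    have h5 := dir_close (a := a) (b := b) (by rw [hbn]; exact hw) ha0
    linarith
  have h1 : ‖∑ m ∈ Finset.range 6, ((bv x ((ρ ^ m) γ) / (‖bv x ((ρ ^ m) γ)‖ : ℂ)) ^ 6 -
      (w / (‖w‖ : ℂ)) ^ 6)‖ ≤ 6 * (96 * θ) := by
    refine (norm_sum_le _ _).trans ((Finset.sum_le_sum hterm).trans ?_)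
    rw [Finset.sum_const, Finset.card_range, nsmul_eq_mul]
    norm_num
  have h2 : ‖(1 / 6 : ℂ)‖ = 1 / 6 := by norm_num
  rw [h2]
  linarith

end Pool.Agent.J4.H83.OO
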