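import Pool.Agent.J4.H83.OO.Rot
import Pool.Agent.J4.H83.OO.Straight
import Pool.Agent.J4.H83.OO.CountO
import Pool.Agent.J4.H83.OO.Grid
import Pool.Agent.J4.H83.OO.Psi
import Pool.Agent.J4.H83.OO.PackPar

/-!
# Local order around a particle on straight lines
-/

set_option autoImplicit false

open MeasureTheory Set Filter Topology

namespace Pool.Agent.J4.H83.OO

open Pool.Agent.J4.H83.FV Pool.Agent.J4.H83.HD

lemma ze_re : ze.re = 1 / 2 := by
  unfold ze om; simp; norm_num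

lemma ze_im : ze.im = √3 / 2 := by
  unfold ze om; simp

lemma norm_ze : ‖ze‖ = 1 := by
  have h : ‖ze‖ ^ 2 = 1 := by
    rw [← Complex.normSq_eq_norm_sq, Complex.normSq_apply, ze_re, ze_im]
    nlinarith [sqrt3_sq]
  nlinarith [norm_nonneg ze]

/-- coordinates in the basis `w, ze w` -/
lemma coords (z w : ℂ) (hw : 1 ≤ ‖w‖) : ∃ s t : ℝ, |s| ≤ 2 / √3 * ‖z‖ ∧ |t| ≤ 2 / √3 * ‖z‖ ∧
    z = (s + t * ze) * w := by
  have h3 := sqrt3_sq
  have h3p : 0 < √3 := by positivity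
  have hw0 : w ≠ 0 := by
    intro h; rw [h, norm_zero] at hw; linarith
  set u := z / w with hu
  have hun : ‖u‖ ≤ ‖z‖ := by
    rw [hu, norm_div]
    exact div_le_self (norm_nonneg _) hw
  have hsq : u.re ^ 2 + u.im ^ 2 = ‖u‖ ^ 2 := by
    rw [← Complex.normSq_eq_norm_sq, Complex.normSq_apply]; ring
  have hu0 := norm_nonneg u
  refine ⟨u.re - u.im / √3, 2 * u.im / √3, ?_, ?_, ?_⟩
  · rw [div_mul_eq_mul_div, le_div_iff₀ h3p]
    have e : |u.re - u.im / √3| * √3 = |√3 * u.re - u.im| := by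
      rw [← abs_of_pos h3p, ← abs_mul, abs_of_pos h3p]
      congr 1
      field_simp
    rw [e]
    have h1 : |√3 * u.re - u.im| ≤ 2 * ‖u‖ := by
      apply abs_le_of_sq_le_sq
      · nlinarith [sq_nonneg (u.re + √3 * u.im)]
      · positivity
    linarith
  · rw [div_mul_eq_mul_div, le_div_iff₀ h3p]
    have e : |2 * u.im / √3| * √3 = 2 * |u.im| := by
      rw [abs_div, abs_mul, abs_of_pos h3p, abs_of_pos (by norm_num : (0 : ℝ) < 2)]
      field_simp
    rw [e]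
    have h1 := Complex.abs_im_le_norm u
    linarith
  · have e : (((u.re - u.im / √3 : ℝ) : ℂ) + ((2 * u.im / √3 : ℝ) : ℂ) * ze) = u := by
      apply Complex.ext
      · simp only [Complex.add_re, Complex.ofReal_re, Complex.mul_re, Complex.ofReal_im, ze_re, ze_im]
        field_simp
        ring
      · simp only [Complex.add_im, Complex.ofReal_im, Complex.mul_im, Complex.ofReal_re, ze_re, ze_im]
        field_simp
        ring
    rw [e, hu, div_mul_cancel₀ _ hw0]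

lemma num1 {X θ W J D ε : ℝ} (hX : 100 ≤ X) (hθ0 : 0 < θ) (hθ : θ ≤ 1 / 100) (hW0 : 0 ≤ W)
    (hW : W ≤ 1 + θ) (h : J + D ≤ W ^ 2 * (2 * (X * (1 + 5 * θ)) + 2) ^ 2)
    (hJ : (1 - ε) * (4 * X ^ 2) ≤ J) : D ≤ 4 * X ^ 2 * (20 * θ + 4 / X + ε) := by
  have hX0 : 0 < X := by linarith
  have h1 : W ^ 2 ≤ 1 + 3 * θ := by nlinarith
  have h2 : (2 * (X * (1 + 5 * θ)) + 2) ^ 2 = 4 * X ^ 2 * (1 + (5 * θ + 1 / X)) ^ 2 := by
    field_simp; ring
  have h1X : (1 : ℝ) / X ≤ 1 / 100 := one_div_le_one_div_of_le (by norm_num) hX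
  have h1X0 : (0 : ℝ) < 1 / X := by positivity
  set u : ℝ := 1 / X with hu
  set q : ℝ := 5 * θ + u with hq
  have hq0 : 0 ≤ q := by positivity
  have hq1 : q ≤ 6 / 100 := by rw [hq]; linarith
  have h3' : (1 + q) ^ 2 ≤ 1 + 2.1 * q := by nlinarith
  have h5 : (1 + 3 * θ) * (1 + 2.1 * q) ≤ 1 + 20 * θ + 4 * u := by
    rw [hq]
    nlinarith
  have h4 : W ^ 2 * (1 + q) ^ 2 ≤ 1 + 20 * θ + 4 * u := by
    refine le_trans ?_ h5
    exact mul_le_mul h1 h3' (by positivity) (by positivity)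
  have e4 : (4 : ℝ) / X = 4 * u := by rw [hu]; ring
  have h6 : W ^ 2 * (2 * (X * (1 + 5 * θ)) + 2) ^ 2 ≤ 4 * X ^ 2 * (1 + 20 * θ + 4 * u) := by
    rw [h2]
    calc W ^ 2 * (4 * X ^ 2 * (1 + q) ^ 2) = 4 * X ^ 2 * (W ^ 2 * (1 + q) ^ 2) := by ring
      _ ≤ _ := mul_le_mul_of_nonneg_left h4 (by positivity)
  rw [e4]
  have e5 : 4 * X ^ 2 * (20 * θ + 4 * u + ε) =
      4 * X ^ 2 * (1 + 20 * θ + 4 * u) - (1 - ε) * (4 * X ^ 2) := by ring
  rw [e5]
  linarith

theorem local_order {N : ℕ} (x : Fin N → ℂ) (hx : Sep x) (τ C θ : ℝ)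
    (ρ : Equiv.Perm (Fin N × Fin N)) (hC : 1 ≤ C) (hCτ : C * τ ≤ θ) (hθ0 : 0 < θ)
    (hθ : θ ≤ 1 / 100) (hex0 : ∀ i, 0 ≤ ex x i) (hρ : IsRot x τ C ρ) (X : ℕ) (hX : 100 ≤ X)
    (β : Fin N × Fin N) (hβ : BS x ρ X θ τ β) (I : Finset ℤ)
    (hI : ∀ a ∈ I, |a| ≤ X ∧ BS x ρ X θ τ (ρ ((fw ρ ^ a) β))) (ε : ℝ) (hε0 : 0 ≤ ε)
    (hε : ε ≤ 1 / 100) (hIc : (1 - ε) * (2 * X + 1) ≤ (I.card : ℝ)) (r : ℝ) (hr1 : (X : ℝ) / 2 ≤ r)
    (hr2 : r ≤ √3 / 2 * X) :
    (1 - (6000 * θ + 1024 / X + 256 * ε)) *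
      ((Finset.univ.filter fun j => ‖x j - x β.1‖ ≤ r).card : ℝ) ≤
      ‖∑ j ∈ Finset.univ.filter (fun j => ‖x j - x β.1‖ ≤ r), psi x j‖ := by
  classical
  obtain ⟨hg, hinj⟩ := grid x hx τ C θ ρ hC hCτ hθ hex0 hρ X β hβ I hI
  have h3 := sqrt3_sq
  have h3p : 0 < √3 := by positivity
  have h3a : (1.7 : ℝ) < √3 := by
    rw [Real.lt_sqrt (by norm_num)]; norm_num
  have hXr : (100 : ℝ) ≤ X := by exact_mod_cast hX
  have hX0 : (0 : ℝ) < X := by linarith
  -- the basis vector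
  set w := bv x β with hw
  have hβ0 := (hβ.2 0 (by simp)).1
  simp only [zpow_zero, Equiv.Perm.coe_one, id_eq] at hβ0
  have hw1 : 1 ≤ ‖w‖ := by
    have hmem : β.2 ∈ Nbr x β.1 := (Finset.mem_filter.1 hβ.1).2
    have hne : β.2 ≠ β.1 := (Finset.mem_filter.1 hmem).2.1
    exact hx _ _ hne
  have hw2 : ‖w‖ ≤ 1 + θ := by
    have h1 := hρ.len β hβ.1 hβ0
    have h2 : C * ex x β.1 ≤ C * τ := mul_le_mul_of_nonneg_left hβ0 (by linarith)
    linarith
  set f : ℤ × ℤ → Fin N := fun p => ((fw ρ ^ p.2) (ρ ((fw ρ ^ p.1) β))).1 with hf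
  set P : Finset (ℤ × ℤ) := I ×ˢ Finset.Icc (-(X : ℤ)) X with hP
  have hPmem : ∀ p ∈ P, p.1 ∈ I ∧ |p.2| ≤ X := by
    intro p hp
    rw [hP, Finset.mem_product, Finset.mem_Icc] at hp
    exact ⟨hp.1, abs_le.2 hp.2⟩
  have hinjP : Set.InjOn f P := fun p hp q hq h => hinj (hPmem p hp) (hPmem q hq) h
  set J : Finset (Fin N) := P.image f with hJ
  have hJcard : J.card = P.card := Finset.card_image_of_injOn hinjP
  have hPcard : P.card = I.card * (2 * X + 1) := by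
    rw [hP, Finset.card_product, Int.card_Icc]
    congr 1
    omega
  set Bl : Finset (Fin N) := Finset.univ.filter (fun j => ‖x j - x β.1‖ ≤ r) with hBl
  -- all particles of `J ∪ Bl` are in the parallelogram
  set Y : ℝ := X * (1 + 5 * θ) with hY
  have hYX : (X : ℝ) ≤ Y := by rw [hY]; nlinarith
  have hY0 : 0 ≤ Y := by linarith
  have hpar : ∀ i ∈ J ∪ Bl, ∃ s t : ℝ, |s| ≤ Y ∧ |t| ≤ Y ∧ x i = x β.1 + (s + t * ze) * w := by
    intro i hi
    rcases Finset.mem_union.1 hi with hi | hi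
    · obtain ⟨p, hp, rfl⟩ := Finset.mem_image.1 hi
      obtain ⟨h1, h2⟩ := hPmem p hp
      obtain ⟨g1, -, -, -⟩ := hg p.1 h1 p.2 h2
      obtain ⟨s, t, hs, ht, hst⟩ := coords (x (f p) - x β.1 - ((p.1 : ℂ) + p.2 * ze) * w) w hw1
      have hb : 2 / √3 * ‖x (f p) - x β.1 - ((p.1 : ℂ) + p.2 * ze) * w‖ ≤ 5 * θ * X := by
        rw [div_mul_eq_mul_div, div_le_iff₀ h3p]
        have : ‖x (f p) - x β.1 - ((p.1 : ℂ) + p.2 * ze) * w‖ ≤ 4 * θ * X := g1
        have h4 : 0 ≤ θ * X := by positivity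
        nlinarith
      refine ⟨p.1 + s, p.2 + t, ?_, ?_, ?_⟩
      · have h5 : |(p.1 : ℝ)| ≤ X := by
          rw [← Int.cast_abs]; exact_mod_cast (hI p.1 h1).1
        calc |(p.1 : ℝ) + s| ≤ |(p.1 : ℝ)| + |s| := abs_add_le _ _
          _ ≤ X + 5 * θ * X := add_le_add h5 (hs.trans hb)
          _ = Y := by rw [hY]; ring
      · have h5 : |(p.2 : ℝ)| ≤ X := by
          rw [← Int.cast_abs]; exact_mod_cast h2
        calc |(p.2 : ℝ) + t| ≤ |(p.2 : ℝ)| + |t| := abs_add_le _ _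
          _ ≤ X + 5 * θ * X := add_le_add h5 (ht.trans hb)
          _ = Y := by rw [hY]; ring
      · push_cast
        have : x (f p) = x β.1 + ((p.1 : ℂ) + p.2 * ze) * w +
            (x (f p) - x β.1 - ((p.1 : ℂ) + p.2 * ze) * w) := by ring
        rw [this, hst]
        ring
    · have hi2 : ‖x i - x β.1‖ ≤ r := (Finset.mem_filter.1 hi).2
      obtain ⟨s, t, hs, ht, hst⟩ := coords (x i - x β.1) w hw1
      have hb : 2 / √3 * ‖x i - x β.1‖ ≤ X := by
        rw [div_mul_eq_mul_div, div_le_iff₀ h3p]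
        linarith
      refine ⟨s, t, hs.trans (hb.trans hYX), ht.trans (hb.trans hYX), ?_⟩
      rw [← hst]
      ring
  have hpack := pack_par x hx (x β.1) w hw1 Y hY0 (J ∪ Bl) hpar
  -- the number of the particles of `Bl` outside `J`
  have hcardU : ((J ∪ Bl).card : ℝ) = J.card + (Bl \ J).card := by
    have h1 : (J ∪ Bl).card = J.card + (Bl \ J).card := by
      rw [← Finset.union_sdiff_self_eq_union, Finset.card_union_of_disjoint Finset.disjoint_sdiff]
    exact_mod_cast h1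
  have hJr : (J.card : ℝ) = I.card * (2 * X + 1) := by
    rw [hJcard, hPcard]; push_cast; ring
  have hJlow : (1 - ε) * (4 * (X : ℝ) ^ 2) ≤ J.card := by
    rw [hJr]
    have h1 : (1 - ε) * (4 * (X : ℝ) ^ 2) ≤ (1 - ε) * (2 * X + 1) * (2 * X + 1) := by
      have : 0 ≤ 1 - ε := by linarith
      nlinarith
    exact h1.trans (mul_le_mul_of_nonneg_right hIc (by positivity))
  have hdiff : ((Bl \ J).card : ℝ) ≤ 4 * (X : ℝ) ^ 2 * (20 * θ + 4 / X + ε) := by
    rw [hcardU] at hpack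
    exact num1 hXr hθ0 hθ (norm_nonneg w) hw2 (by rw [← hY]; exact hpack) hJlow
  -- the lower bound for the number of particles of `Bl`
  have hBlow : (X : ℝ) ^ 2 / 32 ≤ Bl.card := by
    set h : ℕ := X / 8 with hh
    have hh1 : (h : ℝ) ≤ X / 8 := by
      have : 8 * h ≤ X := Nat.mul_div_le _ _
      have h2 : (8 : ℝ) * h ≤ X := by exact_mod_cast this
      linarith
    have hh2 : (X : ℝ) / 8 - 7 / 8 ≤ h := by
      have : X ≤ 8 * h + 7 := by omega
      have h2 : (X : ℝ) ≤ 8 * h + 7 := by exact_mod_cast this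
      linarith
    have hhX : h ≤ X := Nat.div_le_self _ _
    set I' : Finset ℤ := I ∩ Finset.Icc (-(h : ℤ)) h with hI'
    set P' : Finset (ℤ × ℤ) := I' ×ˢ Finset.Icc (-(h : ℤ)) h with hP'
    have hPP : P' ⊆ P := by
      intro p hp
      rw [hP', Finset.mem_product, hI', Finset.mem_inter, Finset.mem_Icc, Finset.mem_Icc] at hp
      rw [hP, Finset.mem_product, Finset.mem_Icc]
      refine ⟨hp.1.1, ?_, ?_⟩ <;> omega
    have hc1 : (P'.image f).card = P'.card :=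
      Finset.card_image_of_injOn (hinjP.mono (by exact_mod_cast hPP))
    have hc2 : P'.image f ⊆ Bl := by
      intro i hi
      obtain ⟨p, hp, rfl⟩ := Finset.mem_image.1 hi
      have hpP := hPmem p (hPP hp)
      rw [hP', Finset.mem_product, hI', Finset.mem_inter, Finset.mem_Icc, Finset.mem_Icc] at hp
      obtain ⟨g1, -, -, -⟩ := hg p.1 hpP.1 p.2 hpP.2
      rw [hBl, Finset.mem_filter]
      refine ⟨Finset.mem_univ _, ?_⟩
      have e1 : |(p.1 : ℝ)| ≤ h := by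
        rw [← Int.cast_abs]; exact_mod_cast abs_le.2 hp.1.2
      have e2 : |(p.2 : ℝ)| ≤ h := by
        rw [← Int.cast_abs]; exact_mod_cast abs_le.2 hp.2
      have e3 : ‖((p.1 : ℂ) + p.2 * ze) * w‖ ≤ (h + h) * (1 + θ) := by
        rw [norm_mul]
        refine mul_le_mul ?_ hw2 (norm_nonneg _) (by positivity)
        refine (norm_add_le _ _).trans ?_
        rw [norm_mul, norm_ze, mul_one, Complex.norm_intCast, Complex.norm_intCast]
        exact add_le_add e1 e2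
      have e4 : ‖x (f p) - x β.1‖ ≤ 4 * θ * X + (h + h) * (1 + θ) := by
        have e5 : x (f p) - x β.1 = (x (f p) - x β.1 - ((p.1 : ℂ) + p.2 * ze) * w) +
            ((p.1 : ℂ) + p.2 * ze) * w := by ring
        rw [e5]
        exact (norm_add_le _ _).trans (add_le_add g1 e3)
      refine e4.trans (le_trans ?_ hr1)
      have e6 : θ * X ≤ 1 / 100 * X := mul_le_mul_of_nonneg_right hθ hX0.le
      have e7 : (h : ℝ) * θ ≤ X / 8 * (1 / 100) := mul_le_mul hh1 hθ hθ0.le (by positivity)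
      nlinarith
    have hc3 := Finset.card_le_card hc2
    rw [hc1] at hc3
    have hc4 : P'.card = I'.card * (2 * h + 1) := by
      rw [hP', Finset.card_product, Int.card_Icc]
      congr 1
      omega
    have hc5 : (I.card : ℝ) + (2 * h + 1) ≤ I'.card + (2 * X + 1) := by
      have h1 : (I ∪ Finset.Icc (-(h : ℤ)) h).card ≤ (Finset.Icc (-(X : ℤ)) X).card := by
        apply Finset.card_le_card
        intro a ha
        rcases Finset.mem_union.1 ha with ha | ha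
        · rw [Finset.mem_Icc]
          exact abs_le.1 (hI a ha).1
        · rw [Finset.mem_Icc] at ha ⊢
          constructor <;> omega
      have h2 := Finset.card_union_add_card_inter I (Finset.Icc (-(h : ℤ)) h)
      rw [Int.card_Icc] at h1
      rw [Int.card_Icc] at h2
      have h3 : I.card + (2 * h + 1) ≤ I'.card + (2 * X + 1) := by
        rw [hI']
        omega
      exact_mod_cast h3
    have hc6 : (P'.card : ℝ) = I'.card * (2 * h + 1) := by
      rw [hc4]; push_cast; ring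
    have hc7 : (Bl.card : ℝ) ≥ I'.card * (2 * h + 1) := by
      rw [← hc6]; exact_mod_cast hc3
    have hc8 : 0.2 * (X : ℝ) ≤ I'.card := by nlinarith
    have hc9 : 0.2 * (X : ℝ) ≤ 2 * h + 1 := by linarith
    nlinarith
  have hdiff2 : ((Bl \ J).card : ℝ) ≤ 128 * (20 * θ + 4 / X + ε) * Bl.card := by
    refine hdiff.trans ?_
    have h1 : 0 ≤ 20 * θ + 4 / X + ε := by positivity
    nlinarith
  -- the sum of the order parameters
  set ps : ℂ := (w / (‖w‖ : ℂ)) ^ 6 with hps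
  have hpsn : ‖ps‖ = 1 := by
    rw [hps, norm_pow, norm_div, Complex.norm_real, norm_norm, div_self (by linarith), one_pow]
  have hJpsi : ∀ i ∈ J, ‖psi x i - ps‖ ≤ 400 * θ := by
    intro i hi
    obtain ⟨p, hp, rfl⟩ := Finset.mem_image.1 hi
    obtain ⟨h1, h2⟩ := hPmem p hp
    obtain ⟨-, g2, g3, g4⟩ := hg p.1 h1 p.2 h2
    exact psi_close x hx τ C θ ρ hC hCτ hθ hex0 hρ _ g3 g2 w hw1 g4
  have hall : ∀ i, ‖psi x i - ps‖ ≤ 2 := by
    intro i
    refine (norm_sub_le _ _).trans ?_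
    rw [hpsn]
    linarith [psi_le x i]
  have hsum : ‖∑ j ∈ Bl, (psi x j - ps)‖ ≤ Bl.card * (400 * θ) + (Bl \ J).card * 2 := by
    rw [← Finset.sum_inter_add_sum_sdiff Bl J]
    refine (norm_add_le _ _).trans (add_le_add ?_ ?_)
    · refine (norm_sum_le _ _).trans ?_
      calc ∑ i ∈ Bl ∩ J, ‖psi x i - ps‖ ≤ ∑ i ∈ Bl ∩ J, 400 * θ :=
            Finset.sum_le_sum fun i hi => hJpsi i (Finset.mem_inter.1 hi).2
        _ = (Bl ∩ J).card * (400 * θ) := by rw [Finset.sum_const, nsmul_eq_mul]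
        _ ≤ Bl.card * (400 * θ) := by
            apply mul_le_mul_of_nonneg_right _ (by positivity)
            exact_mod_cast Finset.card_le_card Finset.inter_subset_left
    · refine (norm_sum_le _ _).trans ?_
      calc ∑ i ∈ Bl \ J, ‖psi x i - ps‖ ≤ ∑ i ∈ Bl \ J, (2 : ℝ) :=
            Finset.sum_le_sum fun i _ => hall i
        _ = (Bl \ J).card * 2 := by rw [Finset.sum_const, nsmul_eq_mul]
  have e1 : ∑ j ∈ Bl, (psi x j - ps) = ∑ j ∈ Bl, psi x j - (Bl.card : ℂ) * ps := by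
    rw [Finset.sum_sub_distrib, Finset.sum_const, nsmul_eq_mul]
  have e2 : ‖(Bl.card : ℂ) * ps‖ = Bl.card := by
    rw [norm_mul, hpsn, mul_one, Complex.norm_natCast]
  have e3 : (Bl.card : ℝ) ≤ ‖∑ j ∈ Bl, psi x j‖ + ‖∑ j ∈ Bl, (psi x j - ps)‖ := by
    rw [e1]
    have h1 := norm_sub_norm_le ((Bl.card : ℂ) * ps) (∑ j ∈ Bl, psi x j)
    rw [e2, norm_sub_rev] at h1
    linarith
  have hXe : (1024 : ℝ) / X = 256 * (4 / X) := by ring
  rw [hXe]
  have hB0 : (0 : ℝ) ≤ Bl.card := Nat.cast_nonneg _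
  nlinarith

end Pool.Agent.J4.H83.OO
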