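import Pool.Agent.J4.H83.OO.Local

/-!
# Orientational order of configurations with few defects
-/

set_option autoImplicit false

open MeasureTheory Set Filter Topology

namespace Pool.Agent.J4.H83.OO

open Pool.Agent.J4.H83.FV Pool.Agent.J4.H83.HD

lemma bd_symm {N : ℕ} {x : Fin N → ℂ} {p : Fin N × Fin N} (hp : p ∈ Bd x) : swp N p ∈ Bd x := by
  rw [Bd, Finset.mem_filter] at hp ⊢
  obtain ⟨-, h⟩ := hp
  refine ⟨Finset.mem_univ _, ?_⟩
  rw [Nbr, Finset.mem_filter] at h ⊢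
  refine ⟨Finset.mem_univ _, h.2.1.symm, ?_⟩
  show ‖x p.1 - x p.2‖ < 2 * R
  rw [norm_sub_rev]
  exact h.2.2

lemma fw_mem {N : ℕ} {x : Fin N → ℂ} {τ C : ℝ} {ρ : Equiv.Perm (Fin N × Fin N)}
    (hρ : IsRot x τ C ρ) {p : Fin N × Fin N} (hp : p ∈ Bd x) : fw ρ p ∈ Bd x :=
  hρ.mem _ (hρ.mem _ (hρ.mem _ (bd_symm hp)))

/-- a permutation which maps a finite set into itself also maps it onto itself -/
lemma perm_inv {α : Type} [DecidableEq α] (σ : Equiv.Perm α) (S : Finset α)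
    (h : ∀ p ∈ S, σ p ∈ S) {p : α} (hp : p ∈ S) : σ⁻¹ p ∈ S := by
  have h1 : S.image σ = S := by
    apply Finset.eq_of_subset_of_card_le
    · intro q hq
      obtain ⟨r, hr, rfl⟩ := Finset.mem_image.1 hq
      exact h r hr
    · rw [Finset.card_image_of_injective _ σ.injective]
  rw [← h1] at hp
  obtain ⟨q, hq, rfl⟩ := Finset.mem_image.1 hp
  simpa using hq

lemma fw_zpow_mem {N : ℕ} {x : Fin N → ℂ} {τ C : ℝ} {ρ : Equiv.Perm (Fin N × Fin N)}
    (hρ : IsRot x τ C ρ) (m : ℤ) {p : Fin N × Fin N} (hp : p ∈ Bd x) : (fw ρ ^ m) p ∈ Bd x := by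
  classical
  have hnat : ∀ (n : ℕ) {q : Fin N × Fin N}, q ∈ Bd x → (fw ρ ^ n) q ∈ Bd x := by
    intro n
    induction n with
    | zero => intro q hq; simpa using hq
    | succ n ih =>
      intro q hq
      rw [pow_succ, Equiv.Perm.mul_apply]
      exact ih (fw_mem hρ hq)
  obtain ⟨n, rfl | rfl⟩ := m.eq_nat_or_neg
  · rw [zpow_natCast]; exact hnat n hp
  · rw [zpow_neg, zpow_natCast]
    exact perm_inv _ _ (fun q hq => hnat n hq) hp

/-- straight lines from the hypotheses on the strip -/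
lemma bs_of_cond {N : ℕ} {x : Fin N → ℂ} {τ C C' : ℝ} {ρ : Equiv.Perm (Fin N × Fin N)}
    (hρ : IsRot x τ C ρ) {X H : ℕ} {A θ : ℝ} {β : Fin N × Fin N}
    (hst : ∀ β ∈ Bd x, Cond x ρ (2 * X) H A τ β →
      ∀ n ≤ 2 * X, ‖bv x ((fw ρ ^ n) β) - bv x β‖ ≤ C' * C ^ 2 * (A / H + H * τ + A * τ))
    (hθ : 2 * (C' * C ^ 2 * (A / H + H * τ + A * τ)) ≤ θ) (hβ : β ∈ Bd x)
    (hc : Cond x ρ (2 * X) H A τ ((fw ρ ^ (-(X : ℤ))) β)) : BS x ρ X θ τ β := by
  refine ⟨hβ, fun m hm => ?_⟩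
  obtain ⟨h1, h2⟩ := abs_le.1 hm
  obtain ⟨n, hn⟩ := Int.eq_ofNat_of_zero_le (show 0 ≤ m + X by omega)
  have hn2 : n ≤ 2 * X := by omega
  set β' := (fw ρ ^ (-(X : ℤ))) β with hβ'
  have hβ'm : β' ∈ Bd x := fw_zpow_mem hρ _ hβ
  have e1 : (fw ρ ^ m) β = (fw ρ ^ n) β' := by
    rw [hβ', ← zpow_natCast, ← Equiv.Perm.mul_apply, ← zpow_add]
    congr 2
    omega
  have e2 : β = (fw ρ ^ X) β' := by
    rw [hβ', ← zpow_natCast, ← Equiv.Perm.mul_apply, ← zpow_add]
    simp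
  rw [e1]
  refine ⟨?_, ?_⟩
  · have := hc.1 n (by omega) 0 (Nat.zero_le _)
    simpa using this
  · have a1 := hst β' hβ'm hc n hn2
    have a2 := hst β' hβ'm hc X (by omega)
    rw [← e2] at a2
    have e3 : bv x ((fw ρ ^ n) β') - bv x β = (bv x ((fw ρ ^ n) β') - bv x β') -
        (bv x β - bv x β') := by ring
    rw [e3]
    refine (norm_sub_le _ _).trans ?_
    linarith

/-- the deterministic theorem with all parameters -/
theorem order_param {N : ℕ} (x : Fin N → ℂ) (hx : Sep x) (τ C θ ε C' A S D r : ℝ)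
    (ρ : Equiv.Perm (Fin N × Fin N)) (X H : ℕ) (hC : 1 ≤ C) (hCτ : C * τ ≤ θ) (hτ : 0 < τ)
    (hθ0 : 0 < θ) (hθ : θ ≤ 1 / 100) (hex0 : ∀ i, 0 ≤ ex x i) (hρ : IsRot x τ C ρ)
    (hst : ∀ β ∈ Bd x, Cond x ρ (2 * X) H A τ β →
      ∀ n ≤ 2 * X, ‖bv x ((fw ρ ^ n) β) - bv x β‖ ≤ C' * C ^ 2 * (A / H + H * τ + A * τ))
    (hθA : 2 * (C' * C ^ 2 * (A / H + H * τ + A * τ)) ≤ θ) (hH : 1 ≤ H) (hA : 0 < A)
    (hX : 100 ≤ X) (hε0 : 0 < ε) (hε : ε ≤ 1 / 100) (hS : ∑ i, ex x i ≤ S)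
    (hD : ((Finset.univ.filter fun i => τ < ex x i).card : ℝ) ≤ D)
    (hr1 : (X : ℝ) / 2 ≤ r) (hr2 : r ≤ √3 / 2 * X) :
    ((Finset.univ.filter fun i =>
      ‖∑ j ∈ Finset.univ.filter (fun j => ‖x j - x i‖ ≤ r), psi x j‖ <
        (1 - (6000 * θ + 1024 / X + 256 * ε)) *
          ((Finset.univ.filter fun j => ‖x j - x i‖ ≤ r).card : ℝ)).card : ℝ) ≤
      D + (1 + 1 / ε) * (12 * (2 * X + 2) * ((H + 1) * D + 4 * S / A)) := by
  classical
  set F : ℝ := 12 * (2 * X + 2) * ((H + 1) * D + 4 * S / A) with hF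
  -- the bonds which are not on straight lines
  set B1 : Finset (Fin N × Fin N) := (Bd x).filter fun β => ¬ BS x ρ X θ τ β with hB1
  have hB1F : (B1.card : ℝ) ≤ F := by
    have h1 := count_fail x hx τ C ρ hex0 hρ (2 * X) H A S D hH hA hS hD
      (B1.image (fw ρ ^ (-(X : ℤ)))) (by
        intro β' hβ'
        obtain ⟨β, hβ, rfl⟩ := Finset.mem_image.1 hβ'
        rw [hB1, Finset.mem_filter] at hβ
        exact ⟨fw_zpow_mem hρ _ hβ.1, fun hc => hβ.2 (bs_of_cond hρ hst hθA hβ.1 hc)⟩)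
    rw [Finset.card_image_of_injective _ (Equiv.injective _)] at h1
    refine h1.trans (le_of_eq ?_)
    rw [hF]
    push_cast
    ring
  -- the bonds which have too many bad transversal lines
  set Ia : Fin N × Fin N → Finset ℤ := fun β => (Finset.Icc (-(X : ℤ)) X).filter fun a =>
    BS x ρ X θ τ (ρ ((fw ρ ^ a) β)) with hIa
  set B2 : Finset (Fin N × Fin N) := (Bd x).filter fun β =>
    ((Ia β).card : ℝ) < (1 - ε) * (2 * X + 1) with hB2
  have hB2F : (B2.card : ℝ) ≤ F / ε := by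
    have h1 : ∀ a : ℤ, (((Bd x).filter fun β => ¬ BS x ρ X θ τ (ρ ((fw ρ ^ a) β))).card : ℝ) ≤ F := by
      intro a
      refine le_trans ?_ hB1F
      have h2 : (((Bd x).filter fun β => ¬ BS x ρ X θ τ (ρ ((fw ρ ^ a) β))).image
          fun β => ρ ((fw ρ ^ a) β)) ⊆ B1 := by
        intro γ hγ
        obtain ⟨β, hβ, rfl⟩ := Finset.mem_image.1 hγ
        rw [Finset.mem_filter] at hβ
        rw [hB1, Finset.mem_filter]
        exact ⟨hρ.mem _ (fw_zpow_mem hρ _ hβ.1), hβ.2⟩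
      have h3 := Finset.card_le_card h2
      rw [Finset.card_image_of_injective _ (fun p q h => by
        exact (fw ρ ^ a).injective (ρ.injective h))] at h3
      exact_mod_cast h3
    have h2 : (B2.card : ℝ) * (ε * (2 * X + 1)) ≤ (2 * X + 1) * F := by
      have hcard : ((Finset.Icc (-(X : ℤ)) X).card : ℝ) = 2 * X + 1 := by
        rw [Int.card_Icc]
        have : ((X : ℤ) + 1 - -(X : ℤ)).toNat = 2 * X + 1 := by omega
        rw [this]
        push_cast
        ring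
      calc (B2.card : ℝ) * (ε * (2 * X + 1)) = ∑ β ∈ B2, ε * (2 * X + 1) := by
            rw [Finset.sum_const, nsmul_eq_mul]
        _ ≤ ∑ β ∈ B2, (((Finset.Icc (-(X : ℤ)) X).filter fun a =>
              ¬ BS x ρ X θ τ (ρ ((fw ρ ^ a) β))).card : ℝ) := by
            refine Finset.sum_le_sum fun β hβ => ?_
            rw [hB2, Finset.mem_filter] at hβ
            have h3 := Finset.card_filter_add_card_filter_not (s := Finset.Icc (-(X : ℤ)) X)
              (fun a => BS x ρ X θ τ (ρ ((fw ρ ^ a) β)))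
            have h4 : ((Ia β).card : ℝ) + (((Finset.Icc (-(X : ℤ)) X).filter fun a =>
              ¬ BS x ρ X θ τ (ρ ((fw ρ ^ a) β))).card : ℝ) = 2 * X + 1 := by
              rw [← hcard]
              exact_mod_cast h3
            linarith [hβ.2]
        _ ≤ ∑ β ∈ Bd x, (((Finset.Icc (-(X : ℤ)) X).filter fun a =>
              ¬ BS x ρ X θ τ (ρ ((fw ρ ^ a) β))).card : ℝ) :=
            Finset.sum_le_sum_of_subset_of_nonneg (Finset.filter_subset _ _)
              fun _ _ _ => Nat.cast_nonneg _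
        _ = ∑ a ∈ Finset.Icc (-(X : ℤ)) X, (((Bd x).filter fun β =>
              ¬ BS x ρ X θ τ (ρ ((fw ρ ^ a) β))).card : ℝ) := by
            simp only [Finset.card_filter, Nat.cast_sum]
            rw [Finset.sum_comm]
        _ ≤ ∑ a ∈ Finset.Icc (-(X : ℤ)) X, F := Finset.sum_le_sum fun a _ => h1 a
        _ = _ := by rw [Finset.sum_const, nsmul_eq_mul, hcard]
    have hX1 : (0 : ℝ) < 2 * X + 1 := by positivity
    rw [le_div_iff₀ hε0]
    have h3 : (2 * (X : ℝ) + 1) * (B2.card * ε) ≤ (2 * X + 1) * F := by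
      calc (2 * (X : ℝ) + 1) * (B2.card * ε) = B2.card * (ε * (2 * X + 1)) := by ring
        _ ≤ _ := h2
    exact le_of_mul_le_mul_left h3 hX1
  -- the particles without order
  set Bad : Finset (Fin N) := Finset.univ.filter fun i => τ < ex x i with hBad
  set Q : Finset (Fin N) := Finset.univ.filter fun i =>
      ‖∑ j ∈ Finset.univ.filter (fun j => ‖x j - x i‖ ≤ r), psi x j‖ <
        (1 - (6000 * θ + 1024 / X + 256 * ε)) *
          ((Finset.univ.filter fun j => ‖x j - x i‖ ≤ r).card : ℝ) with hQ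
  have hsub : Q ⊆ Bad ∪ ((B1.image Prod.fst) ∪ (B2.image Prod.fst)) := by
    intro i hi
    by_contra hcon
    rw [Finset.mem_union, Finset.mem_union, not_or, not_or] at hcon
    obtain ⟨c1, c2, c3⟩ := hcon
    have hgood : ex x i ≤ τ := by
      by_contra h
      exact c1 (by rw [hBad, Finset.mem_filter]; exact ⟨Finset.mem_univ _, not_le.1 h⟩)
    have hne : (Nbr x i).Nonempty := by
      rw [← Finset.card_pos, hρ.six i hgood]
      norm_num
    obtain ⟨j, hj⟩ := hne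
    have hβ : (i, j) ∈ Bd x := by
      rw [Bd, Finset.mem_filter]; exact ⟨Finset.mem_univ _, hj⟩
    have hbs : BS x ρ X θ τ (i, j) := by
      by_contra h
      exact c2 (Finset.mem_image.2 ⟨(i, j), by rw [hB1, Finset.mem_filter]; exact ⟨hβ, h⟩, rfl⟩)
    have hIc : (1 - ε) * (2 * X + 1) ≤ ((Ia (i, j)).card : ℝ) := by
      by_contra h
      exact c3 (Finset.mem_image.2
        ⟨(i, j), by rw [hB2, Finset.mem_filter]; exact ⟨hβ, not_le.1 h⟩, rfl⟩)
    have hlo := local_order x hx τ C θ ρ hC hCτ hθ0 hθ hex0 hρ X hX (i, j) hbs (Ia (i, j))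
      (fun a ha => by
        rw [hIa, Finset.mem_filter, Finset.mem_Icc] at ha
        exact ⟨abs_le.2 ha.1, ha.2⟩) ε hε0.le hε hIc r hr1 hr2
    rw [hQ, Finset.mem_filter] at hi
    exact absurd hi.2 (not_lt.2 hlo)
  have hc1 := Finset.card_le_card hsub
  have hc2 : (Q.card : ℝ) ≤ Bad.card + (B1.card + B2.card) := by
    have h1 := Finset.card_union_le Bad ((B1.image Prod.fst) ∪ (B2.image Prod.fst))
    have h2 := Finset.card_union_le (B1.image Prod.fst) (B2.image Prod.fst)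
    have h3 := Finset.card_image_le (s := B1) (f := Prod.fst)
    have h4 := Finset.card_image_le (s := B2) (f := Prod.fst)
    have : Q.card ≤ Bad.card + (B1.card + B2.card) := by omega
    exact_mod_cast this
  have e : D + (1 + 1 / ε) * F = D + (F + F / ε) := by ring
  rw [e]
  linarith

end Pool.Agent.J4.H83.OO
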