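import Pool.Agent.J4.H83.HD.NormA

/-!
# Few defects: the argument from the upper bound with defects and the sharp lower bound
-/

set_option autoImplicit false

open MeasureTheory Set Filter Topology

namespace Pool.Agent.J4.H83.OO

open Pool.Agent.J4.H83.FV Pool.Agent.J4.H83.HD

namespace Prob

/-- the statement of COVERX -/
def CountSt : Prop := ∃ C : ℝ, 1 ≤ C ∧ ∃ τ₁ : ℝ, 0 < τ₁ ∧
  ∀ (m M b : ℕ) (lam τ L : ℝ) (N : ℕ),
    2 ≤ m → 1 ≤ M → 0 < b → 0 < lam → 0 < τ → τ ≤ τ₁ → C * (M : ℝ) ^ 2 * τ ≤ 1 → 2000 * M ≤ b →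
    7 / (b : ℝ) ≤ M * τ → m * (C * M * τ) ≤ 1 / 4 → M ≤ L → 0 < N → ∀ E F B D : ℝ,
      E = (L + 2 * R) ^ 2 - √3 / 2 * N → 0 ≤ D →
      F = 625 * (M : ℝ) ^ 2 * (E / τ) + 48 * (L ^ 2 / M) * (8 * m + 31 + 2 / lam) → F < N → 0 ≤ B →
      (∀ (n : ℕ) (Φ : ℝ), n ≤ N → N - F ≤ Φ → Φ ≤ n → 0 < Φ →
        (L ^ 2) ^ (N - n) / (N - n).factorial *
          (((M : ℝ) ^ 2) ^ (2 * (n : ℝ) / m + (n - Φ)) *
            (W m pt).toReal ^ (Φ / (m : ℝ) ^ 2) *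
            ((1 / 3 + 32 * (m : ℝ) ^ 2 * lam) * (√3 * (1 + C * τ) * max 0 (E - D) +
              2 * n * (C * M * τ) ^ 2) / Φ) ^ (2 * ((m : ℝ) - 1) ^ 2 / (m : ℝ) ^ 2 * Φ)) ≤ B) →
      (volume {x | x ∈ A N L ∧ D ≤ ∑ i, if τ < ex x i then ex x i else 0}).toReal / N.factorial ≤
        (1 + (100 * (M : ℝ)) ^ 2 * b) ^ ((⌊L / M⌋₊ + 1) ^ 2) * B

/-- the statement of UASYD -/
def UasySt : Prop := ∀ (w : ℕ → ℝ) (_ : ∀ m, (1 / 2) ^ ((m - 1) ^ 2) ≤ w m)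
    (_ : ∀ m, w m ≤ (64 * (m : ℝ) ^ 2) ^ ((m - 1) ^ 2)) (C τ₁ : ℝ) (_ : 1 ≤ C) (_ : 0 < τ₁)
    (ε κ : ℝ) (_ : 0 < ε) (_ : 0 < κ) (_ : κ ≤ 1 / 2),
    ∃ δ₀ : ℝ, 0 < δ₀ ∧ ∀ δ : ℝ, 0 < δ → δ < δ₀ →
      ∃ (m M b : ℕ) (lam τ L₀ : ℝ), 2 ≤ m ∧ 1 / ε ≤ m ∧ 1 ≤ M ∧ 0 < b ∧ 0 < lam ∧ 0 < τ ∧ τ ≤ τ₁ ∧
        C * (M : ℝ) ^ 2 * τ ≤ 1 ∧ 2000 * M ≤ b ∧ 7 / (b : ℝ) ≤ M * τ ∧ m * (C * M * τ) ≤ 1 / 4 ∧
        M ≤ L₀ ∧ ∀ (L : ℝ) (N : ℕ), L₀ ≤ L → L ^ 2 ≤ (√3 / 2 + δ) * N → ∀ E F : ℝ,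
          E = (L + 2 * R) ^ 2 - √3 / 2 * N → 0 ≤ E →
          F = 625 * (M : ℝ) ^ 2 * (E / τ) + 48 * (L ^ 2 / M) * (8 * m + 31 + 2 / lam) →
          F < N ∧ ∀ (n : ℕ) (Φ : ℝ), n ≤ N → N - F ≤ Φ → Φ ≤ n → 0 < Φ →
            (1 + (100 * (M : ℝ)) ^ 2 * b) ^ ((⌊L / M⌋₊ + 1) ^ 2) *
              ((L ^ 2) ^ (N - n) / (N - n).factorial *
                (((M : ℝ) ^ 2) ^ (2 * (n : ℝ) / m + (n - Φ)) * (w m) ^ (Φ / (m : ℝ) ^ 2) *
                  ((1 / 3 + 32 * (m : ℝ) ^ 2 * lam) * (√3 * (1 + C * τ) * max 0 (E - κ * δ * N) +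
                    2 * n * (C * M * τ) ^ 2) / Φ) ^ (2 * ((m : ℝ) - 1) ^ 2 / (m : ℝ) ^ 2 * Φ))) ≤
              Real.exp (N * (2 * Real.log δ - Real.log 3 + Real.log (w m) / (m : ℝ) ^ 2 + ε - κ))

/-- the upper bound with defects: as `upper_asym` -/
theorem upperD (HC : CountSt) (HU : UasySt) (σ : ℝ) (hσ : 0 < σ) (ε κ : ℝ) (hε : 0 < ε)
    (hκ : 0 < κ) (hκ2 : κ ≤ 1 / 2) : ∃ δ₀ : ℝ, 0 < δ₀ ∧ ∀ δ : ℝ, 0 < δ → δ < δ₀ →
    ∃ (m : ℕ) (τ : ℝ), 2 ≤ m ∧ 1 / ε ≤ m ∧ τ ≤ σ ∧ ∃ L₀ : ℝ, ∀ (L : ℝ) (N : ℕ), L₀ ≤ L → 0 < N →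
      0 ≤ L → L ^ 2 ≤ (√3 / 2 + δ) * N → (A N L).Nonempty →
        (volume {x | x ∈ A N L ∧ κ * δ * N ≤ ∑ i, if τ < ex x i then ex x i else 0}).toReal /
          N.factorial ≤ Real.exp (N * (2 * Real.log δ - Real.log 3 +
          Real.log (W m pt).toReal / (m : ℝ) ^ 2 + ε - κ)) := by
  obtain ⟨C, hC, τ₁, hτ₁, hcount⟩ := HC
  obtain ⟨δ₀, hδ₀, huasy⟩ := HU (fun m => (W m pt).toReal) Nrm.w_ge Nrm.w_le C (min τ₁ σ) hC
    (lt_min hτ₁ hσ) ε κ hε hκ hκ2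
  refine ⟨δ₀, hδ₀, fun δ hδ hδ' => ?_⟩
  obtain ⟨m, M, b, lam, τ, L₀, hm, hmε, hM, hb, hlam, hτ, hττ, hCM, hbM, hbτ, hmC, hML, hmain⟩ :=
    huasy δ hδ hδ'
  refine ⟨m, τ, hm, hmε, hττ.trans (min_le_right _ _), L₀, fun L N hL hN hL0 hLN hA => ?_⟩
  obtain ⟨x₀, hx₀⟩ := hA
  have hE0 : 0 ≤ (L + 2 * R) ^ 2 - √3 / 2 * N := by
    obtain ⟨_, _, _, _, hst⟩ := structure_thm
    have h1 := sum_ex x₀ hL0 hx₀.1 hx₀.2
    exact le_trans (Finset.sum_nonneg fun i _ => (hst N x₀ hx₀.2 i).1) h1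
  obtain ⟨hFN, hB⟩ := hmain L N hL hLN _ _ rfl hE0 rfl
  set P : ℝ := (1 + (100 * (M : ℝ)) ^ 2 * b) ^ ((⌊L / M⌋₊ + 1) ^ 2) with hP
  have hP0 : 0 < P := by positivity
  have h2 := hcount m M b lam τ L N hm hM hb hlam hτ (hττ.trans (min_le_left _ _)) hCM hbM hbτ hmC
    (hML.trans hL) hN _ _
    (Real.exp (N * (2 * Real.log δ - Real.log 3 + Real.log (W m pt).toReal / (m : ℝ) ^ 2 + ε - κ)) /
      P) (κ * δ * N) rfl (by positivity) rfl hFN (by positivity) fun n Φ hn h1 h2 h3 => by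
      rw [le_div_iff₀ hP0, mul_comm]
      exact hB n Φ hn h1 h2 h3
  rw [← hP, mul_div_cancel₀ _ hP0.ne'] at h2
  exact h2

/-- many particles with large excess have a large total excess -/
lemma sum_ge {N : ℕ} (x : Fin N → ℂ) (τ σ D : ℝ) (hτ : τ ≤ σ) (hσ : 0 < σ)
    (hex : ∀ i, 0 ≤ ex x i)
    (h : D ≤ ((Finset.univ.filter fun i => σ < ex x i).card : ℝ)) :
    σ * D ≤ ∑ i, if τ < ex x i then ex x i else 0 := by
  calc σ * D ≤ σ * ((Finset.univ.filter fun i => σ < ex x i).card : ℝ) :=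
        mul_le_mul_of_nonneg_left h hσ.le
    _ = ∑ i ∈ Finset.univ.filter (fun i => σ < ex x i), σ := by
        rw [Finset.sum_const, nsmul_eq_mul, mul_comm]
    _ ≤ ∑ i ∈ Finset.univ.filter (fun i => σ < ex x i), (if τ < ex x i then ex x i else 0) := by
        refine Finset.sum_le_sum fun i hi => ?_
        have h1 := (Finset.mem_filter.1 hi).2
        rw [if_pos (lt_of_le_of_lt hτ h1)]
        exact h1.le
    _ ≤ _ := by
        refine Finset.sum_le_sum_of_subset_of_nonneg (Finset.subset_univ _) fun i _ _ => ?_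
        split
        · exact hex i
        · exact le_rfl

theorem few_of (HC : CountSt) (HU : UasySt) (LA : Nrm.LASt) (S : ℝ)
    (hS : Tendsto (fun m : ℕ => Real.log (W m pt).toReal / (m : ℝ) ^ 2) atTop (𝓝 S))
    (τ κ : ℝ) (hτ : 0 < τ) (hκ : 0 < κ) : ∃ δ₀ : ℝ, 0 < δ₀ ∧ ∀ δ : ℝ, 0 < δ →
    δ < δ₀ → ∃ c : ℝ, 0 < c ∧ ∀ (L : ℕ → ℝ) (N : ℕ → ℕ), Tendsto L atTop atTop →
      Tendsto (fun k => (N k : ℝ) / L k ^ 2) atTop (𝓝 (1 / (√3 / 2 + δ))) →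
      ∀ᶠ k in atTop, 0 < volume (A (N k) (L k)) ∧
        volume {x | x ∈ A (N k) (L k) ∧
          κ * δ * N k < ((Finset.univ.filter fun i => τ < ex x i).card : ℝ)} ≤
          ENNReal.ofReal (Real.exp (-c * N k)) * volume (A (N k) (L k)) := by
  obtain ⟨_, _, _, _, hst⟩ := structure_thm
  set κ₂ := min (τ * κ) 1 / 2 with hκ₂
  have hκ₂0 : 0 < κ₂ := by rw [hκ₂]; positivity
  have hκ₂1 : κ₂ ≤ 1 / 2 := by
    rw [hκ₂]
    have := min_le_right (τ * κ) 1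
    linarith
  have hκ₂2 : 2 * κ₂ ≤ τ * κ := by
    rw [hκ₂]
    have := min_le_left (τ * κ) 1
    linarith
  set e := κ₂ / 12 with he
  have he0 : 0 < e := by positivity
  have hS1 : ∀ᶠ m : ℕ in atTop, Real.log (W m pt).toReal / (m : ℝ) ^ 2 ≤ S + e :=
    (hS.eventually (gt_mem_nhds (show S < S + e by linarith))).mono fun m hm => hm.le
  have hS2 : ∃ᶠ m : ℕ in atTop, S - e ≤ Real.log (W m pt).toReal / (m : ℝ) ^ 2 :=
    ((hS.eventually (lt_mem_nhds (show S - e < S by linarith))).mono fun m hm => hm.le).frequently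
  -- the lower bound
  obtain ⟨m₀, hm₀⟩ := LA e he0
  obtain ⟨m₁, hm₁, hm₁S⟩ := (hS2.and_eventually (eventually_ge_atTop m₀)).exists
  obtain ⟨δ₁, hδ₁, hlow⟩ := hm₀ m₁ hm₁S
  -- the upper bound
  obtain ⟨m₂, hm₂⟩ := eventually_atTop.1 hS1
  set e' := min e (1 / ((m₂ : ℝ) + 1)) with he'
  have he'0 : 0 < e' := by rw [he']; positivity
  obtain ⟨δ₂, hδ₂, hup⟩ := upperD HC HU τ hτ e' κ₂ he'0 hκ₂0 hκ₂1
  set q := Real.exp (e / 2) with hq
  have hq0 : 0 < q := Real.exp_pos _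
  have hq1 : 1 < q := Real.one_lt_exp_iff.2 (by positivity)
  have hq2 : q ≤ 2 := by
    have h1 : Real.exp (e / 2) ≤ Real.exp (Real.log 2) := by
      refine Real.exp_le_exp.2 ?_
      have := Real.log_two_gt_d9
      rw [he]
      linarith
    rwa [Real.exp_log two_pos] at h1
  have hlq : Real.log q = e / 2 := Real.log_exp _
  refine ⟨min (min δ₁ 1) (δ₂ / q), by positivity, fun δ hδ hδm =>
    ⟨κ₂ / 2, by positivity, fun L N hL hN => ?_⟩⟩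
  have hd1 : δ < δ₁ := lt_of_lt_of_le hδm ((min_le_left _ _).trans (min_le_left _ _))
  have hd2 : δ < 1 := lt_of_lt_of_le hδm ((min_le_left _ _).trans (min_le_right _ _))
  have hd3 : q * δ < δ₂ := by
    have := lt_of_lt_of_le hδm (min_le_right _ _)
    rw [lt_div_iff₀ hq0] at this
    linarith
  have hlt1 : δ / q < δ := by
    rw [div_lt_iff₀ hq0]
    nlinarith
  have hlt2 : δ < q * δ := by nlinarith
  obtain ⟨L₁, hL₁⟩ := hlow (δ / q) (by positivity) (hlt1.trans hd1)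
  obtain ⟨m, τm, hm2, hme, hτm, L₂, hL₂⟩ := hup (q * δ) (by positivity) hd3
  have hm : m₂ ≤ m := by
    have h1 : (m₂ : ℝ) + 1 ≤ 1 / e' := by
      rw [le_div_iff₀ he'0]
      have : e' ≤ 1 / ((m₂ : ℝ) + 1) := min_le_right _ _
      have h2 : (0 : ℝ) < (m₂ : ℝ) + 1 := by positivity
      calc ((m₂ : ℝ) + 1) * e' ≤ ((m₂ : ℝ) + 1) * (1 / ((m₂ : ℝ) + 1)) :=
            mul_le_mul_of_nonneg_left this h2.le
        _ = 1 := by field_simp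
    have h3 : (m₂ : ℝ) ≤ m := by linarith
    exact_mod_cast h3
  have hkm := hm₂ m hm
  have hee : e' ≤ e := min_le_left _ _
  filter_upwards [Nrm.ev_dens hδ hlt1 (by positivity) hlt2 hd2 L N hL hN, hL.eventually_ge_atTop L₁,
    hL.eventually_ge_atTop L₂, hL.eventually_ge_atTop 0] with k ⟨a1, a2, a3, a4⟩ c1 c2 c3
  have h1 := hL₁ (L k) (N k) c1 a2 a3
  have hz : 0 < zr (L k) (N k) := (Real.exp_pos _).trans_le h1
  have hf : (0 : ℝ) < (N k).factorial := by exact_mod_cast Nat.factorial_pos _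
  have hfin : volume (A (N k) (L k)) ≠ ⊤ := A_ne_top _ c3
  have hvr : 0 < (volume (A (N k) (L k))).toReal := by
    rw [zr_eq] at hz
    by_contra hcon
    have h0 : (volume (A (N k) (L k))).toReal / (N k).factorial ≤ 0 :=
      div_nonpos_of_nonpos_of_nonneg (not_lt.1 hcon) hf.le
    linarith
  have hvp : 0 < volume (A (N k) (L k)) := (ENNReal.toReal_pos_iff.1 hvr).1
  have hne : (A (N k) (L k)).Nonempty := nonempty_of_measure_ne_zero hvp.ne'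
  have h2 := hL₂ (L k) (N k) c2 a1 c3 a4 hne
  refine ⟨hvp, ?_⟩
  have hNk : (0 : ℝ) < N k := by exact_mod_cast a1
  set AD : Set (Fin (N k) → ℂ) := {x | x ∈ A (N k) (L k) ∧
    κ₂ * (q * δ) * N k ≤ ∑ i, if τm < ex x i then ex x i else 0} with hAD
  have hsub : {x | x ∈ A (N k) (L k) ∧
      κ * δ * N k < ((Finset.univ.filter fun i => τ < ex x i).card : ℝ)} ⊆ AD := by
    rintro x ⟨hx1, hx2⟩
    refine ⟨hx1, ?_⟩
    refine le_trans ?_ (sum_ge x τm τ _ hτm hτ (fun i => (hst _ x hx1.2 i).1) hx2.le)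
    have h3 : κ₂ * (q * δ) * N k ≤ (2 * κ₂) * (δ * N k) := by
      have h4 : 0 < κ₂ * (δ * N k) := by positivity
      nlinarith
    have h5 : (2 * κ₂) * (δ * N k) ≤ τ * κ * (δ * N k) :=
      mul_le_mul_of_nonneg_right hκ₂2 (by positivity)
    calc κ₂ * (q * δ) * N k ≤ τ * κ * (δ * N k) := h3.trans h5
      _ = τ * (κ * δ * N k) := by ring
  have hADfin : volume AD ≠ ⊤ := by
    refine ne_top_of_le_ne_top hfin (measure_mono ?_)
    exact fun x hx => hx.1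
  have hreal : (volume AD).toReal ≤ Real.exp (-(κ₂ / 2) * N k) *
      (volume (A (N k) (L k))).toReal := by
    have h3 : (volume AD).toReal ≤ Real.exp (N k * (2 * Real.log (q * δ) - Real.log 3 +
        Real.log (W m pt).toReal / (m : ℝ) ^ 2 + e' - κ₂)) * (N k).factorial := by
      rw [div_le_iff₀ hf] at h2
      exact h2
    rw [zr_eq, le_div_iff₀ hf] at h1
    refine h3.trans ?_
    calc Real.exp (N k * (2 * Real.log (q * δ) - Real.log 3 +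
        Real.log (W m pt).toReal / (m : ℝ) ^ 2 + e' - κ₂)) * (N k).factorial
        ≤ Real.exp (-(κ₂ / 2) * N k + N k * (2 * Real.log (δ / q) - Real.log 3 +
          Real.log (W m₁ pt).toReal / (m₁ : ℝ) ^ 2 - e)) * (N k).factorial := by
          refine mul_le_mul_of_nonneg_right (Real.exp_le_exp.2 ?_) hf.le
          rw [Real.log_div hδ.ne' hq0.ne', Real.log_mul hq0.ne' hδ.ne', hlq]
          have h6 : 2 * (e / 2 + Real.log δ) - Real.log 3 +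
              Real.log (W m pt).toReal / (m : ℝ) ^ 2 + e' - κ₂ ≤
              -(κ₂ / 2) + (2 * (Real.log δ - e / 2) - Real.log 3 +
          Real.log (W m₁ pt).toReal / (m₁ : ℝ) ^ 2 - e) := by
            have h7 : κ₂ = 12 * e := by rw [he]; ring
            linarith
          calc (N k : ℝ) * (2 * (e / 2 + Real.log δ) - Real.log 3 +
              Real.log (W m pt).toReal / (m : ℝ) ^ 2 + e' - κ₂) ≤ N k * (-(κ₂ / 2) +
              (2 * (Real.log δ - e / 2) - Real.log 3 +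
          Real.log (W m₁ pt).toReal / (m₁ : ℝ) ^ 2 - e)) := mul_le_mul_of_nonneg_left h6 hNk.le
            _ = _ := by ring
      _ = Real.exp (-(κ₂ / 2) * N k) * (Real.exp (N k * (2 * Real.log (δ / q) - Real.log 3 +
          Real.log (W m₁ pt).toReal / (m₁ : ℝ) ^ 2 - e)) * (N k).factorial) := by
          rw [Real.exp_add]; ring
      _ ≤ _ := mul_le_mul_of_nonneg_left h1 (Real.exp_pos _).le
  refine (measure_mono hsub).trans ?_
  rw [← ENNReal.ofReal_toReal hADfin, ← ENNReal.ofReal_toReal hfin,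
    ← ENNReal.ofReal_mul (Real.exp_pos _).le]
  exact ENNReal.ofReal_le_ofReal hreal

end Prob

end Pool.Agent.J4.H83.OO
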