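import Pool.Agent.J4.H83.OO.Defs

/-!
# The rotation of the bonds by 60 degrees as a permutation
-/

set_option autoImplicit false

open MeasureTheory Set

namespace Pool.Agent.J4.H83.OO

open Pool.Agent.J4.H83.FV Pool.Agent.J4.H83.HD

namespace Rot

lemma norm_ze : ‖ze‖ = 1 := by
  have h3 : √3 * √3 = 3 := Real.mul_self_sqrt (by norm_num)
  have h1 : ‖ze‖ ^ 2 = 1 := by
    unfold ze om
    rw [Complex.sq_norm, Complex.normSq_apply]
    simp only [Complex.add_re, Complex.one_re, Complex.add_im, Complex.one_im]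
    linarith
  exact (pow_eq_one_iff_of_nonneg (norm_nonneg _) (by norm_num)).1 h1

theorem of_hex {N : ℕ} (x : Fin N → ℂ) (hx : Sep x) (τ C : ℝ) (hC : 1 ≤ C) (hCτ : C * τ ≤ 1 / 100)
    (h6 : ∀ i, ex x i ≤ τ → (Nbr x i).card = 6 ∧ (∀ j ∈ Nbr x i, ‖x j - x i‖ ≤ 1 + C * ex x i) ∧
      ∀ j ∈ Nbr x i, ∃ k ∈ Nbr x i, ‖(x k - x i) - (1 + om) * (x j - x i)‖ ≤ C * ex x i) :
    ∃ ρ : Equiv.Perm (Fin N × Fin N), IsRot x τ C ρ := by
  classical
  have hch : ∀ p : Fin N × Fin N, ∃ k : Fin N, (ex x p.1 ≤ τ → p.2 ∈ Nbr x p.1 →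
      k ∈ Nbr x p.1 ∧ ‖(x k - x p.1) - (1 + om) * (x p.2 - x p.1)‖ ≤ C * ex x p.1) := by
    intro p
    by_cases h : ex x p.1 ≤ τ ∧ p.2 ∈ Nbr x p.1
    · obtain ⟨k, hk, hk2⟩ := (h6 p.1 h.1).2.2 p.2 h.2
      exact ⟨k, fun _ _ => ⟨hk, hk2⟩⟩
    · exact ⟨p.2, fun h1 h2 => absurd ⟨h1, h2⟩ h⟩
  choose g hg using hch
  set f : Fin N × Fin N → Fin N × Fin N := fun p =>
    if ex x p.1 ≤ τ ∧ p.2 ∈ Nbr x p.1 then (p.1, g p) else p with hf
  have f1 : ∀ p, (f p).1 = p.1 := by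
    intro p
    simp only [hf]
    split_ifs <;> rfl
  have fpos : ∀ p, ex x p.1 ≤ τ → p.2 ∈ Nbr x p.1 → f p = (p.1, g p) := fun p h1 h2 =>
    if_pos ⟨h1, h2⟩
  have fneg : ∀ p, ¬ (ex x p.1 ≤ τ ∧ p.2 ∈ Nbr x p.1) → f p = p := fun p h => if_neg h
  have finj : Function.Injective f := by
    intro p p' hpp
    have h1 : p.1 = p'.1 := by rw [← f1 p, ← f1 p', hpp]
    by_cases h : ex x p.1 ≤ τ ∧ p.2 ∈ Nbr x p.1
    · by_cases h' : ex x p'.1 ≤ τ ∧ p'.2 ∈ Nbr x p'.1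
      · rw [fpos p h.1 h.2, fpos p' h'.1 h'.2] at hpp
        have h2 : g p = g p' := congrArg Prod.snd hpp
        obtain ⟨-, h3⟩ := hg p h.1 h.2
        obtain ⟨-, h4⟩ := hg p' h'.1 h'.2
        rw [← h2, ← h1] at h4
        have h5 : ‖ze * (x p.2 - x p'.2)‖ ≤ 2 * (C * τ) := by
          have h6 : ze * (x p.2 - x p'.2) =
              ((x (g p) - x p.1) - (1 + om) * (x p'.2 - x p.1)) -
                ((x (g p) - x p.1) - (1 + om) * (x p.2 - x p.1)) := by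
            unfold ze
            ring
          rw [h6]
          have h7 : C * ex x p.1 ≤ C * τ := mul_le_mul_of_nonneg_left h.1 (by linarith)
          refine (norm_sub_le _ _).trans ?_
          linarith
        rw [norm_mul, norm_ze, one_mul] at h5
        have h8 : p.2 = p'.2 := by
          by_contra hne
          have := hx _ _ hne
          linarith
        exact Prod.ext h1 h8
      · rw [fpos p h.1 h.2, fneg p' h'] at hpp
        exfalso
        apply h'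
        rw [← hpp]
        exact ⟨h.1, (hg p h.1 h.2).1⟩
    · by_cases h' : ex x p'.1 ≤ τ ∧ p'.2 ∈ Nbr x p'.1
      · rw [fneg p h, fpos p' h'.1 h'.2] at hpp
        exfalso
        apply h
        rw [hpp]
        exact ⟨h'.1, (hg p' h'.1 h'.2).1⟩
      · rwa [fneg p h, fneg p' h'] at hpp
  have fbij : Function.Bijective f := Finite.injective_iff_bijective.1 finj
  have hBd : ∀ p : Fin N × Fin N, p ∈ Bd x ↔ p.2 ∈ Nbr x p.1 := by
    intro p
    unfold Bd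
    rw [Finset.mem_filter]
    exact and_iff_right (Finset.mem_univ _)
  refine ⟨Equiv.ofBijective f fbij, ?_⟩
  refine ⟨f1, fun p hp => ?_, fun p hp hpτ => ?_, fun p hp hpτ => ?_, fun i hi => (h6 i hi).1⟩
  · change f p ∈ Bd x
    rw [hBd] at hp
    by_cases hpτ : ex x p.1 ≤ τ
    · rw [fpos p hpτ hp, hBd]
      exact (hg p hpτ hp).1
    · rw [fneg p fun h => hpτ h.1, hBd]
      exact hp
  · change ‖bv x (f p) - ze * bv x p‖ ≤ _
    rw [hBd] at hp
    rw [fpos p hpτ hp]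
    exact (hg p hpτ hp).2
  · rw [hBd] at hp
    exact (h6 p.1 hpτ).2.1 p.2 hp

end Rot

theorem exists_rot : ∃ C : ℝ, 1 ≤ C ∧ ∃ τ₁ : ℝ, 0 < τ₁ ∧ C * τ₁ ≤ 1 / 100 ∧
    ∀ (N : ℕ) (x : Fin N → ℂ), Sep x → ∀ τ : ℝ, 0 < τ → τ ≤ τ₁ →
      (∀ i, 0 ≤ ex x i) ∧ ∃ ρ : Equiv.Perm (Fin N × Fin N), IsRot x τ C ρ := by
  obtain ⟨C, hC, τh, hτh, hhex⟩ := hex
  obtain ⟨ε₀, _, C₀, _, hst⟩ := structure_thm
  refine ⟨C, hC, min τh (1 / (100 * C)), by positivity, ?_, fun N x hx τ hτ hτ1 => ?_⟩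
  · have h1 : C * min τh (1 / (100 * C)) ≤ C * (1 / (100 * C)) :=
      mul_le_mul_of_nonneg_left (min_le_right _ _) (by linarith)
    have h2 : C * (1 / (100 * C)) = 1 / 100 := by field_simp
    linarith
  · have hCτ : C * τ ≤ 1 / 100 := by
      have h1 : C * τ ≤ C * (1 / (100 * C)) :=
        mul_le_mul_of_nonneg_left (hτ1.trans (min_le_right _ _)) (by linarith)
      have h2 : C * (1 / (100 * C)) = 1 / 100 := by field_simp
      linarith
    refine ⟨?_, ?_⟩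
    · exact fun i => (hst N x hx i).1
    · refine Rot.of_hex x hx τ C hC hCτ fun i hi => ?_
      obtain ⟨h1, h2, h3, -⟩ := hhex N x hx i (hi.trans (hτ1.trans (min_le_left _ _)))
      exact ⟨h1, h2, h3⟩

end Pool.Agent.J4.H83.OO
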