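import Pool.Agent.J4.H83.OO.Comm

/-!
# Lattice lines in a strip without defects are straight, from the bending estimate
-/

set_option autoImplicit false

open MeasureTheory Set

namespace Pool.Agent.J4.H83.OO

open Pool.Agent.J4.H83.FV Pool.Agent.J4.H83.HD

namespace StraightA

/-- the statement of `bend` -/
def BendStmt : Prop :=
  ∃ C : ℝ, 1 ≤ C ∧ ∀ (X H : ℕ) (P : ℕ → ℕ → ℂ) (E : ℕ → ℕ → ℝ) (e : ℝ), 1 ≤ H →
    0 ≤ e → e ≤ 1 / 100 → (∀ n y, 0 ≤ E n y ∧ E n y ≤ e) →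
    (∀ n ≤ X, ∀ y ≤ H, 1 ≤ ‖P (n + 1) y - P n y‖ ∧ ‖P (n + 1) y - P n y‖ ≤ 1 + E n y) →
    (∀ n ≤ X, ∀ y < H, ‖(P n (y + 1) - P n y) - ze * (P (n + 1) y - P n y)‖ ≤ E n y) →
    (∀ n < X, ∀ y ≤ H, ‖(P (n + 2) y - P (n + 1) y) - (P (n + 1) y - P n y)‖ ≤ 3 * E (n + 1) y) →
    ‖(P (X + 1) 0 - P X 0) - (P 1 0 - P 0 0)‖ ≤
      C * ((∑ n ∈ Finset.range (X + 1), E n 0 + ∑ n ∈ Finset.range (X + 1), E n H) / H + H * e +
        e / H * ∑ y ∈ Finset.range (H + 1), ∑ n ∈ Finset.range (X + 1), E n y)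

variable {N : ℕ} {x : Fin N → ℂ} {τ C : ℝ} {ρ : Equiv.Perm (Fin N × Fin N)}

theorem fw_fst (hρ : IsRot x τ C ρ) (p : Fin N × Fin N) : (fw ρ p).1 = p.2 := by
  rw [Comm.fw_apply, hρ.fst, hρ.fst, hρ.fst, Comm.swp_fst]

theorem up_fst (hρ : IsRot x τ C ρ) (p : Fin N × Fin N) : (up ρ p).1 = (ρ p).2 := by
  rw [Comm.up_apply, hρ.fst, hρ.fst, Comm.swp_fst]

theorem fw_mem (hρ : IsRot x τ C ρ) {p : Fin N × Fin N} (hp : p ∈ Bd x) : fw ρ p ∈ Bd x :=
  hρ.mem _ (hρ.mem _ (hρ.mem _ (Comm.swp_mem hp)))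

theorem up_mem (hρ : IsRot x τ C ρ) {p : Fin N × Fin N} (hp : p ∈ Bd x) : up ρ p ∈ Bd x :=
  hρ.mem _ (hρ.mem _ (Comm.swp_mem (hρ.mem _ hp)))

theorem fwn_mem (hρ : IsRot x τ C ρ) {p : Fin N × Fin N} (hp : p ∈ Bd x) (n : ℕ) :
    (fw ρ ^ n) p ∈ Bd x := by
  induction n with
  | zero => exact hp
  | succ n ih =>
    rw [pow_succ', Equiv.Perm.mul_apply]
    exact fw_mem hρ ih

theorem upn_mem (hρ : IsRot x τ C ρ) {p : Fin N × Fin N} (hp : p ∈ Bd x) (n : ℕ) :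
    (up ρ ^ n) p ∈ Bd x := by
  induction n with
  | zero => exact hp
  | succ n ih =>
    rw [pow_succ', Equiv.Perm.mul_apply]
    exact up_mem hρ ih

theorem fwn_succ (n : ℕ) (p : Fin N × Fin N) : (fw ρ ^ (n + 1)) p = fw ρ ((fw ρ ^ n) p) := by
  rw [pow_succ', Equiv.Perm.mul_apply]

theorem upn_succ (n : ℕ) (p : Fin N × Fin N) : (up ρ ^ (n + 1)) p = up ρ ((up ρ ^ n) p) := by
  rw [pow_succ', Equiv.Perm.mul_apply]

/-- the two translations commute on a strip without defects -/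
theorem up_fwn (hx : Sep x) (hC : 0 ≤ C) (hCτ : C * τ ≤ 1 / 100) (hρ : IsRot x τ C ρ) {X H : ℕ}
    {β : Fin N × Fin N} (hβ : β ∈ Bd x)
    (h : ∀ n ≤ X + 1, ∀ y ≤ H, ex x ((fw ρ ^ n) ((up ρ ^ y) β)).1 ≤ τ) {y : ℕ} (hy : y < H) (n : ℕ)
    (hn : n ≤ X + 1) : up ρ ((fw ρ ^ n) ((up ρ ^ y) β)) = (fw ρ ^ n) ((up ρ ^ (y + 1)) β) := by
  induction n with
  | zero => rw [pow_zero, upn_succ]; rfl
  | succ n ih =>
    have ih' := ih (by omega)
    have hm := fwn_mem hρ (upn_mem hρ hβ y) n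
    rw [fwn_succ, fwn_succ, ← ih']
    refine comm hx hC hCτ hρ hm (h n (by omega) y (by omega)) ?_ ?_ ?_
    · rw [← fw_fst hρ, ← fwn_succ]
      exact h (n + 1) hn y (by omega)
    · rw [ih']
      exact h n (by omega) (y + 1) (by omega)
    · rw [ih', ← fw_fst hρ, ← fwn_succ]
      exact h (n + 1) hn (y + 1) (by omega)

theorem straight_of_bend (hb : BendStmt) : ∃ C' : ℝ, 1 ≤ C' ∧ ∀ (N : ℕ) (x : Fin N → ℂ), Sep x →
    ∀ (τ C : ℝ) (ρ : Equiv.Perm (Fin N × Fin N)), 0 < τ → 1 ≤ C → C * τ ≤ 1 / 100 →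
    (∀ i, 0 ≤ ex x i) → IsRot x τ C ρ → ∀ (X H : ℕ) (A : ℝ), 1 ≤ H → ∀ β ∈ Bd x,
      Cond x ρ X H A τ β →
      ∀ n ≤ X, ‖bv x ((fw ρ ^ n) β) - bv x β‖ ≤ C' * C ^ 2 * (A / H + H * τ + A * τ) := by
  obtain ⟨Cb, hCb, hb⟩ := hb
  refine ⟨2 * Cb, by linarith, ?_⟩
  intro N x hx τ C ρ hτ hC hCτ hex hρ X H A hH β hβ hcond n hn
  obtain ⟨c1, c2, c3, c4⟩ := hcond
  have hC0 : 0 ≤ C := by linarith
  have hH0 : (0 : ℝ) < H := by exact_mod_cast hH
  obtain ⟨P, hP⟩ : ∃ P : ℕ → ℕ → ℂ, P = fun n y => x ((fw ρ ^ n) ((up ρ ^ y) β)).1 := ⟨_, rfl⟩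
  obtain ⟨E, hE⟩ : ∃ E : ℕ → ℕ → ℝ, E = fun n y =>
      if n ≤ X + 1 ∧ y ≤ H then C * ex x ((fw ρ ^ n) ((up ρ ^ y) β)).1 else 0 := ⟨_, rfl⟩
  have hE1 : ∀ n y, n ≤ X + 1 → y ≤ H → E n y = C * ex x ((fw ρ ^ n) ((up ρ ^ y) β)).1 := by
    intro n y h1 h2
    rw [hE]
    exact if_pos ⟨h1, h2⟩
  have hPd : ∀ n y, P (n + 1) y - P n y = bv x ((fw ρ ^ n) ((up ρ ^ y) β)) := by
    intro n y
    rw [hP]
    show x ((fw ρ ^ (n + 1)) ((up ρ ^ y) β)).1 - x ((fw ρ ^ n) ((up ρ ^ y) β)).1 = _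
    rw [fwn_succ, fw_fst hρ]
    rfl
  have hmem : ∀ n y, (fw ρ ^ n) ((up ρ ^ y) β) ∈ Bd x := fun n y =>
    fwn_mem hρ (upn_mem hρ hβ y) n
  have key := hb n H P E (C * τ) hH (by positivity) hCτ ?_ ?_ ?_ ?_
  · have hE0 : ∑ k ∈ Finset.range (n + 1), E k 0 ≤ C * A := by
      calc ∑ k ∈ Finset.range (n + 1), E k 0
          ≤ ∑ k ∈ Finset.range (X + 1), C * ex x ((fw ρ ^ k) β).1 := by
            refine (Finset.sum_le_sum (g := fun k => C * ex x ((fw ρ ^ k) β).1) fun k hk => ?_).trans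
              (Finset.sum_le_sum_of_subset_of_nonneg (Finset.range_mono (by omega))
                fun k _ _ => mul_nonneg hC0 (hex _))
            rw [Finset.mem_range] at hk
            rw [hE1 k 0 (by omega) (by omega)]
            exact le_rfl
        _ = C * ∑ k ∈ Finset.range (X + 1), ex x ((fw ρ ^ k) β).1 := by rw [Finset.mul_sum]
        _ ≤ C * A := mul_le_mul_of_nonneg_left c2 hC0
    have hEH : ∑ k ∈ Finset.range (n + 1), E k H ≤ C * A := by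
      calc ∑ k ∈ Finset.range (n + 1), E k H
          ≤ ∑ k ∈ Finset.range (X + 1), C * ex x ((fw ρ ^ k) ((up ρ ^ H) β)).1 := by
            refine (Finset.sum_le_sum (g := fun k => C * ex x ((fw ρ ^ k) ((up ρ ^ H) β)).1)
              fun k hk => ?_).trans
              (Finset.sum_le_sum_of_subset_of_nonneg (Finset.range_mono (by omega))
                fun k _ _ => mul_nonneg hC0 (hex _))
            rw [Finset.mem_range] at hk
            rw [hE1 k H (by omega) (by omega)]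
        _ = C * ∑ k ∈ Finset.range (X + 1), ex x ((fw ρ ^ k) ((up ρ ^ H) β)).1 := by
            rw [Finset.mul_sum]
        _ ≤ C * A := mul_le_mul_of_nonneg_left c3 hC0
    have hEE : ∑ y ∈ Finset.range (H + 1), ∑ k ∈ Finset.range (n + 1), E k y ≤ C * (A * H) := by
      calc ∑ y ∈ Finset.range (H + 1), ∑ k ∈ Finset.range (n + 1), E k y
          ≤ ∑ y ∈ Finset.range (H + 1), ∑ k ∈ Finset.range (X + 1),
              C * ex x ((fw ρ ^ k) ((up ρ ^ y) β)).1 := by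
            refine Finset.sum_le_sum fun y hy => ?_
            rw [Finset.mem_range] at hy
            refine (Finset.sum_le_sum (g := fun k => C * ex x ((fw ρ ^ k) ((up ρ ^ y) β)).1)
              fun k hk => ?_).trans
              (Finset.sum_le_sum_of_subset_of_nonneg (Finset.range_mono (by omega))
                fun k _ _ => mul_nonneg hC0 (hex _))
            rw [Finset.mem_range] at hk
            rw [hE1 k y (by omega) (by omega)]
        _ = C * ∑ y ∈ Finset.range (H + 1), ∑ k ∈ Finset.range (X + 1),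
              ex x ((fw ρ ^ k) ((up ρ ^ y) β)).1 := by
            rw [Finset.mul_sum]
            exact Finset.sum_congr rfl fun y _ => by rw [Finset.mul_sum]
        _ ≤ C * (A * H) := mul_le_mul_of_nonneg_left c4 hC0
    have hA0 : 0 ≤ A := (Finset.sum_nonneg fun k _ => hex _).trans c2
    rw [hPd, hPd] at key
    have e0 : (fw ρ ^ 0) ((up ρ ^ 0) β) = β := rfl
    have e1 : (fw ρ ^ n) ((up ρ ^ 0) β) = (fw ρ ^ n) β := rfl
    rw [e0, e1] at key
    refine key.trans ?_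
    have s1 : (∑ k ∈ Finset.range (n + 1), E k 0 + ∑ k ∈ Finset.range (n + 1), E k H) / H ≤
        2 * C * (A / H) := by
      rw [div_le_iff₀ hH0]
      have : 2 * C * (A / H) * H = 2 * C * A := by field_simp
      rw [this]
      linarith
    have s2 : C * τ / H * ∑ y ∈ Finset.range (H + 1), ∑ k ∈ Finset.range (n + 1), E k y ≤
        C ^ 2 * (A * τ) := by
      calc C * τ / H * ∑ y ∈ Finset.range (H + 1), ∑ k ∈ Finset.range (n + 1), E k y
          ≤ C * τ / H * (C * (A * H)) := mul_le_mul_of_nonneg_left hEE (by positivity)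
        _ = C ^ 2 * (A * τ) := by field_simp
    have hCC : C ≤ C ^ 2 := by nlinarith
    have s3 : (0 : ℝ) ≤ A / H := by positivity
    have s4 : (0 : ℝ) ≤ H * τ := by positivity
    have s5 : (0 : ℝ) ≤ A * τ := by positivity
    have s6 : C * (A / H) ≤ C ^ 2 * (A / H) := mul_le_mul_of_nonneg_right hCC s3
    have s7 : C * (H * τ) ≤ C ^ 2 * (H * τ) := mul_le_mul_of_nonneg_right hCC s4
    have s8 : (0 : ℝ) ≤ C ^ 2 * (H * τ) := by positivity
    have s9 : (0 : ℝ) ≤ C ^ 2 * (A * τ) := by positivity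
    have e2 : 2 * Cb * C ^ 2 * (A / H + H * τ + A * τ) =
        Cb * (2 * (C ^ 2 * (A / H)) + 2 * (C ^ 2 * (H * τ)) + 2 * (C ^ 2 * (A * τ))) := by ring
    rw [e2]
    refine mul_le_mul_of_nonneg_left ?_ (by linarith)
    have e3 : (H : ℝ) * (C * τ) = C * (H * τ) := by ring
    rw [e3]
    linarith
  · -- bounds
    intro k y
    rw [hE]
    dsimp only
    split_ifs with hk
    · exact ⟨mul_nonneg hC0 (hex _), mul_le_mul_of_nonneg_left (c1 k hk.1 y hk.2) hC0⟩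
    · exact ⟨le_rfl, by positivity⟩
  · intro k hk y hy
    rw [hPd, hE1 k y (by omega) hy]
    refine ⟨?_, hρ.len _ (hmem k y) (c1 k (by omega) y hy)⟩
    have h1 := (Comm.mem_Bd.1 (hmem k y)).1
    exact hx _ _ h1
  · intro k hk y hy
    rw [hPd, hE1 k y (by omega) hy.le]
    have e1 : P k (y + 1) - P k y = bv x (ρ ((fw ρ ^ k) ((up ρ ^ y) β))) := by
      rw [hP]
      show x ((fw ρ ^ k) ((up ρ ^ (y + 1)) β)).1 - x ((fw ρ ^ k) ((up ρ ^ y) β)).1 = _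
      rw [← up_fwn hx hC0 hCτ hρ hβ c1 hy k (by omega), up_fst hρ]
      unfold bv
      rw [hρ.fst]
    rw [e1]
    exact hρ.vec _ (hmem k y) (c1 k (by omega) y hy.le)
  · intro k hk y hy
    rw [hPd (k + 1) y, hPd k y, hE1 (k + 1) y (by omega) hy, fwn_succ]
    have h2 : ex x ((fw ρ ^ k) ((up ρ ^ y) β)).2 ≤ τ := by
      rw [← fw_fst hρ, ← fwn_succ]
      exact c1 (k + 1) (by omega) y hy
    have h3 := (fw_vec hx hC0 hρ (hmem k y) h2).2.2
    rw [fw_fst hρ]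
    exact h3

end StraightA

end Pool.Agent.J4.H83.OO
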